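import Pool.Agent.CY.T2
import Pool.Agent.CX.C3

/-!
# [CY-C1] the periods

PROOF. `per_K2`: `CX.per_K` for `dat_tw` (`D' = D * dx e ψ ^ l`), `kap6_tw`. `per_F2`: as `CX.per_F` (CX/C3.lean): `CX.arch` (for `F`), `fin_neron` over `F`; the places of `F` above 6 lie over the places of `KK` above 6, `l ^ n * m ^ b` over each (`count_six2`), with `neron = neron_v` (`tr_neron` with `JD.exists_Below`, `surj_six2`, `tr_und`).
-/

set_option autoImplicit false

open NumberField IsDedekindDomain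
open scoped Classical ComplexConjugate

namespace CY

open CX CM27 CMT NAB CF JD
open CU (la om eE)

variable {A B F : Type} [Field A] [NumberField A] [Field B] [NumberField B] [Field F] [NumberField F] [Algebra KK A] [Algebra KK B]
  [Algebra KK F] [Algebra A F] [Algebra B F] [IsScalarTower KK A F] [IsScalarTower KK B F]
  {l m n b : ℕ} [NeZero l] [NeZero m] {d : Fin n → Eis} {e : Fin b → Eis} {δ : Fin n → A} {ε : Fin b → B} {D : Eis}

theorem per_K2 (hD : Dat0 l m D d) (hE : Dat0 m l D e) (hK : Kum l n d δ) (hM : Kum m b e ε) (ψ : Fin b → ZMod m) (χ : Fin n → ZMod l) :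
    ∃ r : ℚ, Rp r ∧ SBSD.period (ED (jK (D * dx e ψ ^ l * dx d χ ^ m))) =
      √3 * Om ^ 2 / ‖emb (4 * (D * dx e ψ ^ l * dx d χ ^ m))‖ ^ ((1 : ℝ) / 3) * kap6 D * r := by
  obtain ⟨r, hr, h⟩ := CX.per_K (dat_tw hD hM.ne ψ) hK χ
  refine ⟨r, hr, ?_⟩
  rw [h, kap6_tw hE ψ]

theorem per_F2 (hD : Dat0 l m D d) (hE : Dat0 m l D e) (hK : Kum l n d δ) (hM : Kum m b e ε) (hC : Cmp A B F) :
    ∃ r : ℚ, Rp r ∧ SBSD.period (ED (jF F D)) =
      (√3 * Om ^ 2 / ‖emb (4 * D)‖ ^ ((1 : ℝ) / 3) * kap6 D) ^ (l ^ n * m ^ b) * r := by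
  have hne : jF F D ≠ 0 := by
    rw [jF_apply]
    exact (map_ne_zero_iff _ (algebraMap KK F).injective).2 (c3_jK hD.ne0)
  obtain ⟨r, hr, h1⟩ := fin_neron (k := F) hne
  refine ⟨r, hr, ?_⟩
  have hrk : Module.finrank KK F = l ^ n * m ^ b := by rw [hC.rank, hK.rank, hM.rank]
  unfold SBSD.period
  rw [arch F hD.ne0, h1, hrk, mul_pow, mul_assoc]
  congr 2
  set SF := (c3_fin F).toFinset with hSF
  set SK := (c3_fin KK).toFinset with hSK
  have h2 : ∏ᶠ w : HeightOneSpectrum (𝓞 F), (if (6 : 𝓞 F) ∈ w.asIdeal then SBSD.neron (ED (jF F D)) w else 1) =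
      ∏ w ∈ SF, SBSD.neron (ED (jF F D)) w := by
    rw [finprod_eq_prod_of_mulSupport_subset (s := SF)]
    · refine Finset.prod_congr rfl fun w hw => ?_
      rw [hSF, Set.Finite.mem_toFinset] at hw
      exact if_pos hw
    · intro w hw
      rw [hSF, Set.Finite.coe_toFinset]
      by_contra h6
      exact hw (if_neg h6)
  have h3 : kap6 D = ∏ v ∈ SK, SBSD.neron (ED (jK D)) v := by
    unfold kap6
    rw [finprod_eq_prod_of_mulSupport_subset (s := SK)]
    · refine Finset.prod_congr rfl fun w hw => ?_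
      rw [hSK, Set.Finite.mem_toFinset] at hw
      exact if_pos hw
    · intro w hw
      rw [hSK, Set.Finite.coe_toFinset]
      by_contra h6
      exact hw (if_neg h6)
  have h6und : ∀ w : HeightOneSpectrum (𝓞 F), (6 : 𝓞 F) ∈ w.asIdeal ↔ (6 : 𝓞 KK) ∈ (und KK w).asIdeal := by
    intro w
    rw [NAB.mem_und, map_ofNat]
  rw [h2, h3, ← Finset.prod_pow]
  rw [← Finset.prod_fiberwise_of_maps_to (s := SF) (t := SK) (g := fun w => und KK w)]
  · refine Finset.prod_congr rfl fun v hv => ?_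
    rw [hSK, Set.Finite.mem_toFinset] at hv
    have hc := (count_six2 hD hE hK hM hC v hv).1
    rw [← hc]
    have h4 : ∀ w ∈ SF.filter (fun w => und KK w = v), SBSD.neron (ED (jF F D)) w = SBSD.neron (ED (jK D)) v := by
      intro w hw
      rw [Finset.mem_filter] at hw
      obtain ⟨v', φ, hφ⟩ := JD.exists_Below (F := F) w
      have h6w : (6 : 𝓞 F) ∈ w.asIdeal := by
        have := hw.1
        rw [hSF, Set.Finite.mem_toFinset] at this
        exact this
      have hv' : v' = v := by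
        rw [← tr_und hφ, hw.2]
      subst hv'
      exact tr_neron hφ (surj_six2 hD hE hK hM hC v' w h6w φ hφ) hD.ne0
    rw [Finset.prod_congr rfl h4, Finset.prod_const]
    congr 1
    rw [← Set.ncard_coe_finset]
    congr 1
    ext w
    rw [Finset.mem_coe, Finset.mem_filter, hSF, Set.Finite.mem_toFinset, Set.mem_ofPred_eq, Set.mem_ofPred_eq]
    constructor
    · exact fun h => h.2
    · exact fun h => ⟨by rw [h6und, h]; exact hv, h⟩
  · intro w hw
    rw [hSK, Set.Finite.mem_toFinset, Set.mem_ofPred_eq, ← h6und]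
    rw [hSF, Set.Finite.mem_toFinset] at hw
    exact hw

end CY
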