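import Pool.Agent.CX.D1

/-!
# [CY-D0] the discriminant of a number field over ℚ(ω) and the determinant of a basis, up to rational squares

PROOF. This is the general form of the second half of CX/D1.lean (`d1_discr`, `disc_rat`), with an arbitrary finite index set `ι` instead of `Fin n → ZMod l` and arbitrary elements `θ` (the proof is the same): the `θ i, ω θ i` have discriminant of absolute value `3 ^ N ‖det‖ ^ 4 ≠ 0`, so they are a basis of `F` over `ℚ`, and `disc (basis) = discr F * ρ²`, `ρ ∈ ℚ`, `ρ ≠ 0`.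
-/

set_option autoImplicit false

open NumberField IsDedekindDomain
open scoped Classical ComplexConjugate

namespace CY

open CX CM27 CMT NAB CF JD
open CU (la om eE)

/-- the discriminant of the basis `θ i, ω θ i` -/
theorem d0_discr {F : Type} [Field F] [NumberField F] [Algebra KK F] {ι : Type} [Fintype ι] [DecidableEq ι] (s : ι → (F →+* ℂ))
    (hs : ∀ g (a : Eis), s g (jF F a) = emb a)
    (hsi : Function.Injective s) (hrk : Module.finrank ℚ F = 2 * Fintype.card ι) (θ : ι → F) :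
    |((Algebra.discr ℚ (Sum.elim θ fun χ => jF F om * θ χ) : ℚ) : ℝ)| =
      3 ^ (Fintype.card ι) * ‖Matrix.det (Matrix.of fun g i => s g (θ i))‖ ^ 4 := by
  set b : ι ⊕ ι → F := Sum.elim θ fun χ => jF F om * θ χ with hb
  set A : Matrix ι ι ℂ := Matrix.of fun i j => s j (θ i) with hA
  have hAT : Matrix.det (Matrix.of fun j i => s j (θ i)) = A.det := by
    rw [← Matrix.det_transpose]
    rfl
  set B : Matrix ι ι ℂ := (starRingEnd ℂ).mapMatrix A with hB
  have hBd : B.det = conj A.det := by rw [hB, ← RingHom.map_det]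
  have hwc := d1_wc
  have hfix : ∀ g, s g (jF F om) = w := fun g => (hs g om).trans d1_om
  -- the embeddings
  let σ : ι ⊕ ι → (F →ₐ[ℚ] ℂ) := Sum.elim (fun j => (s j).toRatAlgHom)
    (fun j => ((starRingEnd ℂ).comp (s j)).toRatAlgHom)
  have s0 : ∀ j x, σ (Sum.inl j) x = s j x := fun j x => rfl
  have s1 : ∀ j x, σ (Sum.inr j) x = conj (s j x) := fun j x => rfl
  have hinj : Function.Injective σ := by
    rintro (i | i) (j | j) hij
    · congr 1
      apply hsi
      ext x
      exact congrArg (fun f : F →ₐ[ℚ] ℂ => f x) hij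
    · exfalso
      have h3 : s i (jF F om) = conj (s j (jF F om)) :=
        congrArg (fun f : F →ₐ[ℚ] ℂ => f (jF F om)) hij
      rw [hfix, hfix] at h3
      exact hwc h3.symm
    · exfalso
      have h3 : conj (s i (jF F om)) = s j (jF F om) :=
        congrArg (fun f : F →ₐ[ℚ] ℂ => f (jF F om)) hij
      rw [hfix, hfix] at h3
      exact hwc h3
    · congr 1
      apply hsi
      ext x
      apply (starRingEnd ℂ).injective
      exact congrArg (fun f : F →ₐ[ℚ] ℂ => f x) hij
  have hbij : Function.Bijective σ := by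
    rw [Fintype.bijective_iff_injective_and_card]
    refine ⟨hinj, ?_⟩
    rw [AlgHom.card, hrk, Fintype.card_sum]
    ring
  let e : ι ⊕ ι ≃ (F →ₐ[ℚ] ℂ) := Equiv.ofBijective σ hbij
  have he : ∀ j, e j = σ j := fun j => rfl
  have h4 := Algebra.discr_eq_det_embeddingsMatrixReindex_pow_two ℚ ℂ b e
  have hmat : Algebra.embeddingsMatrixReindex ℚ ℂ b e =
      Matrix.fromBlocks A B (w • A) (conj w • B) := by
    ext i j
    have hij : Algebra.embeddingsMatrixReindex ℚ ℂ b e i j = σ j (b i) := rfl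
    rw [hij]
    rcases i with i | i <;> rcases j with j | j
    · rw [s0]
      rfl
    · rw [s1]
      rfl
    · rw [s0]
      have e1 : b (Sum.inr i) = jF F om * θ i := rfl
      rw [e1, map_mul, hfix]
      rfl
    · rw [s1]
      have e1 : b (Sum.inr i) = jF F om * θ i := rfl
      rw [e1, map_mul, hfix, map_mul]
      rfl
  rw [hmat, d1_det, hBd] at h4
  have hw3 := d1_ww
  rw [hAT]
  have h8 : A.det * conj A.det = ((‖A.det‖ ^ 2 : ℝ) : ℂ) := by
    rw [Complex.mul_conj, Complex.normSq_eq_norm_sq]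
  have h10 : (((Algebra.discr ℚ b : ℚ) : ℝ) : ℂ) = (algebraMap ℚ ℂ) (Algebra.discr ℚ b) := by
    rw [eq_ratCast]
    push_cast
    rfl
  have h11 : ((conj w - w) ^ (Fintype.card ι) * (A.det * conj A.det)) ^ 2 =
      (-3) ^ (Fintype.card ι) * (A.det * conj A.det) ^ 2 := by
    rw [← hw3, mul_pow, ← pow_mul, ← pow_mul, mul_comm (Fintype.card ι) 2]
  rw [← h10, h11, h8] at h4
  have h12 : |((Algebra.discr ℚ b : ℚ) : ℝ)| = ‖(((Algebra.discr ℚ b : ℚ) : ℝ) : ℂ)‖ := by
    rw [Complex.norm_real, Real.norm_eq_abs]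
  rw [h12, h4, norm_mul, norm_pow, norm_pow, norm_neg, Complex.norm_real, Real.norm_eq_abs,
    abs_of_nonneg (by positivity)]
  norm_num
  ring

theorem disc_basis {F : Type} [Field F] [NumberField F] [Algebra KK F] {ι : Type} [Fintype ι] [DecidableEq ι] (s : ι → (F →+* ℂ))
    (hs : ∀ g (a : Eis), s g (jF F a) = emb a) (hinj : Function.Injective s) (hc : Module.finrank KK F = Fintype.card ι) (θ : ι → F)
    (hθ : Matrix.det (Matrix.of fun g i => s g (θ i)) ≠ 0) : ∃ r : ℚ, 0 < r ∧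
    √|(discr F : ℝ)| = r * √3 ^ (Fintype.card ι) * ‖Matrix.det (Matrix.of fun g i => s g (θ i))‖ ^ 2 := by
  have hrk : Module.finrank ℚ F = 2 * Fintype.card ι := by
    have h1 := Module.finrank_mul_finrank ℚ KK F
    have h2 : Module.finrank ℚ KK = 2 := by
      have h3 := IsCyclotomicExtension.finrank (K := ℚ) (n := 3) KK (Polynomial.cyclotomic.irreducible_rat (by norm_num))
      rw [h3]
      rfl
    rw [← h1, h2, hc]
  set Δ : ℂ := Matrix.det (Matrix.of fun g i => s g (θ i)) with hΔ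
  have hd := d0_discr s hs hinj hrk θ
  set v : ι ⊕ ι → F := Sum.elim θ fun χ => jF F om * θ χ with hv
  have hΔ0 : 0 < ‖Δ‖ := norm_pos_iff.mpr hθ
  have hΔpos : 0 < ‖Δ‖ ^ 2 := by positivity
  -- the change of basis
  have hcc : Fintype.card (ι ⊕ ι) = Fintype.card (Module.Free.ChooseBasisIndex ℤ (𝓞 F)) := by
    rw [Fintype.card_sum, ← Module.finrank_eq_card_basis (integralBasis F), hrk]
    ring
  let f : Module.Free.ChooseBasisIndex ℤ (𝓞 F) ≃ ι ⊕ ι := Fintype.equivOfCardEq hcc.symm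
  let b : Module.Basis (ι ⊕ ι) ℚ F := (integralBasis F).reindex f
  have h1 : Algebra.discr ℚ b = (discr F : ℚ) := by
    rw [NumberField.coe_discr, Module.Basis.coe_reindex, Algebra.discr_reindex]
  have h2 := Algebra.discr_of_matrix_vecMul (A := ℚ) b (b.toMatrix v)
  rw [Module.Basis.toMatrix_map_vecMul, h1] at h2
  set ρ : ℚ := (b.toMatrix v).det with hρ
  have h3 : |((Algebra.discr ℚ v : ℚ) : ℝ)| = (ρ : ℝ) ^ 2 * |(discr F : ℝ)| := by
    rw [h2]
    push_cast
    rw [abs_mul, abs_of_nonneg (sq_nonneg _)]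
  have h4 : (ρ : ℝ) ^ 2 * |(discr F : ℝ)| = 3 ^ (Fintype.card ι) * ‖Δ‖ ^ 4 := by rw [← h3, hd]
  have hρ0 : ρ ≠ 0 := by
    intro h
    rw [h] at h4
    have h5 : (0 : ℝ) < 3 ^ (Fintype.card ι) * ‖Δ‖ ^ 4 := by
      have : ‖Δ‖ ^ 4 = (‖Δ‖ ^ 2) ^ 2 := by ring
      rw [this]
      positivity
    rw [← h4] at h5
    simp at h5
  have hρp : 0 < |(ρ : ℝ)| := abs_pos.2 (by exact_mod_cast hρ0)
  refine ⟨1 / |ρ|, ?_, ?_⟩
  · have : 0 < |ρ| := abs_pos.2 hρ0
    positivity
  · have h5 : |(discr F : ℝ)| = (√3 ^ (Fintype.card ι) * ‖Δ‖ ^ 2 / |(ρ : ℝ)|) ^ 2 := by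
      rw [div_pow, mul_pow, ← pow_mul, mul_comm (Fintype.card ι) 2, pow_mul, Real.sq_sqrt (by norm_num), sq_abs,
        eq_div_iff (by positivity)]
      linear_combination h4
    rw [h5, Real.sqrt_sq (by positivity)]
    push_cast
    ring

end CY
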