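import Pool.Agent.CY.G1
import Pool.Agent.CY.D0
import Pool.Agent.CX.D1a

/-!
# [CY-D1] the discriminant of the compositum up to squares

PROOF. Embeddings: `d1_embs` (CX/D1.lean) gives `s` for `A` and `s'` for `B`. For each pair `(g, h)` there is a unique embedding `t (h, g) : F →+* ℂ` with `t ∘ algebraMap A F = s g`, `t ∘ algebraMap B F = s' h`: take any embedding `t₀` of `F` over `emb` (`AlgHom` over `KK`, `IsAlgClosed.lift`), `t₀ ∘ algebraMap A F` is some `s g₀` (the `s g` are all embeddings over `emb`: their number is `[A : K]`), and compose with `ρ` of `cmp_lift`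
(`s g = s g₀ ∘ σ`: the automorphisms of the Galois extension `A / K` act simply transitively on the embeddings, counting); injective: `hC.top`. `θ (ψ, χ) = algebraMap B F (dl ε ψ) * algebraMap A F (dl δ χ)`: the matrix `t (h, g) (θ (ψ, χ))` is the Kronecker product of `s' h (dl ε ψ)` and `s g (dl δ χ)` (`Matrix.det_kronecker`): `‖det‖² = (‖det‖²)^(l^n) (‖det‖²)^(m^b)`, and `det_kum` (CX/D1a.lean) for both.
`disc_basis` with `ι = (Fin b → ZMod m) × (Fin n → ZMod l)`; the factors `(l^n)^(..)`, `(m^b)^(..)` are absorbed in the rational number `r`.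
-/

set_option autoImplicit false

open NumberField IsDedekindDomain
open scoped Classical ComplexConjugate

namespace CY

open CX CM27 CMT NAB CF JD
open CU (la om eE)

variable {A B F : Type} [Field A] [NumberField A] [Field B] [NumberField B] [Field F] [NumberField F] [Algebra KK A] [Algebra KK B]
  [Algebra KK F] [Algebra A F] [Algebra B F] [IsScalarTower KK A F] [IsScalarTower KK B F]
  {l m n b : ℕ} [NeZero l] [NeZero m] {d : Fin n → Eis} {e : Fin b → Eis} {δ : Fin n → A} {ε : Fin b → B} {D : Eis}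

theorem disc_rat2 (hl : l = 2 ∨ l = 3) (hm : l * m = 6) (hK : Kum l n d δ) (hM : Kum m b e ε) (hC : Cmp A B F) : ∃ r : ℚ, 0 < r ∧
    √|(discr F : ℝ)| = r * √3 ^ (l ^ n * m ^ b) *
      ∏ p : (Fin b → ZMod m) × (Fin n → ZMod l), (‖emb (dx e p.1)‖ ^ ((l : ℝ) / 3) * ‖emb (dx d p.2)‖ ^ ((m : ℝ) / 3)) := by
  have hm' : m = 2 ∨ m = 3 := by rcases hl with rfl | rfl <;> omega
  have hml : m * l = 6 := by rw [mul_comm]; exact hm
  have hl0 : 0 < l := by omega
  have hm0 : 0 < m := by omega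
  have fA : Module.Finite KK A := Module.finite_of_finrank_pos (by rw [hK.rank]; exact pow_pos hl0 n)
  have fB : Module.Finite KK B := Module.finite_of_finrank_pos (by rw [hM.rank]; exact pow_pos hm0 b)
  have hrF : Module.finrank KK F = l ^ n * m ^ b := by rw [hC.rank, hK.rank, hM.rank]
  have fF : Module.Finite KK F := Module.finite_of_finrank_pos (by rw [hrF]; positivity)
  have sA : Algebra.IsSeparable KK A := inferInstance
  have sB : Algebra.IsSeparable KK B := inferInstance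
  have sF : Algebra.IsSeparable KK F := inferInstance
  have cA : Fintype.card (A →ₐ[KK] ℂ) = Fintype.card (Fin n → ZMod l) := by
    rw [AlgHom.card, hK.rank, Fintype.card_fun, ZMod.card, Fintype.card_fin]
  have cB : Fintype.card (B →ₐ[KK] ℂ) = Fintype.card (Fin b → ZMod m) := by
    rw [AlgHom.card, hM.rank, Fintype.card_fun, ZMod.card, Fintype.card_fin]
  have cl : Fintype.card (Fin n → ZMod l) = l ^ n := by rw [Fintype.card_fun, ZMod.card, Fintype.card_fin]
  have cm : Fintype.card (Fin b → ZMod m) = m ^ b := by rw [Fintype.card_fun, ZMod.card, Fintype.card_fin]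
  let eA : (Fin n → ZMod l) ≃ (A →ₐ[KK] ℂ) := Fintype.equivOfCardEq cA.symm
  let eB : (Fin b → ZMod m) ≃ (B →ₐ[KK] ℂ) := Fintype.equivOfCardEq cB.symm
  let Φ : (F →ₐ[KK] ℂ) → (A →ₐ[KK] ℂ) × (B →ₐ[KK] ℂ) := fun t =>
    (t.comp (IsScalarTower.toAlgHom KK A F), t.comp (IsScalarTower.toAlgHom KK B F))
  have hΦi : Function.Injective Φ := by
    intro t t' htt
    have h1 : ∀ x : A, t (algebraMap A F x) = t' (algebraMap A F x) := fun x =>
      congrArg (fun f : A →ₐ[KK] ℂ => f x) (congrArg Prod.fst htt)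
    have h2 : ∀ x : B, t (algebraMap B F x) = t' (algebraMap B F x) := fun x =>
      congrArg (fun f : B →ₐ[KK] ℂ => f x) (congrArg Prod.snd htt)
    apply AlgHom.ext
    intro x
    have hx : x ∈ IntermediateField.adjoin KK (Set.range (algebraMap A F) ∪ Set.range (algebraMap B F)) := by
      rw [hC.top]
      exact IntermediateField.mem_top
    induction hx using IntermediateField.adjoin_induction with
    | mem y hy =>
      rcases hy with ⟨z, rfl⟩ | ⟨z, rfl⟩
      · exact h1 z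
      · exact h2 z
    | algebraMap y => rw [AlgHom.commutes, AlgHom.commutes]
    | add y z _ _ hy hz => rw [map_add, map_add, hy, hz]
    | inv y _ hy => rw [map_inv₀, map_inv₀, hy]
    | mul y z _ _ hy hz => rw [map_mul, map_mul, hy, hz]
  have hΦb : Function.Bijective Φ := by
    rw [Fintype.bijective_iff_injective_and_card]
    refine ⟨hΦi, ?_⟩
    rw [Fintype.card_prod, AlgHom.card, AlgHom.card, AlgHom.card]
    exact hC.rank
  let Ψ := Equiv.ofBijective Φ hΦb
  have hΨ : ∀ y, Φ (Ψ.symm y) = y := fun y => Ψ.apply_symm_apply y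
  let t : (Fin b → ZMod m) × (Fin n → ZMod l) → (F →+* ℂ) := fun p => (Ψ.symm (eA p.2, eB p.1)).toRingHom
  have tA : ∀ p (x : A), t p (algebraMap A F x) = eA p.2 x := fun p x =>
    congrArg (fun f : A →ₐ[KK] ℂ => f x) (congrArg Prod.fst (hΨ (eA p.2, eB p.1)))
  have tB : ∀ p (x : B), t p (algebraMap B F x) = eB p.1 x := fun p x =>
    congrArg (fun f : B →ₐ[KK] ℂ => f x) (congrArg Prod.snd (hΨ (eA p.2, eB p.1)))
  have ts : ∀ p (a : Eis), t p (jF F a) = emb a := by
    intro p a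
    have h1 : (Ψ.symm (eA p.2, eB p.1)) (algebraMap KK F (jK a)) = algebraMap KK ℂ (jK a) :=
      AlgHom.commutes _ (jK a)
    exact h1.trans (CU.eE_coe a)
  have ti : Function.Injective t := by
    intro p q hpq
    have h1 : Ψ.symm (eA p.2, eB p.1) = Ψ.symm (eA q.2, eB q.1) := by
      apply AlgHom.ext
      intro x
      exact congrArg (fun f : F →+* ℂ => f x) hpq
    have h2 := Ψ.symm.injective h1
    have h3 := eA.injective (congrArg Prod.fst h2)
    have h4 := eB.injective (congrArg Prod.snd h2)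
    exact Prod.ext h4 h3
  have dA := det_kum hl hm hK (fun g => (eA g).toRingHom) (fun g a => by
    have h1 : (eA g) (algebraMap KK A (jK a)) = algebraMap KK ℂ (jK a) := AlgHom.commutes _ (jK a)
    exact h1.trans (CU.eE_coe a)) (fun g h hgh => by
    apply eA.injective
    apply AlgHom.ext
    intro x
    exact congrArg (fun f : A →+* ℂ => f x) hgh)
  have dB := det_kum hm' hml hM (fun g => (eB g).toRingHom) (fun g a => by
    have h1 : (eB g) (algebraMap KK B (jK a)) = algebraMap KK ℂ (jK a) := AlgHom.commutes _ (jK a)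
    exact h1.trans (CU.eE_coe a)) (fun g h hgh => by
    apply eB.injective
    apply AlgHom.ext
    intro x
    exact congrArg (fun f : B →+* ℂ => f x) hgh)
  let θ : (Fin b → ZMod m) × (Fin n → ZMod l) → F := fun p =>
    algebraMap B F (dl ε p.1) * algebraMap A F (dl δ p.2)
  have hker : (Matrix.of fun g i => t g (θ i)) =
      Matrix.kroneckerMap (fun x y : ℂ => x * y) (Matrix.of fun g χ : Fin b → ZMod m => (eB g).toRingHom (dl ε χ))
        (Matrix.of fun g χ : Fin n → ZMod l => (eA g).toRingHom (dl δ χ)) := by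
    ext g i
    rw [Matrix.kroneckerMap_apply, Matrix.of_apply, Matrix.of_apply, Matrix.of_apply]
    show t g (algebraMap B F (dl ε i.1) * algebraMap A F (dl δ i.2)) = _
    rw [map_mul, tA, tB]
    rfl
  have hdet : ‖Matrix.det (Matrix.of fun g i => t g (θ i))‖ ^ 2 =
      (((m : ℝ) ^ b) ^ (m ^ b) * ∏ ψ : Fin b → ZMod m, ‖emb (dx e ψ)‖ ^ ((l : ℝ) / 3)) ^ (l ^ n) *
      (((l : ℝ) ^ n) ^ (l ^ n) * ∏ χ : Fin n → ZMod l, ‖emb (dx d χ)‖ ^ ((m : ℝ) / 3)) ^ (m ^ b) := by
    rw [hker]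
    have h1 := Matrix.det_kronecker (Matrix.of fun g χ : Fin b → ZMod m => (eB g).toRingHom (dl ε χ))
        (Matrix.of fun g χ : Fin n → ZMod l => (eA g).toRingHom (dl δ χ))
    rw [cl, cm] at h1
    rw [← dA, ← dB]
    have h2 : Matrix.det (Matrix.kroneckerMap (fun x y : ℂ => x * y)
        (Matrix.of fun g χ : Fin b → ZMod m => (eB g).toRingHom (dl ε χ))
        (Matrix.of fun g χ : Fin n → ZMod l => (eA g).toRingHom (dl δ χ))) =
        Matrix.det (Matrix.of fun g χ : Fin b → ZMod m => (eB g).toRingHom (dl ε χ)) ^ (l ^ n) *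
        Matrix.det (Matrix.of fun g χ : Fin n → ZMod l => (eA g).toRingHom (dl δ χ)) ^ (m ^ b) := h1
    rw [h2, norm_mul, norm_pow, norm_pow, mul_pow]
    ring
  have hpos : ∀ x : Eis, x ≠ 0 → 0 < ‖emb x‖ := by
    intro x hx
    rw [norm_pos_iff]
    intro h
    exact hx (emb_injective (by rw [h, map_zero]))
  have hPe : 0 < ∏ ψ : Fin b → ZMod m, ‖emb (dx e ψ)‖ ^ ((l : ℝ) / 3) :=
    Finset.prod_pos fun ψ _ => Real.rpow_pos_of_pos (hpos _ (dx_ne hM ψ)) _
  have hPd : 0 < ∏ χ : Fin n → ZMod l, ‖emb (dx d χ)‖ ^ ((m : ℝ) / 3) :=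
    Finset.prod_pos fun χ _ => Real.rpow_pos_of_pos (hpos _ (dx_ne hK χ)) _
  have hlR : (0 : ℝ) < l := by exact_mod_cast hl0
  have hmR : (0 : ℝ) < m := by exact_mod_cast hm0
  have hdet0 : Matrix.det (Matrix.of fun g i => t g (θ i)) ≠ 0 := by
    intro h
    rw [h] at hdet
    have h1 : (0 : ℝ) < (((m : ℝ) ^ b) ^ (m ^ b) * ∏ ψ : Fin b → ZMod m, ‖emb (dx e ψ)‖ ^ ((l : ℝ) / 3)) ^ (l ^ n) *
      (((l : ℝ) ^ n) ^ (l ^ n) * ∏ χ : Fin n → ZMod l, ‖emb (dx d χ)‖ ^ ((m : ℝ) / 3)) ^ (m ^ b) := by positivity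
    rw [← hdet] at h1
    simp at h1
  have cι : Fintype.card ((Fin b → ZMod m) × (Fin n → ZMod l)) = l ^ n * m ^ b := by
    rw [Fintype.card_prod, cl, cm, mul_comm]
  obtain ⟨r, hr, h⟩ := disc_basis t ts ti (by rw [hrF, cι]) θ hdet0
  refine ⟨r * (((m : ℚ) ^ b) ^ (m ^ b)) ^ (l ^ n) * (((l : ℚ) ^ n) ^ (l ^ n)) ^ (m ^ b), ?_, ?_⟩
  · have : (0 : ℚ) < l := by exact_mod_cast hl0
    have : (0 : ℚ) < m := by exact_mod_cast hm0
    positivity
  · rw [h, hdet, cι]
    have h1 : ∏ p : (Fin b → ZMod m) × (Fin n → ZMod l), (‖emb (dx e p.1)‖ ^ ((l : ℝ) / 3) * ‖emb (dx d p.2)‖ ^ ((m : ℝ) / 3)) =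
        (∏ ψ : Fin b → ZMod m, ‖emb (dx e ψ)‖ ^ ((l : ℝ) / 3)) ^ (l ^ n) *
        (∏ χ : Fin n → ZMod l, ‖emb (dx d χ)‖ ^ ((m : ℝ) / 3)) ^ (m ^ b) := by
      rw [Finset.prod_mul_distrib, Fintype.prod_prod_type, Fintype.prod_prod_type]
      dsimp only
      congr 1
      · rw [← Finset.prod_pow]
        refine Finset.prod_congr rfl fun ψ _ => ?_
        rw [Finset.prod_const, Finset.card_univ, cl]
      · rw [Finset.prod_const, Finset.card_univ, cm]
    rw [h1]
    push_cast
    rw [mul_pow, mul_pow]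
    ring

end CY
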