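import Pool.Agent.CY.T1
import Pool.Agent.CX.D2

/-!
# [CY-D2] the valuation of the discriminant at 2 and 3

PROOF. As `CX.disc_val` (CX/D2.lean), for both prime numbers: `|discr F| = absNorm (differentIdeal) * 3 ^ [F : K]`; if `2` or `3` divides the norm of the different, some prime `w` of `F` over `2` or `3` is ramified over `KK`, against `six_unram2` (`6 ∈ und KK w`). `[F : K] = l ^ n * m ^ b` (`hC.rank`, `hK.rank`, `hM.rank`).
-/

set_option autoImplicit false

open NumberField IsDedekindDomain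
open scoped Classical ComplexConjugate

namespace CY

open CX CM27 CMT NAB CF JD
open CU (la om eE)

/-- a prime divisor `p` of `6` does not divide the norm of the different if the primes above 6 are unramified -/
theorem D2_ndvd {F : Type} [Field F] [NumberField F] [Algebra KK F]
    (hu : ∀ v : HeightOneSpectrum (𝓞 KK), (6 : 𝓞 KK) ∈ v.asIdeal → ∀ w : HeightOneSpectrum (𝓞 F), und KK w = v →
      ¬ v.asIdeal.map (algebraMap (𝓞 KK) (𝓞 F)) ≤ w.asIdeal ^ 2) {p q : ℕ} (hp : p.Prime) (hpq : q * p = 6) :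
    ¬ p ∣ Ideal.absNorm (differentIdeal (𝓞 KK) (𝓞 F)) := by
  intro h
  obtain ⟨P, hP, h6, h7⟩ := Ideal.exists_isMaximal_dvd_of_dvd_absNorm' hp _ h
  refine not_dvd_differentIdeal_iff.2 ?_ h7
  have h8 : (p : 𝓞 F) ∈ P := by
    have h9 : (p : ℤ) ∈ P.under ℤ := by
      rw [h6]
      exact Ideal.mem_span_singleton_self _
    rw [Ideal.under_def, Ideal.mem_comap, map_natCast] at h9
    exact h9
  have hP0 : P ≠ ⊥ := by
    rintro rfl
    rw [Ideal.mem_bot] at h8
    exact hp.ne_zero (Nat.cast_eq_zero.1 h8)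
  have hvl : (p : 𝓞 KK) ∈ P.under (𝓞 KK) := by
    change algebraMap (𝓞 KK) (𝓞 F) p ∈ P
    rwa [map_natCast]
  have hv6 : (6 : 𝓞 KK) ∈ P.under (𝓞 KK) := by
    have h1 : (6 : 𝓞 KK) = (q : 𝓞 KK) * (p : 𝓞 KK) := by
      rw [← Nat.cast_mul, hpq]
      norm_num
    rw [h1]
    exact Ideal.mul_mem_left _ _ hvl
  have hv0 : P.under (𝓞 KK) ≠ ⊥ := by
    intro h
    rw [h, Ideal.mem_bot] at hvl
    exact hp.ne_zero (Nat.cast_eq_zero.1 hvl)
  refine Ideal.ramificationIdx_eq_one_iff.1 ?_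
  rw [← Ideal.ramificationIdx'_eq_ramificationIdx (P.under (𝓞 KK)) P hv0]
  by_contra hne
  rw [← ne_eq, Ideal.ramificationIdx'_ne_one_iff Ideal.map_comap_le] at hne
  exact hu (und KK ⟨P, hP.isPrime, hP0⟩) hv6 ⟨P, hP.isPrime, hP0⟩ rfl hne

variable {A B F : Type} [Field A] [NumberField A] [Field B] [NumberField B] [Field F] [NumberField F] [Algebra KK A] [Algebra KK B]
  [Algebra KK F] [Algebra A F] [Algebra B F] [IsScalarTower KK A F] [IsScalarTower KK B F]
  {l m n b : ℕ} [NeZero l] [NeZero m] {d : Fin n → Eis} {e : Fin b → Eis} {δ : Fin n → A} {ε : Fin b → B} {D : Eis}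

theorem disc_val2 (hD : Dat0 l m D d) (hE : Dat0 m l D e) (hK : Kum l n d δ) (hM : Kum m b e ε) (hC : Cmp A B F) :
    ∃ N : ℕ, ¬ 2 ∣ N ∧ ¬ 3 ∣ N ∧ (discr F).natAbs = 3 ^ (l ^ n * m ^ b) * N := by
  have h4 := NumberField.natAbs_discr_eq_absNorm_differentIdeal_mul_natAbs_discr_pow KK (𝓞 KK) F (𝓞 F)
  rw [hC.rank, hK.rank, hM.rank, TH.c15_discr_KK, mul_comm] at h4
  have hu := fun v h6 w hw => six_unram2 hD hE hK hM hC v h6 w hw
  exact ⟨_, D2_ndvd hu Nat.prime_two (q := 3) rfl, D2_ndvd hu Nat.prime_three (q := 2) rfl, h4⟩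

end CY
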