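import Pool.Agent.CY.C1
import Pool.Agent.CY.D1
import Pool.Agent.CY.D2
import Pool.Agent.CX.D3

/-!
# [CY-D3] periods and discriminants together

PROOF. As `CX.period_all` (CX/D3.lean). `‖4 D e_ψ^l d_χ^m‖^(1/3) = ‖4 D‖^(1/3) ‖e_ψ‖^(l/3) ‖d_χ‖^(m/3)`; `ρ = r ∏ r_p / r_F` with `r` from `disc_rat2`, `r_p` from `per_K2`, `r_F` from `per_F2`, `√|discr KK| = √3`. `padicValRat q r = 0` for `q = 2, 3`: square of `disc_rat2` with `disc_val2`: `N = r² ∏ (‖e_ψ‖² )^(l/3) (‖d_χ‖²)^(m/3)`, third power: `N^3 = r^6 ∏ (norm e_ψ)^l (norm d_χ)^m`, and the norms of `d_χ`, `e_ψ` are prime to `6`: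
`d3_norm`, `d3_norm_dx` (CX/D3.lean) give this for `l`; for both primes: a prime number `q ∈ {2, 3}` dividing `norm (d_i)` gives a prime `v ∋ 6` with `eE (d_i) ∈ v` (`hD.cop`), as in `d3_place`, `d3_norm`.
-/

set_option autoImplicit false

open NumberField IsDedekindDomain
open scoped Classical ComplexConjugate

namespace CY

open CX CM27 CMT NAB CF JD
open CU (la om eE)

variable {A B F : Type} [Field A] [NumberField A] [Field B] [NumberField B] [Field F] [NumberField F] [Algebra KK A] [Algebra KK B]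
  [Algebra KK F] [Algebra A F] [Algebra B F] [IsScalarTower KK A F] [IsScalarTower KK B F]
  {l m n b : ℕ} [NeZero l] [NeZero m] {d : Fin n → Eis} {e : Fin b → Eis} {δ : Fin n → A} {ε : Fin b → B} {D : Eis}

theorem D3_place {q : ℕ} (hq : q.Prime) : ∃ v : HeightOneSpectrum (𝓞 KK), (q : 𝓞 KK) ∈ v.asIdeal := by
  have h1 : Ideal.span {(q : 𝓞 KK)} ≠ ⊤ := by
    rw [Ne, Ideal.span_singleton_eq_top]
    intro h
    have h2 : IsUnit ((eE : Eis ≃+* 𝓞 KK) (q : Eis)) := by rw [map_natCast]; exact h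
    rw [MulEquiv.isUnit_map] at h2
    obtain ⟨x, hx⟩ := h2.exists_right_inv
    have h3 := congrArg QuadraticAlgebra.re hx
    rw [QuadraticAlgebra.re_mul, QuadraticAlgebra.re_natCast, QuadraticAlgebra.im_natCast, QuadraticAlgebra.re_one] at h3
    have h4 : (q : ℤ) * x.re = 1 := by linarith
    have h5 : (q : ℤ) ∣ 1 := ⟨x.re, h4.symm⟩
    have h6 := Int.natCast_dvd_natCast.1 (by simpa using h5 : (q : ℤ) ∣ ((1 : ℕ) : ℤ))
    exact hq.one_lt.ne' (Nat.dvd_one.1 h6)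
  obtain ⟨M, hM, hM2⟩ := Ideal.exists_le_maximal _ h1
  have h3 : (q : 𝓞 KK) ∈ M := hM2 (Ideal.mem_span_singleton_self _)
  refine ⟨⟨M, hM.isPrime, ?_⟩, h3⟩
  rintro rfl
  rw [Ideal.mem_bot] at h3
  exact hq.ne_zero (Nat.cast_eq_zero.1 h3)

theorem D3_norm {l m n : ℕ} {d : Fin n → Eis} {D : Eis} (hD : Dat0 l m D d) {q : ℕ} (hq : q.Prime) (hq6 : q ∣ 6) (i : Fin n) :
    ¬ (q : ℤ) ∣ (d i).norm := by
  intro h
  obtain ⟨v, hv⟩ := D3_place hq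
  have h6 : ∀ I : Ideal (𝓞 KK), (q : 𝓞 KK) ∈ I → (6 : 𝓞 KK) ∈ I := by
    intro I hI
    obtain ⟨c, hc⟩ := hq6
    have h1 : (6 : 𝓞 KK) = (c : 𝓞 KK) * (q : 𝓞 KK) := by
      rw [← Nat.cast_mul, mul_comm c q, ← hc]
      norm_num
    rw [h1]
    exact Ideal.mul_mem_left _ _ hI
  let σ : 𝓞 KK ≃+* 𝓞 KK := ((eE : Eis ≃+* 𝓞 KK).symm.trans (starRingAut (R := Eis))).trans eE
  have hσ : ∀ a : Eis, σ (eE a) = eE (star a) := by
    intro a
    change eE (starRingAut ((eE : Eis ≃+* 𝓞 KK).symm (eE a))) = _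
    rw [RingEquiv.symm_apply_apply]
    rfl
  have hv' : v.asIdeal.comap (σ : 𝓞 KK →+* 𝓞 KK) ≠ ⊥ := by
    intro h0
    have h1 : (q : 𝓞 KK) ∈ v.asIdeal.comap (σ : 𝓞 KK →+* 𝓞 KK) := by
      rw [Ideal.mem_comap, map_natCast]
      exact hv
    rw [h0, Ideal.mem_bot] at h1
    exact hq.ne_zero (Nat.cast_eq_zero.1 h1)
  let v' : HeightOneSpectrum (𝓞 KK) := ⟨v.asIdeal.comap (σ : 𝓞 KK →+* 𝓞 KK), Ideal.IsPrime.comap _, hv'⟩
  have h1 := hD.cop v (h6 _ hv) i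
  have h2 : eE (d i) ∉ v'.asIdeal := by
    refine hD.cop v' (h6 _ ?_) i
    change (q : 𝓞 KK) ∈ v.asIdeal.comap (σ : 𝓞 KK →+* 𝓞 KK)
    rw [Ideal.mem_comap, map_natCast]
    exact hv
  have h3 : eE (star (d i)) ∉ v.asIdeal := by
    intro hc
    apply h2
    change eE (d i) ∈ v.asIdeal.comap (σ : 𝓞 KK →+* 𝓞 KK)
    rw [Ideal.mem_comap]
    change σ (eE (d i)) ∈ v.asIdeal
    rw [hσ]
    exact hc
  obtain ⟨c, hc⟩ := h
  have h4 : d i * star (d i) = (q : Eis) * (c : Eis) := by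
    rw [← QuadraticAlgebra.algebraMap_norm_eq_mul_star, hc, map_mul]
    simp
  have h5 : eE (d i) * eE (star (d i)) ∈ v.asIdeal := by
    rw [← map_mul, h4, map_mul, map_natCast]
    exact Ideal.mul_mem_right _ _ hv
  rcases v.isPrime.mem_or_mem h5 with h7 | h7
  · exact h1 h7
  · exact h3 h7

theorem D3_norm_dx {l m n : ℕ} {d : Fin n → Eis} {D : Eis} (hD : Dat0 l m D d) {q : ℕ} (hq : q.Prime) (hq6 : q ∣ 6) (χ : Fin n → ZMod l) :
    ¬ (q : ℤ) ∣ (dx d χ).norm := by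
  have hl : Prime (q : ℤ) := Nat.prime_iff_prime_int.1 hq
  unfold dx
  rw [map_prod]
  intro h
  obtain ⟨i, -, hi⟩ := hl.exists_mem_finset_dvd h
  rw [map_pow] at hi
  exact D3_norm hD hq hq6 i (hl.dvd_of_dvd_pow hi)

theorem D3_norm_q {l m n : ℕ} {d : Fin n → Eis} {D : Eis} (hD : Dat0 l m D d) {q : ℕ} (hq : q.Prime) (hq6 : q ∣ 6) (χ : Fin n → ZMod l) (k : ℕ) :
    (((dx d χ).norm : ℚ) ^ k) ≠ 0 ∧ padicValRat q (((dx d χ).norm : ℚ) ^ k) = 0 := by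
  have : Fact q.Prime := ⟨hq⟩
  have h0 : ((dx d χ).norm : ℚ) ≠ 0 := by
    intro hc
    apply D3_norm_dx hD hq hq6 χ
    rw [Int.cast_eq_zero.1 hc]
    exact dvd_zero _
  refine ⟨pow_ne_zero _ h0, ?_⟩
  rw [padicValRat.pow, padicValRat.of_int, padicValInt.eq_zero_of_not_dvd (D3_norm_dx hD hq hq6 χ)]
  simp

/-- the valuation of `r` -/
theorem D3_val (hD : Dat0 l m D d) (hE : Dat0 m l D e) (hK : Kum l n d δ) (hM : Kum m b e ε) (hC : Cmp A B F) {r : ℚ} (hr : 0 < r)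
    (h : √|(discr F : ℝ)| = r * √3 ^ (l ^ n * m ^ b) *
      ∏ p : (Fin b → ZMod m) × (Fin n → ZMod l), (‖emb (dx e p.1)‖ ^ ((l : ℝ) / 3) * ‖emb (dx d p.2)‖ ^ ((m : ℝ) / 3)))
    {q : ℕ} (hq : q.Prime) (hq6 : q ∣ 6) : padicValRat q r = 0 := by
  have hl : Fact q.Prime := ⟨hq⟩
  obtain ⟨N, hN2, hN3, hdisc⟩ := disc_val2 hD hE hK hM hC
  have hN : ¬ q ∣ N := by
    have h1 : q = 2 ∨ q = 3 := by
      have h2 : q ≤ 6 := Nat.le_of_dvd (by norm_num) hq6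
      have h3 := hq.two_le
      have h4 := hq
      interval_cases q
      · exact Or.inl rfl
      · exact Or.inr rfl
      · exact absurd h4 (by norm_num)
      · exact absurd hq6 (by norm_num)
      · exact absurd h4 (by norm_num)
    rcases h1 with rfl | rfl
    · exact hN2
    · exact hN3
  have h1 : |(discr F : ℝ)| = 3 ^ (l ^ n * m ^ b) * (N : ℝ) := by
    have : |(discr F : ℝ)| = ((discr F).natAbs : ℝ) := by
      rw [Nat.cast_natAbs, Int.cast_abs]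
    rw [this, hdisc]
    push_cast
    ring
  set P : ℝ := ∏ p : (Fin b → ZMod m) × (Fin n → ZMod l), (‖emb (dx e p.1)‖ ^ ((l : ℝ) / 3) * ‖emb (dx d p.2)‖ ^ ((m : ℝ) / 3)) with hP
  have h2 : |(discr F : ℝ)| = (r * √3 ^ (l ^ n * m ^ b) * P) ^ 2 := by
    rw [← h, Real.sq_sqrt (abs_nonneg _)]
  have h3 : (√3 ^ (l ^ n * m ^ b)) ^ 2 = (3 : ℝ) ^ (l ^ n * m ^ b) := by
    rw [← pow_mul, mul_comm, pow_mul, Real.sq_sqrt (by norm_num)]
  have h4 : (N : ℝ) = (r : ℝ) ^ 2 * P ^ 2 := by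
    have h30 : (3 : ℝ) ^ (l ^ n * m ^ b) ≠ 0 := by positivity
    apply mul_left_cancel₀ h30
    rw [← h1, h2, mul_pow, mul_pow, h3]
    ring
  have h5 : P ^ 6 = ∏ p : (Fin b → ZMod m) × (Fin n → ZMod l), (((dx e p.1).norm : ℝ) ^ l * ((dx d p.2).norm : ℝ) ^ m) := by
    rw [hP, ← Finset.prod_pow]
    refine Finset.prod_congr rfl fun p _ => ?_
    rw [← d3_emb_sq, ← d3_emb_sq, mul_pow, ← Real.rpow_natCast (‖emb (dx e p.1)‖ ^ ((l : ℝ) / 3)),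
      ← Real.rpow_mul (norm_nonneg _), ← Real.rpow_natCast (‖emb (dx d p.2)‖ ^ ((m : ℝ) / 3)),
      ← Real.rpow_mul (norm_nonneg _), ← pow_mul, ← pow_mul, ← Real.rpow_natCast _ (2 * l), ← Real.rpow_natCast _ (2 * m)]
    congr 2 <;> push_cast <;> ring
  have h6 : ((N : ℚ)) ^ 3 = r ^ 6 * ∏ p : (Fin b → ZMod m) × (Fin n → ZMod l), (((dx e p.1).norm : ℚ) ^ l * ((dx d p.2).norm : ℚ) ^ m) := by
    have h7 : (N : ℝ) ^ 3 = (r : ℝ) ^ 6 * ∏ p : (Fin b → ZMod m) × (Fin n → ZMod l), (((dx e p.1).norm : ℝ) ^ l * ((dx d p.2).norm : ℝ) ^ m) := by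
      rw [← h5, h4]
      ring
    have h8 : (((N : ℚ) ^ 3 : ℚ) : ℝ) = ((r ^ 6 * ∏ p : (Fin b → ZMod m) × (Fin n → ZMod l),
        (((dx e p.1).norm : ℚ) ^ l * ((dx d p.2).norm : ℚ) ^ m) : ℚ) : ℝ) := by
      push_cast
      exact h7
    exact_mod_cast h8
  have hne : ∀ p : (Fin b → ZMod m) × (Fin n → ZMod l), (((dx e p.1).norm : ℚ) ^ l * ((dx d p.2).norm : ℚ) ^ m) ≠ 0 := fun p =>
    mul_ne_zero (D3_norm_q hE hq hq6 p.1 l).1 (D3_norm_q hD hq hq6 p.2 m).1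
  have hNz : padicValRat q (N : ℚ) = 0 := by
    rw [padicValRat.of_nat, padicValNat.eq_zero_of_not_dvd hN]
    rfl
  have hpz : ∀ s : Finset ((Fin b → ZMod m) × (Fin n → ZMod l)),
      padicValRat q (∏ p ∈ s, (((dx e p.1).norm : ℚ) ^ l * ((dx d p.2).norm : ℚ) ^ m)) = 0 := by
    intro s
    induction s using Finset.induction_on with
    | empty => rw [Finset.prod_empty, padicValRat.one]
    | insert a s ha ih =>
      rw [Finset.prod_insert ha, padicValRat.mul (hne a) (Finset.prod_ne_zero_iff.2 fun p _ => hne p), ih,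
        padicValRat.mul (D3_norm_q hE hq hq6 a.1 l).1 (D3_norm_q hD hq hq6 a.2 m).1, (D3_norm_q hE hq hq6 a.1 l).2,
        (D3_norm_q hD hq hq6 a.2 m).2]
      rfl
  have h9 := congrArg (padicValRat q) h6
  rw [padicValRat.pow, hNz, padicValRat.mul (pow_ne_zero _ hr.ne') (Finset.prod_ne_zero_iff.2 fun p _ => hne p), padicValRat.pow, hpz] at h9
  have h10 : (6 : ℤ) * padicValRat q r = 0 := by
    have := h9.symm
    push_cast at this
    linarith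
  rcases mul_eq_zero.1 h10 with h11 | h11
  · exact absurd h11 (by norm_num)
  · exact h11

theorem period_all2 (hD : Dat0 l m D d) (hE : Dat0 m l D e) (hK : Kum l n d δ) (hM : Kum m b e ε) (hC : Cmp A B F) :
    ∃ ρ : ℚ, 0 < ρ ∧ padicValRat 2 ρ = 0 ∧ padicValRat 3 ρ = 0 ∧
    √|(discr F : ℝ)| * ∏ p : (Fin b → ZMod m) × (Fin n → ZMod l), SBSD.period (ED (jK (D * dx e p.1 ^ l * dx d p.2 ^ m))) =
      ρ * √|(discr KK : ℝ)| ^ (l ^ n * m ^ b) * SBSD.period (ED (jF F D)) := by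
  obtain ⟨r, hr, hdr⟩ := disc_rat2 hD.lm.2 hD.lm.1 hK hM hC
  obtain ⟨rF, hrF, hpF⟩ := per_F2 hD hE hK hM hC
  choose s hs hps using fun p : (Fin b → ZMod m) × (Fin n → ZMod l) => per_K2 hD hE hK hM p.1 p.2
  set A' : ℝ := √3 * Om ^ 2 / ‖emb (4 * D)‖ ^ ((1 : ℝ) / 3) * kap6 D with hA
  have hne : ∀ χ : Fin n → ZMod l, ‖emb (dx d χ)‖ ≠ 0 := by
    intro χ
    rw [norm_ne_zero_iff]
    exact (map_ne_zero_iff _ emb_injective).2 (c3_dx_ne hK.ne χ)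
  have hne' : ∀ ψ : Fin b → ZMod m, ‖emb (dx e ψ)‖ ≠ 0 := by
    intro ψ
    rw [norm_ne_zero_iff]
    exact (map_ne_zero_iff _ emb_injective).2 (c3_dx_ne hM.ne ψ)
  have h1 : ∀ p : (Fin b → ZMod m) × (Fin n → ZMod l), SBSD.period (ED (jK (D * dx e p.1 ^ l * dx d p.2 ^ m))) *
      (‖emb (dx e p.1)‖ ^ ((l : ℝ) / 3) * ‖emb (dx d p.2)‖ ^ ((m : ℝ) / 3)) = A' * s p := by
    intro p
    rw [hps p, hA]
    have h2 : ‖emb (4 * (D * dx e p.1 ^ l * dx d p.2 ^ m))‖ ^ ((1 : ℝ) / 3) =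
        ‖emb (4 * D)‖ ^ ((1 : ℝ) / 3) * (‖emb (dx e p.1)‖ ^ ((l : ℝ) / 3) * ‖emb (dx d p.2)‖ ^ ((m : ℝ) / 3)) := by
      rw [← mul_assoc, ← mul_assoc, map_mul, map_mul, map_pow, map_pow, norm_mul, norm_mul, norm_pow, norm_pow,
        Real.mul_rpow (by positivity) (by positivity), Real.mul_rpow (by positivity) (by positivity),
        ← Real.rpow_natCast, ← Real.rpow_natCast, ← Real.rpow_mul (norm_nonneg _), ← Real.rpow_mul (norm_nonneg _), mul_assoc]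
      congr 3 <;> ring
    rw [h2]
    have h3 : ‖emb (dx d p.2)‖ ^ ((m : ℝ) / 3) ≠ 0 :=
      (Real.rpow_pos_of_pos (lt_of_le_of_ne (norm_nonneg _) (hne p.2).symm) _).ne'
    have h4 : ‖emb (dx e p.1)‖ ^ ((l : ℝ) / 3) ≠ 0 :=
      (Real.rpow_pos_of_pos (lt_of_le_of_ne (norm_nonneg _) (hne' p.1).symm) _).ne'
    field_simp
  have hcard : (Finset.univ : Finset ((Fin b → ZMod m) × (Fin n → ZMod l))).card = l ^ n * m ^ b := by
    rw [Finset.card_univ, Fintype.card_prod, Fintype.card_fun, Fintype.card_fun, ZMod.card, ZMod.card, Fintype.card_fin, Fintype.card_fin,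
      mul_comm]
  have h4 : (∏ p : (Fin b → ZMod m) × (Fin n → ZMod l), SBSD.period (ED (jK (D * dx e p.1 ^ l * dx d p.2 ^ m)))) *
      ∏ p : (Fin b → ZMod m) × (Fin n → ZMod l), (‖emb (dx e p.1)‖ ^ ((l : ℝ) / 3) * ‖emb (dx d p.2)‖ ^ ((m : ℝ) / 3)) =
      A' ^ (l ^ n * m ^ b) * ∏ p : (Fin b → ZMod m) × (Fin n → ZMod l), (s p : ℝ) := by
    rw [← Finset.prod_mul_distrib, Finset.prod_congr rfl fun p _ => h1 p, Finset.prod_mul_distrib, Finset.prod_const, hcard]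
  have h5 : √|(discr KK : ℝ)| = √3 := by
    have : |(discr KK : ℝ)| = ((discr KK).natAbs : ℝ) := by
      rw [Nat.cast_natAbs, Int.cast_abs]
    rw [this, TH.c15_discr_KK]
    norm_num
  have hRs : Rp (∏ p : (Fin b → ZMod m) × (Fin n → ZMod l), s p) := c3a_prod _ _ fun p _ => hs p
  have hq := c3a_mul hRs (c3a_inv hrF)
  have : Fact (Nat.Prime 2) := ⟨Nat.prime_two⟩
  have : Fact (Nat.Prime 3) := ⟨Nat.prime_three⟩
  refine ⟨r * ((∏ p : (Fin b → ZMod m) × (Fin n → ZMod l), s p) * rF⁻¹), mul_pos hr hq.1, ?_, ?_, ?_⟩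
  · rw [padicValRat.mul hr.ne' hq.1.ne', hq.2.1, D3_val hD hE hK hM hC hr hdr Nat.prime_two ⟨3, by norm_num⟩, add_zero]
  · rw [padicValRat.mul hr.ne' hq.1.ne', hq.2.2, D3_val hD hE hK hM hC hr hdr Nat.prime_three ⟨2, by norm_num⟩, add_zero]
  · have hrF0 : (rF : ℝ) ≠ 0 := by exact_mod_cast hrF.1.ne'
    rw [hdr, h5, hpF]
    push_cast
    calc (r : ℝ) * √3 ^ (l ^ n * m ^ b) * (∏ p : (Fin b → ZMod m) × (Fin n → ZMod l), (‖emb (dx e p.1)‖ ^ ((l : ℝ) / 3) * ‖emb (dx d p.2)‖ ^ ((m : ℝ) / 3))) *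
          ∏ p : (Fin b → ZMod m) × (Fin n → ZMod l), SBSD.period (ED (jK (D * dx e p.1 ^ l * dx d p.2 ^ m)))
        = (r : ℝ) * √3 ^ (l ^ n * m ^ b) * ((∏ p : (Fin b → ZMod m) × (Fin n → ZMod l), SBSD.period (ED (jK (D * dx e p.1 ^ l * dx d p.2 ^ m)))) *
          ∏ p : (Fin b → ZMod m) × (Fin n → ZMod l), (‖emb (dx e p.1)‖ ^ ((l : ℝ) / 3) * ‖emb (dx d p.2)‖ ^ ((m : ℝ) / 3))) := by ring
      _ = (r : ℝ) * √3 ^ (l ^ n * m ^ b) * (A' ^ (l ^ n * m ^ b) * ∏ p : (Fin b → ZMod m) × (Fin n → ZMod l), (s p : ℝ)) := by rw [h4]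
      _ = (r : ℝ) * ((∏ p : (Fin b → ZMod m) × (Fin n → ZMod l), (s p : ℝ)) * (rF : ℝ)⁻¹) * √3 ^ (l ^ n * m ^ b) * (A' ^ (l ^ n * m ^ b) * rF) := by
          field_simp

end CY
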