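import Pool.Agent.CX.Defs

/-!
# [CY] the conjecture modulo `l` over the abelian extensions of `ℚ(ω)` of exponent dividing `6`: definitions

`l m = 6`, `K = ℚ(ω)`. `F = A B`, `A / K` abelian of exponent `l`, `B / K` abelian of exponent `m`: `A = K(δ₁, …, δₙ)`, `δᵢ ^ l = dᵢ`, `B = K(ε₁, …, ε_b)`, `εⱼ ^ m = eⱼ`. The twists of
`E = ED (jK D) : y² = x³ + D` by the characters of `F / K` are the curves `ED (jK (D * dx e ψ ^ l * dx d χ ^ m))`, `ψ : Fin b → ZMod m`, `χ : Fin n → ZMod l`.
-/

set_option autoImplicit false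

open NumberField IsDedekindDomain
open scoped Classical ComplexConjugate

namespace CY

open CX CM27 CMT NAB CF JD
open CU (la om eE)

/-- `F = A B`, `[F : K] = [A : K] [B : K]`. -/
structure Cmp (A B F : Type) [Field A] [NumberField A] [Field B] [NumberField B] [Field F] [NumberField F] [Algebra KK A] [Algebra KK B]
    [Algebra KK F] [Algebra A F] [Algebra B F] : Prop where
  rank : Module.finrank KK F = Module.finrank KK A * Module.finrank KK B
  top : IntermediateField.adjoin KK (Set.range (algebraMap A F) ∪ Set.range (algebraMap B F)) = ⊤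

/-- The exponent of `P` in `v 𝓞_F` is positive and divisible by `l`. -/
def Ram (l : ℕ) {F : Type} [Field F] [NumberField F] [Algebra KK F] (v : HeightOneSpectrum (𝓞 KK)) (P : HeightOneSpectrum (𝓞 F)) : Prop :=
  ∃ a : ℕ, 0 < a ∧ l ∣ a ∧ v.asIdeal.map (algebraMap (𝓞 KK) (𝓞 F)) ≤ P.asIdeal ^ a ∧
    ¬ v.asIdeal.map (algebraMap (𝓞 KK) (𝓞 F)) ≤ P.asIdeal ^ (a + 1)

/-- `F / K` is a finite abelian extension of exponent dividing `6` in which the two primes of `K` over `6` split completely; `E` has no point of order `l`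
over `F`, and no point of order `l` over `F_P` for each prime `P` of `F` with ramification index over `K` divisible by `l`. -/
structure Nice6 (l : ℕ) (E : WeierstrassCurve KK) (F : Type) [Field F] [NumberField F] [Algebra KK F] : Prop where
  galois : IsGalois KK F
  comm : ∀ σ τ : F ≃ₐ[KK] F, σ * τ = τ * σ
  exponent : ∀ σ : F ≃ₐ[KK] F, σ ^ 6 = 1
  split : ∀ v : HeightOneSpectrum (𝓞 KK), (6 : 𝓞 KK) ∈ v.asIdeal →
    (v.asIdeal.primesOver (𝓞 F)).ncard = Module.finrank KK F
  noPt : Np l (E.baseChange F)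
  ramified : ∀ (v : HeightOneSpectrum (𝓞 KK)) (P : HeightOneSpectrum (𝓞 F)), Ram l v P → NoPt l (E.baseChange F) P

end CY
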