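import Pool.Agent.CX.X2

/-!
# [CY-E0] pairs of primes which are congruent modulo M

PROOF. As `CX.pairs` (CX/X2.lean), with `ZMod M` instead of `ZMod 216`.
-/

set_option autoImplicit false

open NumberField IsDedekindDomain
open scoped Classical ComplexConjugate

namespace CY

open CX CM27 CMT NAB CF JD
open CU (la om eE)

theorem pairs_mod (M : ℕ) (hM : 0 < M) (P : Eis → Prop) (hinf : ∀ B : ℤ, ∃ p : Eis, Prime p ∧ B < p.norm ∧ P p) (n : ℕ) (B : ℤ) :
    ∃ p q : Fin n → Eis, (∀ i, Prime (p i) ∧ Prime (q i) ∧ P (p i) ∧ P (q i) ∧ B < (p i).norm ∧ B < (q i).norm ∧ (M : Eis) ∣ p i - q i) ∧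
      (∀ i j, ¬ Associated (p i) (q j)) ∧ (∀ i j, i ≠ j → ¬ Associated (p i) (p j) ∧ ¬ Associated (q i) (q j)) := by
  have : NeZero M := ⟨hM.ne'⟩
  choose f hf1 hf2 hf3 using hinf
  let s : ℕ → Eis := fun k => Nat.rec (f B) (fun _ x => f (max B x.norm)) k
  have hs0 : ∀ k, Prime (s k) ∧ B < (s k).norm ∧ P (s k) := by
    intro k
    cases k with
    | zero => exact ⟨hf1 B, hf2 B, hf3 B⟩
    | succ k => exact ⟨hf1 _, (le_max_left _ _).trans_lt (hf2 _), hf3 _⟩
  have hs1 : StrictMono fun k => (s k).norm := by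
    refine strictMono_nat_of_lt_succ fun k => ?_
    exact (le_max_right B _).trans_lt (hf2 (max B (s k).norm))
  let g : ℕ → ZMod M × ZMod M := fun k => (((s k).re : ZMod M), ((s k).im : ZMod M))
  obtain ⟨c, hc⟩ := Finite.exists_infinite_fiber g
  have hcinf : (g ⁻¹' {c}).Infinite := Set.infinite_coe_iff.1 hc
  let e : ℕ ↪ ↥(g ⁻¹' {c}) := hcinf.natEmbedding
  have hinj : ∀ i j : ℕ, Associated (s (e i)) (s (e j)) → i = j := by
    intro i j h
    have h1 := hs1.injective (X2_norm_assoc h)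
    exact e.injective (Subtype.ext h1)
  have hdvd : ∀ i j : ℕ, (M : Eis) ∣ s (e i) - s (e j) := by
    intro i j
    have h1 : g (e i) = g (e j) := (e i).2.trans (e j).2.symm
    have h2 : (((s (e i)).re : ℤ) : ZMod M) = ((s (e j)).re : ZMod M) := congrArg Prod.fst h1
    have h3 : (((s (e i)).im : ℤ) : ZMod M) = ((s (e j)).im : ZMod M) := congrArg Prod.snd h1
    obtain ⟨x, hx⟩ := (ZMod.intCast_eq_intCast_iff_dvd_sub _ _ M).1 h2.symm
    obtain ⟨y, hy⟩ := (ZMod.intCast_eq_intCast_iff_dvd_sub _ _ M).1 h3.symm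
    refine ⟨⟨x, y⟩, ?_⟩
    have e1 : (M : Eis) = ⟨(M : ℤ), 0⟩ := rfl
    rw [e1]
    ext
    · simp only [QuadraticAlgebra.re_sub, QuadraticAlgebra.re_mul]
      linarith
    · simp only [QuadraticAlgebra.im_sub, QuadraticAlgebra.im_mul]
      linarith
  refine ⟨fun i => s (e (2 * i)), fun i => s (e (2 * i + 1)), fun i => ⟨(hs0 _).1, (hs0 _).1, (hs0 _).2.2, (hs0 _).2.2, (hs0 _).2.1, (hs0 _).2.1,
    hdvd _ _⟩, fun i j h => ?_, fun i j hij => ⟨fun h => hij ?_, fun h => hij ?_⟩⟩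
  · have := hinj _ _ h
    omega
  · have := hinj _ _ h
    exact Fin.ext (by omega)
  · have := hinj _ _ h
    exact Fin.ext (by omega)

end CY
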