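import Pool.Agent.CY.Defs

/-!
# [CY-E1] existence of the compositum

PROOF. `exists_cmp`: `Ω = AlgebraicClosure KK`, `ιA : A →ₐ[KK] Ω`, `ιB : B →ₐ[KK] Ω` (`IsAlgClosed.lift`), `F = ιA.fieldRange ⊔ ιB.fieldRange` (an intermediate field of `Ω / KK`, finite-dimensional: `IntermediateField.finiteDimensional_sup`; `NumberField`: a finite extension of a number field, characteristic 0). `Algebra A F` by `ιA` with codomain restricted (`RingHom.toAlgebra`), the same for `B`; scalar towers: `IsScalarTower.of_algebraMap_eq`.
`[F : KK]`: at most `[A : KK] [B : KK]` (`IntermediateField.finrank_sup_le`), and divisible by both (tower law), which are coprime: equality. `top`: `F` is generated by the images (`IntermediateField.adjoin` inside `F`: map by `F.val`, `IntermediateField.adjoin_map`/`lift`, injectivity).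
`discr_tower`: `NumberField.natAbs_discr_eq_absNorm_differentIdeal_mul_natAbs_discr_pow` (used in CX/X4a.lean `disc_ge`) with `A`: `|discr F| = N * |discr A| ^ [F : A]`, `N ≥ 1`, `[F : A] ≥ 1`, `|discr A| ≥ 1`.
-/

set_option autoImplicit false

open NumberField IsDedekindDomain
open scoped Classical ComplexConjugate

namespace CY

open CX CM27 CMT NAB CF JD
open CU (la om eE)

theorem exists_cmp {A B : Type} [Field A] [NumberField A] [Field B] [NumberField B] [Algebra KK A] [Algebra KK B]
    (hco : Nat.Coprime (Module.finrank KK A) (Module.finrank KK B)) :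
    ∃ (F : Type) (_ : Field F) (_ : NumberField F) (_ : Algebra KK F) (_ : Algebra A F) (_ : Algebra B F),
      IsScalarTower KK A F ∧ IsScalarTower KK B F ∧ Cmp A B F := by
  have hfA : FiniteDimensional KK A := inferInstance
  have hfB : FiniteDimensional KK B := inferInstance
  let fA : A →ₐ[KK] AlgebraicClosure KK := IsAlgClosed.lift
  let fB : B →ₐ[KK] AlgebraicClosure KK := IsAlgClosed.lift
  let eA : A ≃ₐ[KK] fA.fieldRange := AlgEquiv.ofInjectiveField fA
  let eB : B ≃ₐ[KK] fB.fieldRange := AlgEquiv.ofInjectiveField fB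
  have hfA' : FiniteDimensional KK fA.fieldRange := eA.toLinearEquiv.finiteDimensional
  have hfB' : FiniteDimensional KK fB.fieldRange := eB.toLinearEquiv.finiteDimensional
  let F : IntermediateField KK (AlgebraicClosure KK) := fA.fieldRange ⊔ fB.fieldRange
  have hfF : FiniteDimensional KK F := IntermediateField.finiteDimensional_sup _ _
  have hNF : NumberField F := NumberField.of_module_finite KK F
  have hA : ∀ x : A, fA x ∈ F := fun x => (le_sup_left : fA.fieldRange ≤ F) ⟨x, rfl⟩
  have hB : ∀ x : B, fB x ∈ F := fun x => (le_sup_right : fB.fieldRange ≤ F) ⟨x, rfl⟩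
  let gA : A →ₐ[KK] F := AlgHom.codRestrict fA F.toSubalgebra hA
  let gB : B →ₐ[KK] F := AlgHom.codRestrict fB F.toSubalgebra hB
  let aA : Algebra A F := gA.toRingHom.toAlgebra
  let aB : Algebra B F := gB.toRingHom.toAlgebra
  have tA : IsScalarTower KK A F := IsScalarTower.of_algebraMap_eq (fun x => (gA.commutes x).symm)
  have tB : IsScalarTower KK B F := IsScalarTower.of_algebraMap_eq (fun x => (gB.commutes x).symm)
  refine ⟨F, inferInstance, hNF, inferInstance, aA, aB, tA, tB, ?_, ?_⟩
  · have h1 : Module.finrank KK F ≤ Module.finrank KK fA.fieldRange * Module.finrank KK fB.fieldRange :=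
      IntermediateField.finrank_sup_le _ _
    rw [← eA.toLinearEquiv.finrank_eq, ← eB.toLinearEquiv.finrank_eq] at h1
    have h2 : Module.finrank KK A ∣ Module.finrank KK F :=
      ⟨_, (Module.finrank_mul_finrank KK A F).symm⟩
    have h3 : Module.finrank KK B ∣ Module.finrank KK F :=
      ⟨_, (Module.finrank_mul_finrank KK B F).symm⟩
    exact le_antisymm h1 (Nat.le_of_dvd Module.finrank_pos (hco.mul_dvd_of_dvd_of_dvd h2 h3))
  · apply IntermediateField.map_injective F.val
    rw [IntermediateField.adjoin_map, Set.image_union, ← Set.range_comp, ← Set.range_comp]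
    have e1 : (⇑F.val ∘ ⇑(algebraMap A F)) = fA := rfl
    have e2 : (⇑F.val ∘ ⇑(algebraMap B F)) = fB := rfl
    rw [e1, e2, IntermediateField.adjoin_union]
    have e3 : IntermediateField.adjoin KK (Set.range fA) = fA.fieldRange := by
      rw [← AlgHom.coe_fieldRange]
      exact IntermediateField.adjoin_self KK _
    have e4 : IntermediateField.adjoin KK (Set.range fB) = fB.fieldRange := by
      rw [← AlgHom.coe_fieldRange]
      exact IntermediateField.adjoin_self KK _
    rw [e3, e4, ← AlgHom.fieldRange_eq_map, IntermediateField.fieldRange_val]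

theorem discr_tower {A F : Type} [Field A] [NumberField A] [Field F] [NumberField F] [Algebra A F] : (discr A).natAbs ≤ (discr F).natAbs := by
  have h := natAbs_discr_eq_absNorm_differentIdeal_mul_natAbs_discr_pow A (𝓞 A) F (𝓞 F)
  refine Nat.le_of_dvd (Int.natAbs_pos.2 (discr_ne_zero F)) ?_
  rw [h]
  exact (dvd_pow_self _ Module.finrank_pos.ne').mul_left _

end CY
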