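import Pool.Agent.CY.G2
import Pool.Agent.CX.L7

/-!
# [CY-K2] splitting and ramification in the subfields

PROOF. `split_sub`: `efg` for `F` and `A`: `v` splits completely in `F`: `g_F = [F : K]`, so `e_F = f_F = 1`; `tower`: `e_A ∣ e_F`, `f_A ∣ f_F` (as in G2: `nv v ^ f_F = nv w = nv u ^ f'`), so `e_A = f_A = 1`, `g_A = [A : K]`. `ram_up`: `v.map ≤ u²`, `place_count` for `A`: `e₁ = l` (`6 ∉ v`) for all places of `A` over `v`; for `w` over `v` in `F`: `efg` for `F` gives `e_F`, `tower` gives `l ∣ e_F`;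
`Ram l v w` with `a = e_F`: the exponent of `w` in `v 𝓞_F` is `e_F` (from `od w x = e_F od v x`: for an element `π ∈ v`, `od v π = -1`, `π ∉ w ^ (e_F + 1)`, and all elements of `v` have `od w ≤ - e_F`: `x ∈ w ^ k ↔ w.intValuation x ≤ exp (-k)`: `HeightOneSpectrum.intValuation_le_pow_iff_mem`; see how CX/L7c.lean proves `v.map ≤ w² ↔ 2 ≤ e`).
`ram_iff`: the same computation: `a = e_F`.
-/

set_option autoImplicit false

open NumberField IsDedekindDomain
open scoped Classical ComplexConjugate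

namespace CY

open CX CM27 CMT NAB CF JD
open CU (la om eE)

/-- a uniformizer in the ring of integers -/
theorem K2_unif {k : Type} [Field k] [NumberField k] (v : HeightOneSpectrum (𝓞 k)) :
    ∃ π : 𝓞 k, π ≠ 0 ∧ π ∈ v.asIdeal ∧ TWR.od v (π : k) = -1 := by
  obtain ⟨π, hπ⟩ := v.intValuation_exists_uniformizer
  have h0 : π ≠ 0 := by
    rintro rfl
    rw [map_zero] at hπ
    exact WithZero.exp_ne_zero hπ.symm
  refine ⟨π, h0, ?_, ?_⟩
  · have h1 := (v.intValuation_le_pow_iff_mem π 1).1 (by rw [hπ]; simp)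
    rwa [pow_one] at h1
  · have h1 : v.valuation k (π : k) = v.intValuation π := v.valuation_of_algebraMap π
    unfold TWR.od
    rw [h1, hπ, WithZero.log_exp]

theorem K2_mem {k : Type} [Field k] [NumberField k] (w : HeightOneSpectrum (𝓞 k)) (x : 𝓞 k) (hx : x ≠ 0) (j : ℕ) :
    x ∈ w.asIdeal ^ j ↔ TWR.od w (x : k) ≤ -(j : ℤ) := by
  rw [← w.intValuation_le_pow_iff_mem x j]
  have h1 : w.valuation k (x : k) = w.intValuation x := w.valuation_of_algebraMap x
  have h2 : w.intValuation x ≠ 0 := w.intValuation_ne_zero x hx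
  unfold TWR.od
  rw [h1]
  constructor
  · intro h
    exact (WithZero.log_le_iff_le_exp h2).2 h
  · intro h
    exact (WithZero.log_le_iff_le_exp h2).1 h

theorem K2_alg {F : Type} [Field F] [NumberField F] [Algebra KK F] (x : 𝓞 KK) :
    ((algebraMap (𝓞 KK) (𝓞 F) x : 𝓞 F) : F) = algebraMap KK F (x : KK) :=
  (IsScalarTower.algebraMap_apply (𝓞 KK) (𝓞 F) F x).symm.trans (IsScalarTower.algebraMap_apply (𝓞 KK) KK F x)

/-- the exponent of `w` in `v 𝓞_F` -/
theorem K2_key {F : Type} [Field F] [NumberField F] [Algebra KK F] (v : HeightOneSpectrum (𝓞 KK)) (w : HeightOneSpectrum (𝓞 F))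
    {a : ℕ} (ha : ∀ x : KK, x ≠ 0 → TWR.od w (algebraMap KK F x) = a * TWR.od v x) (j : ℕ) :
    v.asIdeal.map (algebraMap (𝓞 KK) (𝓞 F)) ≤ w.asIdeal ^ j ↔ j ≤ a := by
  have hinj : Function.Injective (algebraMap (𝓞 KK) (𝓞 F)) := FaithfulSMul.algebraMap_injective _ _
  constructor
  · intro h
    obtain ⟨π, h0, h1, h2⟩ := K2_unif v
    have h3 : algebraMap (𝓞 KK) (𝓞 F) π ∈ w.asIdeal ^ j := h (Ideal.mem_map_of_mem _ h1)
    have h4 : algebraMap (𝓞 KK) (𝓞 F) π ≠ 0 := by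
      rw [Ne, map_eq_zero_iff _ hinj]
      exact h0
    rw [K2_mem w _ h4, K2_alg, ha _ (by exact_mod_cast h0), h2] at h3
    have h5 : (j : ℤ) ≤ a := by linarith
    exact_mod_cast h5
  · intro h
    rw [Ideal.map_le_iff_le_comap]
    intro x hx
    rw [Ideal.mem_comap]
    by_cases h0 : x = 0
    · rw [h0, map_zero]
      exact Ideal.zero_mem _
    have h4 : algebraMap (𝓞 KK) (𝓞 F) x ≠ 0 := by
      rw [Ne, map_eq_zero_iff _ hinj]
      exact h0
    rw [K2_mem w _ h4, K2_alg, ha _ (by exact_mod_cast h0)]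
    have h1 : TWR.od v (x : KK) ≤ -((1 : ℕ) : ℤ) := (K2_mem v x h0 1).1 (by rwa [pow_one])
    have h2 : (j : ℤ) ≤ a := by exact_mod_cast h
    have h3 : (0 : ℤ) ≤ a := Int.natCast_nonneg a
    push_cast at h1
    nlinarith

theorem K2_pos {F : Type} [Field F] [NumberField F] [Algebra KK F] (v : HeightOneSpectrum (𝓞 KK)) (w : HeightOneSpectrum (𝓞 F))
    (hw : und KK w = v) {a : ℕ} (ha : ∀ x : KK, x ≠ 0 → TWR.od w (algebraMap KK F x) = a * TWR.od v x) : 0 < a := by
  have h1 : v.asIdeal.map (algebraMap (𝓞 KK) (𝓞 F)) ≤ w.asIdeal ^ 1 := by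
    rw [pow_one, Ideal.map_le_iff_le_comap, ← hw]
    exact le_rfl
  exact (K2_key v w ha 1).1 h1

theorem K2_nv (v : HeightOneSpectrum (𝓞 KK)) : 1 < TH.nv v := by
  have h := NumberField.HeightOneSpectrum.one_lt_absNorm v
  exact h

theorem split_sub {A F : Type} [Field A] [NumberField A] [Field F] [NumberField F] [Algebra KK A] [Algebra KK F] [Algebra A F] [IsScalarTower KK A F]
    (hA : IsGalois KK A) (hF : IsGalois KK F) (v : HeightOneSpectrum (𝓞 KK)) (h : (v.asIdeal.primesOver (𝓞 F)).ncard = Module.finrank KK F) :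
    (v.asIdeal.primesOver (𝓞 A)).ncard = Module.finrank KK A := by
  obtain ⟨e, f, g, he, hf, hg, hefg, hg1, hg2, hw⟩ := efg (F := F) v
  obtain ⟨e', f', g', he', hf', hg', hefg', hg1', hg2', hw'⟩ := efg (F := A) v
  obtain ⟨w, hwv⟩ := exists_above (F := F) v
  obtain ⟨t1, ⟨f₁, hf₁, t2⟩, a₁, ha₁, t3⟩ := tower (A := A) w
  have hu : und KK (und A w) = v := t1.trans hwv
  have h1 : e * f = 1 := by
    have h2 : g = g * (e * f) := by rw [hefg, ← h, hg2]
    have h3 : g * (e * f) = g * 1 := by rw [mul_one]; exact h2.symm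
    exact Nat.eq_of_mul_eq_mul_left hg h3
  have hee : e = 1 := Nat.eq_one_of_mul_eq_one_right h1
  have hff : f = 1 := Nat.eq_one_of_mul_eq_one_left h1
  have hf1 : f' = 1 := by
    have h2 := (hw w hwv).1
    rw [t2, (hw' _ hu).1, ← pow_mul, hff] at h2
    exact Nat.eq_one_of_mul_eq_one_right (Nat.pow_right_injective (K2_nv v) h2)
  have he1 : e' = 1 := by
    obtain ⟨π, h0, h2, h3⟩ := K2_unif v
    have h0' : (π : KK) ≠ 0 := by exact_mod_cast h0
    have h4 := (hw w hwv).2.1 _ h0'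
    have h5 : algebraMap KK A (π : KK) ≠ 0 := by
      rw [Ne, map_eq_zero]
      exact h0'
    rw [IsScalarTower.algebraMap_apply KK A F, t3 _ h5, (hw' _ hu).2.1 _ h0', h3, hee] at h4
    have h6 : (a₁ : ℤ) * e' = 1 := by
      rw [Nat.cast_one] at h4
      linarith
    have h7 : a₁ * e' = 1 := by exact_mod_cast h6
    exact Nat.eq_one_of_mul_eq_one_left h7
  rw [hg2', ← hefg', hf1, he1, mul_one, mul_one]

theorem ram_iff {F : Type} [Field F] [NumberField F] [Algebra KK F] {l : ℕ} (v : HeightOneSpectrum (𝓞 KK)) (w : HeightOneSpectrum (𝓞 F))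
    (hw : und KK w = v) {a : ℕ} (ha : ∀ x : KK, x ≠ 0 → TWR.od w (algebraMap KK F x) = a * TWR.od v x) : Ram l v w ↔ l ∣ a := by
  constructor
  · rintro ⟨b, h0, h1, h2, h3⟩
    rw [K2_key v w ha] at h2 h3
    have h4 : b = a := by omega
    rwa [← h4]
  · intro h
    refine ⟨a, K2_pos v w hw ha, h, (K2_key v w ha a).2 le_rfl, fun h2 => ?_⟩
    have := (K2_key v w ha (a + 1)).1 h2
    omega

theorem K2_und {F : Type} [Field F] [NumberField F] [Algebra KK F] (v : HeightOneSpectrum (𝓞 KK)) (w : HeightOneSpectrum (𝓞 F))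
    {j : ℕ} (hj : 0 < j) (h : v.asIdeal.map (algebraMap (𝓞 KK) (𝓞 F)) ≤ w.asIdeal ^ j) : und KK w = v := by
  have h1 : v.asIdeal.map (algebraMap (𝓞 KK) (𝓞 F)) ≤ w.asIdeal := h.trans (Ideal.pow_le_self hj.ne')
  rw [Ideal.map_le_iff_le_comap] at h1
  apply HeightOneSpectrum.ext
  have h2 : v.asIdeal ≤ (und KK w).asIdeal := h1
  exact (v.isMaximal.eq_of_le (und KK w).isPrime.ne_top h2).symm

theorem ram_und {F : Type} [Field F] [NumberField F] [Algebra KK F] {l : ℕ} (v : HeightOneSpectrum (𝓞 KK)) (w : HeightOneSpectrum (𝓞 F))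
    (h : Ram l v w) : und KK w = v := by
  obtain ⟨a, h0, -, h2, -⟩ := h
  exact K2_und v w h0 h2

theorem ram_up {A F : Type} [Field A] [NumberField A] [Field F] [NumberField F] [Algebra KK A] [Algebra KK F] [Algebra A F] [IsScalarTower KK A F]
    {l n : ℕ} [NeZero l] {d : Fin n → Eis} {δ : Fin n → A} (hl : l = 2 ∨ l = 3) (hK : Kum l n d δ) (hF : IsGalois KK F)
    (v : HeightOneSpectrum (𝓞 KK)) (h6 : (6 : 𝓞 KK) ∉ v.asIdeal) (u : HeightOneSpectrum (𝓞 A))
    (hu : v.asIdeal.map (algebraMap (𝓞 KK) (𝓞 A)) ≤ u.asIdeal ^ 2) (w : HeightOneSpectrum (𝓞 F)) (hw : und KK w = v) : Ram l v w := by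
  obtain ⟨e, f, g, -, -, -, -, -, -, hall, -⟩ := place_count hl hK v h6
  have h1 : und KK u = v := K2_und v u two_pos hu
  have he : e = l := (hall u h1).2.2.1 hu
  obtain ⟨t1, -, a₁, ha₁, t3⟩ := tower (A := A) w
  refine (ram_iff v w hw (a := a₁ * e) fun x hx => ?_).2 ⟨a₁, by rw [he, mul_comm]⟩
  have h5 : algebraMap KK A x ≠ 0 := by
    rw [Ne, map_eq_zero]
    exact hx
  rw [IsScalarTower.algebraMap_apply KK A F, t3 _ h5, (hall _ (t1.trans hw)).2.1 _ hx]
  push_cast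
  ring

end CY
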