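import Pool.Agent.CY.G1
import Pool.Agent.CX.T6
import Pool.Agent.CX.T1

/-!
# [CY-T1] the places above 6

PROOF. `surj_six2`: as `CX.surj_six` (CX/T1.lean, `T1_of_range`): `v = und KK w ∋ 6`; in `F_w`: `(δ_i / φ c_i)^l = 1`, `(ε_j / φ c'_j)^m = 1` (`T1_root` for `l` and for `m`), so the intermediate field `{x : F | ∃ y, φ y = algebraMap F (F_w) x}` contains the images of all `δ_i`, `ε_j`, so of `A` (`hK.top`) and `B` (`hM.top`), it is `F` (`hC.top`).
`count_six2`, `six_unram2`: as `CX.count_six`, `CX.six_unram` (CX/T6.lean): `efg` for `F` (`cmp_galois`), `f = 1` (`tr_nv`), `e = 1` (`tr_val`), `[F : K] = l ^ n * m ^ b`.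
-/

set_option autoImplicit false

open NumberField IsDedekindDomain
open scoped Classical ComplexConjugate

namespace CY

open CX CM27 CMT NAB CF JD
open CU (la om eE)

/-- if the image of `φ` contains the images of generators, it contains the image -/
theorem T1_gen {A L L' : Type} [Field A] [Algebra KK A] [Field L] [Field L'] (φ : L →+* L') (g : A →+* L') (κ : KK → L) (s : Set A)
    (hs : IntermediateField.adjoin KK s = ⊤) (hg : ∀ a ∈ s, ∃ y, φ y = g a) (hκ : ∀ x : KK, φ (κ x) = g (algebraMap KK A x)) (x : A) :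
    ∃ y, φ y = g x := by
  have hx : x ∈ IntermediateField.adjoin KK s := by
    rw [hs]
    exact IntermediateField.mem_top
  induction hx using IntermediateField.adjoin_induction with
  | mem x hx => exact hg x hx
  | algebraMap x => exact ⟨κ x, hκ x⟩
  | add x y _ _ hx hy =>
    obtain ⟨a, ha⟩ := hx
    obtain ⟨b, hb⟩ := hy
    exact ⟨a + b, by rw [map_add, map_add, ha, hb]⟩
  | inv x _ hx =>
    obtain ⟨a, ha⟩ := hx
    exact ⟨a⁻¹, by rw [map_inv₀, map_inv₀, ha]⟩
  | mul x y _ _ hx hy =>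
    obtain ⟨a, ha⟩ := hx
    obtain ⟨b, hb⟩ := hy
    exact ⟨a * b, by rw [map_mul, map_mul, ha, hb]⟩

/-- the images of the radicals -/
theorem T1_rad {A F : Type} [Field A] [NumberField A] [Field F] [NumberField F] [Algebra KK A] [Algebra KK F] [Algebra A F] [IsScalarTower KK A F]
    {l m n : ℕ} {d : Fin n → Eis} {δ : Fin n → A} {D : Eis} (hD : Dat0 l m D d) (hK : Kum l n d δ)
    (v : HeightOneSpectrum (𝓞 KK)) (w : HeightOneSpectrum (𝓞 F)) (h6 : (6 : 𝓞 F) ∈ w.asIdeal)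
    (φ : v.adicCompletion KK →+* w.adicCompletion F) (h : Below v w φ) (i : Fin n) :
    ∃ y, φ y = algebraMap F (w.adicCompletion F) (algebraMap A F (δ i)) := by
  have hv6 : (6 : 𝓞 KK) ∈ v.asIdeal := by
    rw [← tr_und h, mem_und, map_ofNat]
    exact h6
  obtain ⟨c, hc⟩ := hD.loc v hv6 i
  have h1 : (algebraMap F (w.adicCompletion F) (algebraMap A F (δ i))) ^ l = (φ c) ^ l := by
    rw [← map_pow, ← map_pow, ← map_pow, hc, hK.pow, h.comm, jF_apply, ← IsScalarTower.algebraMap_apply KK A F]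
  have h2 : (φ (algebraMap KK (v.adicCompletion KK) (jK om))) ^ 2 +
      φ (algebraMap KK (v.adicCompletion KK) (jK om)) + 1 = 0 := by
    have h3 := congrArg (fun t => φ (algebraMap KK (v.adicCompletion KK) (jK t))) T1_om
    simpa only [map_add, map_pow, map_one, map_zero] using h3
  rcases T1_root hD.lm.2 _ _ _ h2 h1 with h3 | h3 | h3 | h3
  · exact ⟨c, h3.symm⟩
  · exact ⟨-c, by rw [map_neg, h3]⟩
  · exact ⟨algebraMap KK (v.adicCompletion KK) (jK om) * c, by rw [map_mul, h3]⟩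
  · exact ⟨(algebraMap KK (v.adicCompletion KK) (jK om)) ^ 2 * c, by rw [map_mul, map_pow, h3]⟩

/-- the images of all elements of `A` -/
theorem T1_all {A F : Type} [Field A] [NumberField A] [Field F] [NumberField F] [Algebra KK A] [Algebra KK F] [Algebra A F] [IsScalarTower KK A F]
    {l m n : ℕ} {d : Fin n → Eis} {δ : Fin n → A} {D : Eis} (hD : Dat0 l m D d) (hK : Kum l n d δ)
    (v : HeightOneSpectrum (𝓞 KK)) (w : HeightOneSpectrum (𝓞 F)) (h6 : (6 : 𝓞 F) ∈ w.asIdeal)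
    (φ : v.adicCompletion KK →+* w.adicCompletion F) (h : Below v w φ) (x : A) :
    ∃ y, φ y = algebraMap F (w.adicCompletion F) (algebraMap A F x) := by
  refine T1_gen φ ((algebraMap F (w.adicCompletion F)).comp (algebraMap A F)) (algebraMap KK (v.adicCompletion KK))
    (Set.range δ) hK.top ?_ (fun x => ?_) x
  · rintro _ ⟨i, rfl⟩
    exact T1_rad hD hK v w h6 φ h i
  · rw [RingHom.comp_apply, ← IsScalarTower.algebraMap_apply KK A F]
    exact h.comm x

variable {A B F : Type} [Field A] [NumberField A] [Field B] [NumberField B] [Field F] [NumberField F] [Algebra KK A] [Algebra KK B]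
  [Algebra KK F] [Algebra A F] [Algebra B F] [IsScalarTower KK A F] [IsScalarTower KK B F]
  {l m n b : ℕ} [NeZero l] [NeZero m] {d : Fin n → Eis} {e : Fin b → Eis} {δ : Fin n → A} {ε : Fin b → B} {D : Eis}

theorem surj_six2 (hD : Dat0 l m D d) (hE : Dat0 m l D e) (hK : Kum l n d δ) (hM : Kum m b e ε) (hC : Cmp A B F)
    (v : HeightOneSpectrum (𝓞 KK)) (w : HeightOneSpectrum (𝓞 F)) (h6 : (6 : 𝓞 F) ∈ w.asIdeal)
    (φ : v.adicCompletion KK →+* w.adicCompletion F) (h : Below v w φ) : Function.Surjective φ := by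
  refine T1_of_range h fun x => ?_
  refine T1_gen φ (algebraMap F (w.adicCompletion F)) (algebraMap KK (v.adicCompletion KK)) _ hC.top ?_ h.comm x
  rintro _ (⟨x, rfl⟩ | ⟨x, rfl⟩)
  · exact T1_all hD hK v w h6 φ h x
  · exact T1_all hE hM v w h6 φ h x

/-- [T1] helper -/
theorem T1_efg (hD : Dat0 l m D d) (hE : Dat0 m l D e) (hK : Kum l n d δ) (hM : Kum m b e ε) (hC : Cmp A B F)
    (v : HeightOneSpectrum (𝓞 KK)) (h6 : (6 : 𝓞 KK) ∈ v.asIdeal) :
    {w : HeightOneSpectrum (𝓞 F) | und KK w = v}.ncard = l ^ n * m ^ b ∧ (v.asIdeal.primesOver (𝓞 F)).ncard = l ^ n * m ^ b ∧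
      ∀ w : HeightOneSpectrum (𝓞 F), und KK w = v → ¬ v.asIdeal.map (algebraMap (𝓞 KK) (𝓞 F)) ≤ w.asIdeal ^ 2 := by
  have : IsGalois KK F := cmp_galois (kum_galois hD.lm.2 hK) (kum_galois hE.lm.2 hM) hC
  obtain ⟨e', f, g, he, hf, hg, hefg, hg1, hg2, hw⟩ := efg (F := F) v
  obtain ⟨w₀, hw₀⟩ := exists_above (F := F) v
  obtain ⟨φ, h, hs⟩ : ∃ φ : v.adicCompletion KK →+* w₀.adicCompletion F, Below v w₀ φ ∧ Function.Surjective φ := by
    have h6w : (6 : 𝓞 F) ∈ w₀.asIdeal := by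
      have h1 : (6 : 𝓞 KK) ∈ (und KK w₀).asIdeal := by
        rw [hw₀]
        exact h6
      rw [mem_und, map_ofNat] at h1
      exact h1
    obtain ⟨v', φ, h⟩ := JD.exists_Below w₀
    have hv : v' = v := (tr_und h).symm.trans hw₀
    subst hv
    exact ⟨φ, h, surj_six2 hD hE hK hM hC v' w₀ h6w φ h⟩
  obtain ⟨hnv, hod, -, -⟩ := hw w₀ hw₀
  have hf1 : f = 1 := by
    rw [tr_nv h hs] at hnv
    have h1 : TH.nv v ^ 1 = TH.nv v ^ f := by rw [pow_one]; exact hnv
    exact (Nat.pow_right_injective (t6_nv v) h1).symm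
  have he1 : e' = 1 := by
    obtain ⟨π, hπ⟩ := v.valuation_exists_uniformizer KK
    have hπ0 : π ≠ 0 := by
      intro h0
      rw [h0, map_zero] at hπ
      exact WithZero.exp_ne_zero hπ.symm
    have h1 := hod π hπ0
    have h2 : TWR.od w₀ (algebraMap KK F π) = TWR.od v π := by
      unfold TWR.od
      rw [t6_val h hs]
    have h3 : TWR.od v π = -1 := by
      unfold TWR.od
      rw [hπ, WithZero.log_exp]
    rw [h2, h3] at h1
    have h4 : (e' : ℤ) = 1 := by linarith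
    exact_mod_cast h4
  subst hf1
  subst he1
  have hgl : g = l ^ n * m ^ b := by
    rw [← hK.rank, ← hM.rank, ← hC.rank, ← hefg]
    ring
  refine ⟨hg1.trans hgl, hg2.trans hgl, fun w hw' hle => ?_⟩
  have h5 := (hw w hw').2.2.1.1 hle
  omega

theorem count_six2 (hD : Dat0 l m D d) (hE : Dat0 m l D e) (hK : Kum l n d δ) (hM : Kum m b e ε) (hC : Cmp A B F)
    (v : HeightOneSpectrum (𝓞 KK)) (h6 : (6 : 𝓞 KK) ∈ v.asIdeal) :
    {w : HeightOneSpectrum (𝓞 F) | und KK w = v}.ncard = l ^ n * m ^ b ∧ (v.asIdeal.primesOver (𝓞 F)).ncard = l ^ n * m ^ b :=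
  ⟨(T1_efg hD hE hK hM hC v h6).1, (T1_efg hD hE hK hM hC v h6).2.1⟩

theorem six_unram2 (hD : Dat0 l m D d) (hE : Dat0 m l D e) (hK : Kum l n d δ) (hM : Kum m b e ε) (hC : Cmp A B F)
    (v : HeightOneSpectrum (𝓞 KK)) (h6 : (6 : 𝓞 KK) ∈ v.asIdeal) (w : HeightOneSpectrum (𝓞 F)) (hw : und KK w = v) :
    ¬ v.asIdeal.map (algebraMap (𝓞 KK) (𝓞 F)) ≤ w.asIdeal ^ 2 :=
  (T1_efg hD hE hK hM hC v h6).2.2 w hw

end CY
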