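import Pool.Agent.CY.M1
import Pool.Agent.CY.K2
import Pool.Agent.CY.T1
import Pool.Agent.CX.X4a
import Pool.Agent.CX.M2

/-!
# [CY-E2] the field of the data is nice

PROOF. `np_of_local`: if `E` has a point of order `l` over `F` then (`CX.noPt_iff` over `F`) `D = x ^ m` in `F`, so in `F_w` for a place `w` of `F` over `v` (`NAB.exists_above`), so (`pow_iff`) some `D e_ψ^l` is an `m`-th power in `K_v`, against `h`.
`nice6_of_dat`: `galois`: `kum_galois` for `A`, `B` and `cmp_galois`. `comm`, `exponent`: an automorphism `σ` of `F / K` is determined by its values on the images of `A` and `B` (`hC.top`), it maps them to themselves, with `σ (algebraMap A F (δ i)) = z_i * ..`, `σ (algebraMap B F (ε j)) = z'_j * ..`, roots of unity `z_i ∈ Eis` fixed by the group (`X4a_act`, `X4a_fix`, `X4a_pow` for the restrictions, or `AlgEquiv.restrictNormal` and the results `comm`, `exponent` of `CX.nice_of_dat`-type arguments for `A` and `B`):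
so `σ τ = τ σ` and `σ ^ 6 = 1` (`z^l = 1`, `z'^m = 1`, `l m = 6`). `split`: `count_six2`, `[F : K] = l ^ n * m ^ b`. `noPt`: `hN` (`(ED (jK D)).baseChange F = ED (jF F D)`: `JD.ED_map`). `ramified`: `Ram l v P`: `ram_und`: `und KK P = v`; `6 ∉ v`: otherwise `six_unram2` (`Ram` with `a ≥ l ≥ 2` gives `v.map ≤ P ^ 2`). `place_count` for `A` and `B`, `cmp_count`: `od P = e₁ e₂ od v`; `ram_iff`: `l ∣ e₁ e₂`, so `e₁ = l`, some `i` with `l ∤ od v (d_i)`, so `eE (d_i) ∈ v` and
`(hdat ψ).npt`: no `D e_ψ^l` is an `m`-th power in `K_v`; `pow_iff`: `D` is not an `m`-th power in `F_P`; `noPt_iff` over `F_P` (as `X4a_npt`).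
-/

set_option autoImplicit false

open NumberField IsDedekindDomain
open scoped Classical ComplexConjugate

namespace CY

open CX CM27 CMT NAB CF JD
open CU (la om eE)

variable {A B F : Type} [Field A] [NumberField A] [Field B] [NumberField B] [Field F] [NumberField F] [Algebra KK A] [Algebra KK B]
  [Algebra KK F] [Algebra A F] [Algebra B F] [IsScalarTower KK A F] [IsScalarTower KK B F]
  {l m n b : ℕ} [NeZero l] [NeZero m] {d : Fin n → Eis} {e : Fin b → Eis} {δ : Fin n → A} {ε : Fin b → B} {D : Eis}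

omit [NumberField A] [NumberField B] [NumberField F] [Algebra KK B] [Algebra B F] [IsScalarTower KK B F] in
theorem e2_jF (x : Eis) : algebraMap A F (jF A x) = jF F x :=
  (IsScalarTower.algebraMap_apply KK A F (jK x)).symm

omit [NumberField F] in
theorem e2_fix (σ : F ≃ₐ[KK] F) (z : Eis) : σ (jF F z) = jF F z := by
  rw [jF_apply]
  exact σ.commutes _

omit [NumberField F] in
theorem e2_pow (σ : F ≃ₐ[KK] F) (x : F) (z : Eis) (h : σ x = jF F z * x) (k : ℕ) : (σ ^ k) x = jF F z ^ k * x := by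
  induction k with
  | zero => rw [pow_zero, pow_zero, one_mul, AlgEquiv.one_apply]
  | succ k ih =>
    rw [pow_succ', AlgEquiv.mul_apply, ih, map_mul, map_pow, e2_fix, h]
    ring

theorem e2_root {l : ℕ} (hl : l = 2 ∨ l = 3) (σ : F ≃ₐ[KK] F) (t : F) (ht : t ≠ 0) (x : Eis) (hx : t ^ l = jF F x) :
    ∃ z : Eis, z ^ l = 1 ∧ σ t = jF F z * t := by
  have h1 : (σ t / t) ^ l = 1 := by
    rw [div_pow, ← map_pow, hx, e2_fix]
    apply div_self
    rw [← hx]
    exact pow_ne_zero _ ht
  obtain ⟨z, hz1, hz2⟩ := root_eis hl h1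
  exact ⟨z, hz1, by rw [← hz2, div_mul_cancel₀ _ ht]⟩

omit [NeZero l] in
theorem e2_act (hl : l = 2 ∨ l = 3) (hK : Kum l n d δ) (σ : F ≃ₐ[KK] F) (i : Fin n) :
    ∃ z : Eis, z ^ l = 1 ∧ σ (algebraMap A F (δ i)) = jF F z * algebraMap A F (δ i) := by
  refine e2_root hl σ _ ?_ (d i) ?_
  · rw [Ne, map_eq_zero_iff _ (algebraMap A F).injective]
    exact l6_dne hl hK i
  · rw [← map_pow, hK.pow, e2_jF]

omit [NeZero l] in
theorem e2_ext1 (hK : Kum l n d δ) (σ τ : F ≃ₐ[KK] F) (h : ∀ i, σ (algebraMap A F (δ i)) = τ (algebraMap A F (δ i))) (x : A) :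
    σ (algebraMap A F x) = τ (algebraMap A F x) := by
  have hx : x ∈ IntermediateField.adjoin KK (Set.range δ) := by
    rw [hK.top]; exact IntermediateField.mem_top
  induction hx using IntermediateField.adjoin_induction with
  | mem y hy =>
    obtain ⟨i, rfl⟩ := hy
    exact h i
  | algebraMap y => rw [← IsScalarTower.algebraMap_apply KK A F, AlgEquiv.commutes, AlgEquiv.commutes]
  | add y z hy hz h1 h2 => rw [map_add, map_add, map_add, h1, h2]
  | inv y hy h1 => rw [map_inv₀, map_inv₀, map_inv₀, h1]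
  | mul y z hy hz h1 h2 => rw [map_mul, map_mul, map_mul, h1, h2]

omit [NeZero l] [NeZero m] in
theorem e2_ext (hK : Kum l n d δ) (hM : Kum m b e ε) (hC : Cmp A B F) (σ τ : F ≃ₐ[KK] F)
    (h : ∀ i, σ (algebraMap A F (δ i)) = τ (algebraMap A F (δ i))) (h' : ∀ i, σ (algebraMap B F (ε i)) = τ (algebraMap B F (ε i))) : σ = τ := by
  apply AlgEquiv.ext
  intro x
  have hx : x ∈ IntermediateField.adjoin KK (Set.range (algebraMap A F) ∪ Set.range (algebraMap B F)) := by
    rw [hC.top]; exact IntermediateField.mem_top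
  induction hx using IntermediateField.adjoin_induction with
  | mem y hy =>
    rcases hy with ⟨a, rfl⟩ | ⟨a, rfl⟩
    · exact e2_ext1 hK σ τ h a
    · exact e2_ext1 hM σ τ h' a
  | algebraMap y => rw [AlgEquiv.commutes, AlgEquiv.commutes]
  | add y z hy hz h1 h2 => rw [map_add, map_add, h1, h2]
  | inv y hy h1 => rw [map_inv₀, map_inv₀, h1]
  | mul y z hy hz h1 h2 => rw [map_mul, map_mul, h1, h2]

theorem np_of_local (hl : l = 2 ∨ l = 3) (hm : l * m = 6) (hD : D ≠ 0) (hK : Kum l n d δ) (hM : Kum m b e ε) (hC : Cmp A B F)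
    (v : HeightOneSpectrum (𝓞 KK)) (h6 : (6 : 𝓞 KK) ∉ v.asIdeal)
    (h : ∀ (ψ : Fin b → ZMod m) (y : v.adicCompletion KK), y ^ m ≠ algebraMap KK (v.adicCompletion KK) (jK (D * dx e ψ ^ l))) :
    Np l (ED (jF F D)) := by
  have hne : jF F D ≠ 0 := by
    rw [Ne, map_eq_zero_iff _ (jF_inj F)]
    exact hD
  refine (noPt_iff hne ⟨jF F om, l6_om⟩ hl hm).2 (fun x hx => ?_)
  obtain ⟨w, hw⟩ := exists_above (F := F) v
  subst hw
  obtain ⟨ψ, y, hy⟩ := (pow_iff hl hm hD hK hM hC w h6).1 ⟨algebraMap F (w.adicCompletion F) x, by rw [← map_pow, hx]⟩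
  exact h ψ y hy

theorem nice6_of_dat (hdat : ∀ ψ : Fin b → ZMod m, Dat l m (D * dx e ψ ^ l) d) (hD : Dat0 l m D d) (hE : Dat0 m l D e)
    (hK : Kum l n d δ) (hM : Kum m b e ε) (hC : Cmp A B F) (hN : Np l (ED (jF F D))) : Nice6 l (ED (jK D)) F := by
  have hl := hD.lm.2
  have hm := hD.lm.1
  have hl' := hE.lm.2
  have hA := kum_galois hl hK
  have hB := kum_galois hl' hM
  refine ⟨cmp_galois hA hB hC, fun σ τ => e2_ext hK hM hC _ _ (fun i => ?_) (fun i => ?_),
    fun σ => e2_ext hK hM hC _ _ (fun i => ?_) (fun i => ?_), fun v h6 => ?_, ?_, fun v P h => ?_⟩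
  · obtain ⟨z, _, hz⟩ := e2_act hl hK σ i
    obtain ⟨z', _, hz'⟩ := e2_act hl hK τ i
    rw [AlgEquiv.mul_apply, AlgEquiv.mul_apply, hz', hz, map_mul, map_mul, e2_fix, e2_fix, hz, hz']
    ring
  · obtain ⟨z, _, hz⟩ := e2_act hl' hM σ i
    obtain ⟨z', _, hz'⟩ := e2_act hl' hM τ i
    rw [AlgEquiv.mul_apply, AlgEquiv.mul_apply, hz', hz, map_mul, map_mul, e2_fix, e2_fix, hz, hz']
    ring
  · obtain ⟨z, h1, hz⟩ := e2_act hl hK σ i
    rw [e2_pow σ _ z hz, ← map_pow, ← hm, pow_mul, h1, one_pow, map_one, one_mul, AlgEquiv.one_apply]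
  · obtain ⟨z, h1, hz⟩ := e2_act hl' hM σ i
    rw [e2_pow σ _ z hz, ← map_pow, ← hm, mul_comm l m, pow_mul, h1, one_pow, map_one, one_mul, AlgEquiv.one_apply]
  · rw [hC.rank, hK.rank, hM.rank]
    exact (count_six2 hD hE hK hM hC v h6).2
  · have e : (ED (jK D)).baseChange F = ED (jF F D) := ED_map _ _
    rw [e]
    exact hN
  · obtain rfl := ram_und v P h
    have h6 : (6 : 𝓞 KK) ∉ (und KK P).asIdeal := by
      intro h6
      obtain ⟨a, h1, h2, h3, -⟩ := h
      refine six_unram2 hD hE hK hM hC _ h6 P rfl (h3.trans (Ideal.pow_le_pow_right ?_))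
      have h4 := Nat.le_of_dvd h1 h2
      rcases hl with hl | hl <;> omega
    obtain ⟨e₁, f₁, g₁, he₁, -, -, -, hel₁, -, hw₁, -, -⟩ := place_count hl hK _ h6
    obtain ⟨e₂, f₂, g₂, he₂, -, -, -, -, -, hw₂, -, -⟩ := place_count hl' hM _ h6
    have hco' : Nat.Coprime l m := by
      rcases hl with rfl | rfl
      · obtain rfl : m = 3 := by omega
        decide
      · obtain rfl : m = 2 := by omega
        decide
    have hco : Nat.Coprime (Module.finrank KK A) (Module.finrank KK B) := by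
      rw [hK.rank, hM.rank]
      exact Nat.Coprime.pow _ _ hco'
    have hcc := (cmp_count hA hB hC hco (und KK P) (e₁ := e₁) (f₁ := f₁) (e₂ := e₂) (f₂ := f₂)
      (fun u hu => ⟨(hw₁ u hu).1, (hw₁ u hu).2.1⟩) (fun u hu => ⟨(hw₂ u hu).1, (hw₂ u hu).2.1⟩)).2 P rfl
    have hdvd := (ram_iff (und KK P) P rfl hcc.2).1 h
    have he : e₁ = l := by
      rcases he₁ with he | he
      · exfalso
        rw [he, one_mul] at hdvd
        have h1 : l ∣ 1 := by
          rcases he₂ with he' | he'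
          · rwa [he'] at hdvd
          · rw [he'] at hdvd
            exact (Nat.Coprime.dvd_of_dvd_mul_left hco' (by rw [mul_one]; exact hdvd) : l ∣ 1)
        have h2 := Nat.le_of_dvd one_pos h1
        rcases hl with hl | hl <;> omega
      · exact he
    obtain ⟨i, hi⟩ := hel₁.1 he
    have hmem : eE (d i) ∈ (und KK P).asIdeal := by
      by_contra hne
      apply hi
      rw [jK_apply, TWR.od, val_unit _ _ hne, WithZero.log_one]
      exact dvd_zero _
    have hinj : Function.Injective (algebraMap F (P.adicCompletion F)) := (algebraMap F (P.adicCompletion F)).injective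
    have hch : CharZero (P.adicCompletion F) := charZero_of_injective_algebraMap hinj
    have hne : algebraMap F (P.adicCompletion F) (jF F D) ≠ 0 := by
      rw [Ne, map_eq_zero_iff _ hinj, map_eq_zero_iff _ (jF_inj F)]
      exact hD.ne0
    have e : ((ED (jK D)).baseChange F).baseChange (P.adicCompletion F) = ED (algebraMap F (P.adicCompletion F) (jF F D)) := by
      have e1 : (ED (jK D)).baseChange F = ED (jF F D) := ED_map _ _
      rw [e1]
      exact ED_map _ _
    unfold NoPt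
    rw [e]
    have ho : ∃ o : P.adicCompletion F, o ^ 2 + o + 1 = 0 := by
      refine ⟨algebraMap F (P.adicCompletion F) (jF F om), ?_⟩
      rw [← map_pow, ← map_add, ← map_one (algebraMap F (P.adicCompletion F)), ← map_add, l6_om, map_zero]
    refine (noPt_iff hne ho hl hm).2 (fun x hx => ?_)
    obtain ⟨ψ, y, hy⟩ := (pow_iff hl hm hD.ne0 hK hM hC P h6).1 ⟨x, hx⟩
    exact (hdat ψ).npt (und KK P) i hmem y hy

end CY
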