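import Pool.Agent.CY.E0
import Pool.Agent.CY.E1
import Pool.Agent.CY.E2
import Pool.Agent.CX.X4

/-!
# [CY-E3] existence of nice extensions

PROOF. As `CX.exists_nice` (CX/X4.lean; its lemmas `X4_*` may be used). `CX.inf_primes`: infinitely many primes `p` with `p ∤ x ^ m - D` for all `x`. `CX.pairs` with this property for `n + 1` pairs `(p_i, q_i)`, norms larger than `max Bd 100` (and than the norm of `D`): `d_i = p_i q_i^(l-1)` for the first `n` of them (`Fin.castSucc`). `M = 216 * ∏ (norm (p_i) * norm (q_i)).natAbs`.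
`pairs_mod M` with the property `True` for `b` pairs `(p'_j, q'_j)`, norms larger than those of all `p_i`, `q_i` (so they are not associated to them): `e_j = p'_j q'_j^(m-1)`, `M ∣ e_j - p'_j^m`. `Dat0 l m D d`, `Dat0 m l D e`: `CX.loc_pow` (`216 ∣ M`), `X4_six'`. `exists_field` for `(l, n, d)` and `(m, b, e)` gives `A`, `B` with `Kum`; `exists_cmp` gives `F`.
For `v = (p_i)` or `(q_i)` (all `i ≤ n`): each `e_j` is an `m`-th power `c_j ^ m` in `K_v` (`e_j ≡ p'_j^m mod v`, `p'_j ∉ v`, `6 ∉ v`; Hensel: `M3a_hensel`), so `e_ψ = c ^ m` and if `x ^ m = D e_ψ^l` then `(x / c^l)^m = D`, against `X4_npt`. This gives `npt` of `Dat l m (D e_ψ^l) d` (`v ∋ eE (d_i)` is `(p_i)` or `(q_i)`: `X4_mem`, `X4_eq`), and `prim` of `Dat l m (D e_ψ^l) d` from the place `(p_n)` (`noPt_iff` over `KK`: an `m`-th root in `KK` gives one in `K_v`),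
and `np_of_local` at `v = (p_n)`. `nice6_of_dat`. `[F : K] = l ^ n * m ^ b` (`hC.rank`). `Bd < |discr F|`: if `0 < n`: `disc_ge` for `A`, `discr_tower`; otherwise `0 < b`: `disc_ge` for `B` (`m = 2 ∨ m = 3`).
-/

set_option autoImplicit false

open NumberField IsDedekindDomain
open scoped Classical ComplexConjugate

namespace CY

open CX CM27 CMT NAB CF JD
open CU (la om eE)

theorem E3_dvd_norm {p : Eis} (hp : Prime p) : p ∣ ((p.norm.natAbs : ℕ) : Eis) := by
  have h1 := Ideal.absNorm_mem (CU.pl p hp).asIdeal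
  have h2 : Ideal.absNorm (CU.pl p hp).asIdeal = p.norm.natAbs := CU.s1_absNorm p
  rw [h2, ← map_natCast eE] at h1
  exact (CU.mem_iff rfl _).1 h1

theorem E3_pow {m : ℕ} (hm : m = 2 ∨ m = 3) {p a r : Eis} (hp : Prime p) {v : HeightOneSpectrum (𝓞 KK)} (hv : v.asIdeal = Ideal.span {eE p})
    (h6 : ¬ p ∣ 6) (hr : ¬ p ∣ r) (h : p ∣ a - r ^ m) : ∃ c : v.adicCompletion KK, c ^ m = algebraMap KK (v.adicCompletion KK) (jK a) := by
  have hm0 : 0 < m := by rcases hm with rfl | rfl <;> norm_num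
  have hmv : ((m : ℕ) : 𝓞 KK) ∉ v.asIdeal := by
    intro h1
    rw [← map_natCast eE, CU.mem_iff hv] at h1
    apply h6
    rcases hm with rfl | rfl
    · exact h1.trans ⟨3, by norm_num⟩
    · exact h1.trans ⟨2, by norm_num⟩
  have hav : eE a ∉ v.asIdeal := by
    rw [CU.mem_iff hv]
    intro h1
    apply hr
    have h2 : p ∣ r ^ m := by
      have h3 := dvd_sub h1 h
      rwa [sub_sub_cancel] at h3
    exact hp.dvd_of_dvd_pow h2
  have hb : (eE r) ^ m - eE a ∈ v.asIdeal := by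
    rw [← map_pow, ← map_sub, CU.mem_iff hv, ← neg_sub, dvd_neg]
    exact h
  obtain ⟨y, hy⟩ := M3a_hensel v hm0 hmv hav hb
  refine ⟨(y : v.adicCompletion KK), ?_⟩
  have h4 := congrArg (fun z : v.adicCompletionIntegers KK => (z : v.adicCompletion KK)) hy
  exact h4

theorem E3_dx {m b : ℕ} {e : Fin b → Eis} (v : HeightOneSpectrum (𝓞 KK))
    (h : ∀ j, ∃ c : v.adicCompletion KK, c ^ m = algebraMap KK (v.adicCompletion KK) (jK (e j))) (ψ : Fin b → ZMod m) :
    ∃ c : v.adicCompletion KK, c ^ m = algebraMap KK (v.adicCompletion KK) (jK (dx e ψ)) := by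
  choose c hc using h
  refine ⟨∏ j, c j ^ (ψ j).val, ?_⟩
  unfold dx
  rw [map_prod, map_prod, ← Finset.prod_pow]
  refine Finset.prod_congr rfl fun j _ => ?_
  rw [← pow_mul, mul_comm, pow_mul, hc, map_pow, map_pow]

theorem E3_no {l m : ℕ} {D E : Eis} (hE : E ≠ 0) (hm : m ≠ 0) (v : HeightOneSpectrum (𝓞 KK))
    (h : ∀ x : v.adicCompletion KK, x ^ m ≠ algebraMap KK (v.adicCompletion KK) (jK D))
    (hc : ∃ c : v.adicCompletion KK, c ^ m = algebraMap KK (v.adicCompletion KK) (jK E)) (x : v.adicCompletion KK) :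
    x ^ m ≠ algebraMap KK (v.adicCompletion KK) (jK (D * E ^ l)) := by
  intro hx
  obtain ⟨c, hc⟩ := hc
  have hc0 : c ≠ 0 := by
    rintro rfl
    rw [zero_pow hm] at hc
    have h1 := (map_eq_zero_iff _ (algebraMap KK (v.adicCompletion KK)).injective).1 hc.symm
    exact hE ((map_eq_zero_iff _ jK_inj).1 h1)
  apply h (x / c ^ l)
  rw [div_pow, ← pow_mul, mul_comm l m, pow_mul, hc, hx, map_mul, map_mul, map_pow, map_pow]
  have h2 : algebraMap KK (v.adicCompletion KK) (jK E) ≠ 0 := by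
    rw [← hc]
    exact pow_ne_zero _ hc0
  rw [mul_div_assoc, div_self (pow_ne_zero _ h2), mul_one]

theorem exists_nice6 {l m : ℕ} (hl : l = 2 ∨ l = 3) (hm : l * m = 6) {D : Eis} (hD : D ≠ 0) (hP : Np l (ED (jK D))) (n b : ℕ)
    (hn : 0 < n + b) (Bd : ℕ) :
    ∃ (F : Type) (_ : Field F) (_ : NumberField F) (_ : Algebra KK F), Nice6 l (ED (jK D)) F ∧ Module.finrank KK F = l ^ n * m ^ b ∧
      Bd < (discr F).natAbs := by
  have hdom := CM27.eis_isDomain
  have hm0 : m = 2 ∨ m = 3 := by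
    rcases hl with rfl | rfl
    · right
      omega
    · left
      omega
  have hml : m * l = 6 := by rw [mul_comm]; exact hm
  have hm1 : m ≠ 0 := by
    rcases hm0 with rfl | rfl
    · exact two_ne_zero
    · exact three_ne_zero
  have hl1 : l ≠ 0 := by
    rcases hl with rfl | rfl
    · exact two_ne_zero
    · exact three_ne_zero
  have hlz : NeZero l := ⟨hl1⟩
  have hmz : NeZero m := ⟨hm1⟩
  have ho : ∃ o : KK, o ^ 2 + o + 1 = 0 := ⟨jK om, by
    rw [← map_pow, ← map_add, ← map_one jK, ← map_add, show om ^ 2 + om + 1 = 0 by decide, map_zero]⟩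
  have hpow : ∀ x : Eis, x ^ m ≠ D := by
    have h1 := (noPt_iff ((map_ne_zero_iff _ jK_inj).2 hD) ho hl hm).1 hP
    intro x hx
    apply h1 (jK x)
    rw [← map_pow, hx]
  obtain ⟨p, q, h1, h2, h3⟩ := pairs (fun p => ∀ x : Eis, ¬ p ∣ x ^ m - D) (fun B => inf_primes hm0 hD hpow B) (n + 1)
    (max (Bd : ℤ) 100)
  have hp : ∀ i, Prime (p i) := fun i => (h1 i).1
  have hq : ∀ i, Prime (q i) := fun i => (h1 i).2.1
  have hpP : ∀ i (x : Eis), ¬ p i ∣ x ^ m - D := fun i => (h1 i).2.2.1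
  have hqP : ∀ i (x : Eis), ¬ q i ∣ x ^ m - D := fun i => (h1 i).2.2.2.1
  have hpB : ∀ i, max (Bd : ℤ) 100 < (p i).norm := fun i => (h1 i).2.2.2.2.1
  have hqB : ∀ i, max (Bd : ℤ) 100 < (q i).norm := fun i => (h1 i).2.2.2.2.2.1
  have hpq : ∀ i, (216 : Eis) ∣ p i - q i := fun i => (h1 i).2.2.2.2.2.2
  have hp100 : ∀ i, 100 < (p i).norm := fun i => lt_of_le_of_lt (le_max_right _ _) (hpB i)
  have hq100 : ∀ i, 100 < (q i).norm := fun i => lt_of_le_of_lt (le_max_right _ _) (hqB i)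
  have hsub : ∀ (k : ℕ), (k = 2 ∨ k = 3) → ∀ (N x y : Eis), N ∣ x - y → N ∣ x * y ^ (k - 1) - x ^ k := by
    intro k hk N x y hN
    have e : x * y ^ (k - 1) - x ^ k = -(x * (x ^ (k - 1) - y ^ (k - 1))) := by
      rcases hk with rfl | rfl
      · ring
      · ring
    rw [e, dvd_neg]
    exact (hN.trans (sub_dvd_pow_sub_pow _ _ _)).mul_left _
  -- the modulus
  obtain ⟨M, hM⟩ : ∃ M : ℕ, M = 216 * ∏ i, ((p i).norm.natAbs * (q i).norm.natAbs) := ⟨_, rfl⟩
  have hM0 : 0 < M := by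
    rw [hM]
    refine Nat.mul_pos (by norm_num) (Finset.prod_pos fun i _ => Nat.mul_pos ?_ ?_)
    · have := hp100 i
      omega
    · have := hq100 i
      omega
  have hM216 : (216 : Eis) ∣ (M : Eis) := by
    rw [hM, Nat.cast_mul]
    exact Dvd.intro _ rfl
  have hMp : ∀ i, p i ∣ (M : Eis) := by
    intro i
    have h4 : ((p i).norm.natAbs * (q i).norm.natAbs) ∣ M := by
      rw [hM]
      exact (Finset.dvd_prod_of_mem _ (Finset.mem_univ i)).mul_left _
    obtain ⟨t, ht⟩ := h4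
    rw [ht, Nat.cast_mul, Nat.cast_mul]
    exact ((E3_dvd_norm (hp i)).mul_right _).mul_right _
  have hMq : ∀ i, q i ∣ (M : Eis) := by
    intro i
    have h4 : ((p i).norm.natAbs * (q i).norm.natAbs) ∣ M := by
      rw [hM]
      exact (Finset.dvd_prod_of_mem _ (Finset.mem_univ i)).mul_left _
    obtain ⟨t, ht⟩ := h4
    rw [ht, Nat.cast_mul, Nat.cast_mul]
    exact ((E3_dvd_norm (hq i)).mul_left _).mul_right _
  obtain ⟨B2, hB2a, hB2p, hB2q⟩ : ∃ B2 : ℤ, max (Bd : ℤ) 100 ≤ B2 ∧ (∀ i, (p i).norm ≤ B2) ∧ ∀ i, (q i).norm ≤ B2 := by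
    have hn0 : ∀ x : Eis, 0 ≤ x.norm := X2_norm_nonneg
    refine ⟨max (Bd : ℤ) 100 + ∑ i, ((p i).norm + (q i).norm), ?_, ?_, ?_⟩
    · have : 0 ≤ ∑ i, ((p i).norm + (q i).norm) := Finset.sum_nonneg fun i _ => add_nonneg (hn0 _) (hn0 _)
      linarith
    · intro i
      have h4 : (p i).norm + (q i).norm ≤ ∑ i, ((p i).norm + (q i).norm) :=
        Finset.single_le_sum (f := fun i => (p i).norm + (q i).norm) (fun i _ => add_nonneg (hn0 _) (hn0 _)) (Finset.mem_univ i)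
      have h5 := hn0 (q i)
      have h6 : (0 : ℤ) ≤ max (Bd : ℤ) 100 := le_trans (by norm_num) (le_max_right _ _)
      linarith
    · intro i
      have h4 : (p i).norm + (q i).norm ≤ ∑ i, ((p i).norm + (q i).norm) :=
        Finset.single_le_sum (f := fun i => (p i).norm + (q i).norm) (fun i _ => add_nonneg (hn0 _) (hn0 _)) (Finset.mem_univ i)
      have h5 := hn0 (p i)
      have h6 : (0 : ℤ) ≤ max (Bd : ℤ) 100 := le_trans (by norm_num) (le_max_right _ _)
      linarith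
  obtain ⟨p', q', g1, g2, g3⟩ := pairs_mod M hM0 (fun _ => True) (fun B => by
    obtain ⟨r, hr1, hr2, -⟩ := inf_primes hm0 hD hpow B
    exact ⟨r, hr1, hr2, trivial⟩) b B2
  have hp' : ∀ j, Prime (p' j) := fun j => (g1 j).1
  have hq' : ∀ j, Prime (q' j) := fun j => (g1 j).2.1
  have hpB' : ∀ j, B2 < (p' j).norm := fun j => (g1 j).2.2.2.2.1
  have hqB' : ∀ j, B2 < (q' j).norm := fun j => (g1 j).2.2.2.2.2.1
  have hpq' : ∀ j, (M : Eis) ∣ p' j - q' j := fun j => (g1 j).2.2.2.2.2.2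
  have hp100' : ∀ j, 100 < (p' j).norm := fun j => lt_of_le_of_lt ((le_max_right _ _).trans hB2a) (hpB' j)
  have hq100' : ∀ j, 100 < (q' j).norm := fun j => lt_of_le_of_lt ((le_max_right _ _).trans hB2a) (hqB' j)
  have hM' : ∀ j, (M : Eis) ∣ p' j * q' j ^ (m - 1) - p' j ^ m := fun j => hsub m hm0 _ _ _ (hpq' j)
  have he0 : ∀ j, p' j * q' j ^ (m - 1) ≠ 0 := fun j => mul_ne_zero (hp' j).ne_zero (pow_ne_zero _ (hq' j).ne_zero)
  have hd0 : ∀ i, p i * q i ^ (l - 1) ≠ 0 := fun i => mul_ne_zero (hp i).ne_zero (pow_ne_zero _ (hq i).ne_zero)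
  -- the conditions at 6
  have hcopd : ∀ v : HeightOneSpectrum (𝓞 KK), (6 : 𝓞 KK) ∈ v.asIdeal → ∀ i : Fin n,
      eE (p i.castSucc * q i.castSucc ^ (l - 1)) ∉ v.asIdeal := by
    intro v h6 i h
    rcases X4_mem _ h with h | h
    · exact X4_six' (hp _) (hp100 _) h6 h
    · exact X4_six' (hq _) (hq100 _) h6 h
  have hlocd : ∀ v : HeightOneSpectrum (𝓞 KK), (6 : 𝓞 KK) ∈ v.asIdeal → ∀ i : Fin n, ∃ c : v.adicCompletion KK,
      c ^ l = algebraMap KK (v.adicCompletion KK) (jK (p i.castSucc * q i.castSucc ^ (l - 1))) := by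
    intro v h6 i
    exact loc_pow hl _ (p i.castSucc) (hsub l hl _ _ _ (hpq _)) v h6 (X4_six' (hp _) (hp100 _) h6)
  have hE : Dat0 m l D (fun j => p' j * q' j ^ (m - 1)) := by
    refine ⟨⟨hml, hm0⟩, hD, ?_, ?_⟩
    · intro v h6 j h
      rcases X4_mem _ h with h | h
      · exact X4_six' (hp' j) (hp100' j) h6 h
      · exact X4_six' (hq' j) (hq100' j) h6 h
    · intro v h6 j
      exact loc_pow hm0 _ (p' j) (hM216.trans (hM' j)) v h6 (X4_six' (hp' j) (hp100' j) h6)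
  have hEne : ∀ ψ : Fin b → ZMod m, dx (fun j => p' j * q' j ^ (m - 1)) ψ ≠ 0 := by
    intro ψ
    unfold dx
    exact Finset.prod_ne_zero_iff.2 fun j _ => pow_ne_zero _ (he0 j)
  -- not a power at the primes p i, q i
  have hnp : ∀ (r : Eis), Prime r → 100 < r.norm → r.norm ≤ B2 → (r ∣ (M : Eis)) → (∀ x : Eis, ¬ r ∣ x ^ m - D) →
      ∀ (v : HeightOneSpectrum (𝓞 KK)), v.asIdeal = Ideal.span {eE r} → ∀ (ψ : Fin b → ZMod m) (x : v.adicCompletion KK),
      x ^ m ≠ algebraMap KK (v.adicCompletion KK) (jK (D * dx (fun j => p' j * q' j ^ (m - 1)) ψ ^ l)) := by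
    intro r hr h100 hB hrM hrP v hv ψ x
    refine E3_no (hEne ψ) hm1 v (X4_npt hm1 hr hrP hv) (E3_dx v (fun j => ?_) ψ) x
    refine E3_pow hm0 hr hv (X4_six h100) (r := p' j) ?_ (hrM.trans (hM' j))
    intro h
    have h4 := X2_norm_assoc ((hr.dvd_prime_iff_associated (hp' j)).1 h)
    have h5 := hpB' j
    omega
  have hnpp : ∀ i (v : HeightOneSpectrum (𝓞 KK)), v.asIdeal = Ideal.span {eE (p i)} → ∀ (ψ : Fin b → ZMod m) (x : v.adicCompletion KK),
      x ^ m ≠ algebraMap KK (v.adicCompletion KK) (jK (D * dx (fun j => p' j * q' j ^ (m - 1)) ψ ^ l)) := fun i v hv =>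
    hnp (p i) (hp i) (hp100 i) (hB2p i) (hMp i) (hpP i) v hv
  have hnpq : ∀ i (v : HeightOneSpectrum (𝓞 KK)), v.asIdeal = Ideal.span {eE (q i)} → ∀ (ψ : Fin b → ZMod m) (x : v.adicCompletion KK),
      x ^ m ≠ algebraMap KK (v.adicCompletion KK) (jK (D * dx (fun j => p' j * q' j ^ (m - 1)) ψ ^ l)) := fun i v hv =>
    hnp (q i) (hq i) (hq100 i) (hB2q i) (hMq i) (hqP i) v hv
  have hDat0 : ∀ D' : Eis, D' ≠ 0 → Dat0 l m D' (fun i : Fin n => p i.castSucc * q i.castSucc ^ (l - 1)) := fun D' hD' =>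
    ⟨⟨hm, hl⟩, hD', hcopd, hlocd⟩
  have hDat : ∀ ψ : Fin b → ZMod m, Dat l m (D * dx (fun j => p' j * q' j ^ (m - 1)) ψ ^ l)
      (fun i : Fin n => p i.castSucc * q i.castSucc ^ (l - 1)) := by
    intro ψ
    have hne : D * dx (fun j => p' j * q' j ^ (m - 1)) ψ ^ l ≠ 0 := mul_ne_zero hD (pow_ne_zero _ (hEne ψ))
    refine ⟨hDat0 _ hne, ?_, ?_⟩
    · refine (noPt_iff ((map_ne_zero_iff _ jK_inj).2 hne) ho hl hm).2 ?_
      intro x hx
      apply hnpp (Fin.last n) (CU.pl (p (Fin.last n)) (hp _)) rfl ψ (algebraMap KK _ x)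
      rw [← map_pow, hx]
    · intro v i h
      rcases X4_mem _ h with h | h
      · exact hnpp i.castSucc v (X4_eq (hp _) h) ψ
      · exact hnpq i.castSucc v (X4_eq (hq _) h) ψ
  -- the fields
  have hv6 : ∀ i, (6 : 𝓞 KK) ∉ (CU.pl (p i) (hp i)).asIdeal := by
    intro i h
    rw [← map_ofNat eE 6] at h
    exact X4_six (hp100 i) ((CU.mem_iff rfl 6).1 h)
  have hv6' : ∀ j, (6 : 𝓞 KK) ∉ (CU.pl (p' j) (hp' j)).asIdeal := by
    intro j h
    rw [← map_ofNat eE 6] at h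
    exact X4_six (hp100' j) ((CU.mem_iff rfl 6).1 h)
  have hod1 : ∀ i, TWR.od (CU.pl (p i) (hp i)) (jK (p i * q i ^ (l - 1))) = -1 := by
    intro i
    rw [X4_od (hp i) (hp i).ne_zero (hq i) (h2 i i), X4_od_self]
  have hod2 : ∀ i j, i ≠ j → TWR.od (CU.pl (p i) (hp i)) (jK (p j * q j ^ (l - 1))) = 0 := by
    intro i j hij
    rw [X4_od (hp i) (hp j).ne_zero (hq j) (h2 i j)]
    exact X4_od_zero (hp i) fun h => (h3 i j hij).1 (((hp i).dvd_prime_iff_associated (hp j)).1 h)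
  have hod1' : ∀ i, TWR.od (CU.pl (p' i) (hp' i)) (jK (p' i * q' i ^ (m - 1))) = -1 := by
    intro i
    rw [X4_od (hp' i) (hp' i).ne_zero (hq' i) (g2 i i), X4_od_self]
  have hod2' : ∀ i j, i ≠ j → TWR.od (CU.pl (p' i) (hp' i)) (jK (p' j * q' j ^ (m - 1))) = 0 := by
    intro i j hij
    rw [X4_od (hp' i) (hp' j).ne_zero (hq' j) (g2 i j)]
    exact X4_od_zero (hp' i) fun h => (g3 i j hij).1 (((hp' i).dvd_prime_iff_associated (hp' j)).1 h)
  obtain ⟨A, a1, a2, a3, δ, hK⟩ := exists_field hl n (fun i => p i.castSucc * q i.castSucc ^ (l - 1))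
    (fun i => hd0 _) (fun i => CU.pl (p i.castSucc) (hp _)) (fun i => hv6 _) (fun i => hod1 _)
    (fun i j hij => hod2 _ _ fun h => hij (Fin.castSucc_injective n h))
  obtain ⟨B, b1, b2, b3, ε, hMk⟩ := exists_field hm0 b (fun j => p' j * q' j ^ (m - 1))
    (fun i => he0 _) (fun i => CU.pl (p' i) (hp' _)) (fun i => hv6' _) (fun i => hod1' _) (fun i j hij => hod2' _ _ hij)
  have hco : Nat.Coprime (Module.finrank KK A) (Module.finrank KK B) := by
    rw [hK.rank, hMk.rank]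
    apply Nat.Coprime.pow
    rcases hl with rfl | rfl
    · have : m = 3 := by omega
      subst this
      norm_num
    · have : m = 2 := by omega
      subst this
      norm_num
  obtain ⟨F, c1, c2, c3, c4, c5, c6, c7, hC⟩ := exists_cmp (A := A) (B := B) hco
  have hN : Np l (ED (jF F D)) := np_of_local hl hm hD hK hMk hC (CU.pl (p (Fin.last n)) (hp _)) (hv6 _)
    (fun ψ y => hnpp (Fin.last n) _ rfl ψ y)
  refine ⟨F, c1, c2, c3, nice6_of_dat hDat (hDat0 D hD) hE hK hMk hC hN, ?_, ?_⟩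
  · rw [hC.rank, hK.rank, hMk.rank]
  · have hnl : ∀ k : ℕ, (k = 2 ∨ k = 3) → ¬ (k : ℤ) ∣ -1 := by
      intro k hk
      rcases hk with rfl | rfl
      · decide
      · decide
    rcases Nat.eq_zero_or_pos n with h0 | h0
    · have hb : 0 < b := by omega
      have h4 := disc_ge hm0 hMk (CU.pl (p' ⟨0, hb⟩) (hp' ⟨0, hb⟩)) (hv6' _) ⟨0, hb⟩ (by
        rw [hod1']
        exact hnl m hm0)
      have h5 : TH.nv (CU.pl (p' ⟨0, hb⟩) (hp' ⟨0, hb⟩)) = (p' ⟨0, hb⟩).norm.natAbs := CU.card_quot rfl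
      have h6 := lt_of_le_of_lt ((le_max_left _ _).trans hB2a) (hpB' ⟨0, hb⟩)
      have h7 := discr_tower (A := B) (F := F)
      omega
    · have h4 := disc_ge hl hK (CU.pl (p (Fin.castSucc ⟨0, h0⟩)) (hp _)) (hv6 _) ⟨0, h0⟩ (by
        rw [hod1]
        exact hnl l hl)
      have h5 : TH.nv (CU.pl (p (Fin.castSucc ⟨0, h0⟩)) (hp _)) = (p (Fin.castSucc ⟨0, h0⟩)).norm.natAbs := CU.card_quot rfl
      have h6 := lt_of_le_of_lt (le_max_left _ _) (hpB (Fin.castSucc ⟨0, h0⟩))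
      have h7 := discr_tower (A := A) (F := F)
      omega

end CY
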