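import Pool.Agent.CY.Defs

/-!
# [CY-G0] a place of F, the place of A below

PROOF. Mathlib: `HeightOneSpectrum.valuation_liesOver` (as in CX.L7c: `v.valuation ^ e = w.valuation`), `Ideal.absNorm` of a prime over another is a power of it (`NAB.relNorm_prime`, `Ideal.absNorm_eq_pow_inertiaDeg`-type; CX.L7c does it over `KK`; here the base is `A`: the residue field of `w` is a finite extension of the one of `u = und A w`, so its order is a power of the order of that one: `Module.card_eq_pow_finrank`).
`und KK (und A w) = und KK w`: contraction of ideals in a tower (`HeightOneSpectrum.ext`, `NAB.mem_und` twice, `IsScalarTower.algebraMap_apply (𝓞 KK) (𝓞 A) (𝓞 F)`).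
-/

set_option autoImplicit false

open NumberField IsDedekindDomain
open scoped Classical ComplexConjugate

namespace CY

open CX CM27 CMT NAB CF JD
open CU (la om eE)

theorem tower {A F : Type} [Field A] [NumberField A] [Field F] [NumberField F] [Algebra KK A] [Algebra KK F] [Algebra A F] [IsScalarTower KK A F]
    (w : HeightOneSpectrum (𝓞 F)) : und KK (und A w) = und KK w ∧ (∃ f : ℕ, 0 < f ∧ TH.nv w = TH.nv (und A w) ^ f) ∧
    ∃ a : ℕ, 0 < a ∧ ∀ x : A, x ≠ 0 → TWR.od w (algebraMap A F x) = a * TWR.od (und A w) x := by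
  have hlo : w.asIdeal.LiesOver (und A w).asIdeal := ⟨rfl⟩
  have hwm := w.isMaximal
  have hum := (und A w).isMaximal
  have hwp := w.isPrime
  have hup := (und A w).isPrime
  refine ⟨?_, ?_, ?_⟩
  · apply HeightOneSpectrum.ext
    ext x
    rw [mem_und, mem_und, mem_und, ← IsScalarTower.algebraMap_apply (𝓞 KK) (𝓞 A) (𝓞 F)]
  · have h1 := Ideal.relNorm_eq_pow_of_isMaximal w.asIdeal (und A w).asIdeal
    have h4 := Ideal.absNorm_relNorm (R := 𝓞 A) (S := 𝓞 F) w.asIdeal
    rw [h1, map_pow, absNorm_eq_card, absNorm_eq_card] at h4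
    refine ⟨_, ?_, h4.symm⟩
    exact Ideal.inertiaDeg_pos _ _
  · refine ⟨(und A w).asIdeal.ramificationIdx' w.asIdeal, ?_, ?_⟩
    · exact Nat.pos_of_ne_zero (Ideal.IsDedekindDomain.ramificationIdx'_ne_zero_of_liesOver w.asIdeal (und A w).ne_bot)
    · intro x hx
      have h1 := HeightOneSpectrum.valuation_liesOver F (und A w) w x
      unfold TWR.od
      rw [← h1, WithZero.log_pow, nsmul_eq_mul]

end CY
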