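import Pool.Agent.CY.Defs

/-!
# [CY-G1] the Galois group of the compositum

PROOF. `cmp_galois`: a compositum of Galois extensions: normal (every embedding of `F` over `KK` in an algebraic closure maps the images of `A` and `B` to themselves; or the subfields `(algebraMap A F).range`, `(algebraMap B F).range` as intermediate fields are Galois over `KK`: `IntermediateField.isGalois_iSup`/`normal_sup`, their supremum is `⊤` by `hC.top`); separable: characteristic 0.
`cmp_lift`: the map `(F ≃ₐ[KK] F) → (A ≃ₐ[KK] A) × (B ≃ₐ[KK] B)` (`AlgEquiv.restrictNormal`) is injective (an automorphism which fixes the images of `A` and `B` fixes `⊤`), both sides have `[F : K]` elements (`IsGalois.card_aut_eq_finrank`, `hC.rank`), so it is onto.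
`cmp_adjoin`: the field `A(ε)` contains the images of `A` and of `B = K(ε)` (`hM.top`), so it is everything (`hC.top`); `[F : A] = [F : K] / [A : K] = [B : K] = m ^ b` (`Module.finrank_mul_finrank`, `hC.rank`, `hM.rank`).
-/

set_option autoImplicit false

open NumberField IsDedekindDomain
open scoped Classical ComplexConjugate

namespace CY

open CX CM27 CMT NAB CF JD
open CU (la om eE)

variable {A B F : Type} [Field A] [NumberField A] [Field B] [NumberField B] [Field F] [NumberField F] [Algebra KK A] [Algebra KK B]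
  [Algebra KK F] [Algebra A F] [Algebra B F] [IsScalarTower KK A F] [IsScalarTower KK B F]

theorem G1_fd (L : Type) [Field L] [NumberField L] [Algebra KK L] : FiniteDimensional KK L := by
  have h1 : IsScalarTower ℚ KK L := IsScalarTower.of_algebraMap_eq' (Subsingleton.elim _ _)
  exact FiniteDimensional.right ℚ KK L

theorem cmp_galois (hA : IsGalois KK A) (hB : IsGalois KK B) (hC : Cmp A B F) : IsGalois KK F := by
  have hfd := G1_fd F
  have hnA : Normal KK A := hA.to_normal
  have hnB : Normal KK B := hB.to_normal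
  let fA := IsScalarTower.toAlgHom KK A F
  let fB := IsScalarTower.toAlgHom KK B F
  have h1 : Normal KK fA.fieldRange := Normal.of_algEquiv (AlgEquiv.ofInjectiveField fA)
  have h2 : Normal KK fB.fieldRange := Normal.of_algEquiv (AlgEquiv.ofInjectiveField fB)
  have h3 : fA.fieldRange ⊔ fB.fieldRange = ⊤ := by
    rw [eq_top_iff, ← hC.top, IntermediateField.adjoin_le_iff]
    rintro x (⟨a, rfl⟩ | ⟨b, rfl⟩)
    · have : algebraMap A F a ∈ fA.fieldRange := ⟨a, rfl⟩
      exact (le_sup_left : fA.fieldRange ≤ fA.fieldRange ⊔ fB.fieldRange) this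
    · have : algebraMap B F b ∈ fB.fieldRange := ⟨b, rfl⟩
      exact (le_sup_right : fB.fieldRange ≤ fA.fieldRange ⊔ fB.fieldRange) this
  have h4 : Normal KK ↥(fA.fieldRange ⊔ fB.fieldRange) := inferInstance
  rw [h3] at h4
  have h5 : Normal KK F := Normal.of_algEquiv (IntermediateField.topEquiv (F := KK) (E := F))
  exact { to_isSeparable := inferInstance, to_normal := h5 }

theorem G1_fix (hC : Cmp A B F) (ρ : F ≃ₐ[KK] F)
    (h1 : ∀ a : A, ρ (algebraMap A F a) = algebraMap A F a)
    (h2 : ∀ b : B, ρ (algebraMap B F b) = algebraMap B F b) : ρ = 1 := by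
  have hle : (⊤ : IntermediateField KK F) ≤ IntermediateField.fixedField (Subgroup.zpowers ρ) := by
    rw [← hC.top, IntermediateField.adjoin_le_iff]
    have key : ∀ x : F, ρ x = x → x ∈ IntermediateField.fixedField (Subgroup.zpowers ρ) := by
      intro x hx
      rw [IntermediateField.mem_fixedField_iff]
      intro f hf
      obtain ⟨k, rfl⟩ := Subgroup.mem_zpowers_iff.1 hf
      have h3 : ρ ∈ MulAction.stabilizer (F ≃ₐ[KK] F) x := hx
      exact (MulAction.stabilizer (F ≃ₐ[KK] F) x).zpow_mem h3 k
    rintro x (⟨a, rfl⟩ | ⟨b, rfl⟩)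
    · exact key _ (h1 a)
    · exact key _ (h2 b)
  ext x
  have hx : x ∈ IntermediateField.fixedField (Subgroup.zpowers ρ) :=
    hle IntermediateField.mem_top
  rw [IntermediateField.mem_fixedField_iff] at hx
  exact hx ρ (Subgroup.mem_zpowers ρ)

theorem cmp_lift (hA : IsGalois KK A) (hB : IsGalois KK B) (hC : Cmp A B F) (σ : A ≃ₐ[KK] A) (τ : B ≃ₐ[KK] B) :
    ∃ ρ : F ≃ₐ[KK] F, (∀ x : A, ρ (algebraMap A F x) = algebraMap A F (σ x)) ∧ ∀ x : B, ρ (algebraMap B F x) = algebraMap B F (τ x) := by
  have hF := cmp_galois hA hB hC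
  have hfdF := G1_fd F
  have hfdA := G1_fd A
  have hfdB := G1_fd B
  have hnA : Normal KK A := hA.to_normal
  have hnB : Normal KK B := hB.to_normal
  let Φ : (F ≃ₐ[KK] F) → (A ≃ₐ[KK] A) × (B ≃ₐ[KK] B) :=
    fun ρ => (ρ.restrictNormal A, ρ.restrictNormal B)
  have hinj : Function.Injective Φ := by
    intro ρ ρ' h
    have e1 : ρ.restrictNormal A = ρ'.restrictNormal A := congrArg Prod.fst h
    have e2 : ρ.restrictNormal B = ρ'.restrictNormal B := congrArg Prod.snd h
    have h1 : ρ'⁻¹ * ρ = 1 := by
      apply G1_fix hC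
      · intro a
        have h3 : ρ (algebraMap A F a) = ρ' (algebraMap A F a) := by
          rw [← AlgEquiv.restrictNormal_commutes, ← AlgEquiv.restrictNormal_commutes, e1]
        rw [AlgEquiv.mul_apply, h3]
        exact ρ'.symm_apply_apply _
      · intro b
        have h3 : ρ (algebraMap B F b) = ρ' (algebraMap B F b) := by
          rw [← AlgEquiv.restrictNormal_commutes, ← AlgEquiv.restrictNormal_commutes, e2]
        rw [AlgEquiv.mul_apply, h3]
        exact ρ'.symm_apply_apply _
    exact (inv_mul_eq_one.1 h1).symm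
  have hcard : Nat.card ((A ≃ₐ[KK] A) × (B ≃ₐ[KK] B)) ≤ Nat.card (F ≃ₐ[KK] F) := by
    rw [Nat.card_prod, IsGalois.card_aut_eq_finrank, IsGalois.card_aut_eq_finrank,
      IsGalois.card_aut_eq_finrank, hC.rank]
  obtain ⟨ρ, hρ⟩ := (hinj.bijective_of_nat_card_le hcard).2 (σ, τ)
  have e1 : ρ.restrictNormal A = σ := congrArg Prod.fst hρ
  have e2 : ρ.restrictNormal B = τ := congrArg Prod.snd hρ
  refine ⟨ρ, fun x => ?_, fun x => ?_⟩
  · rw [← AlgEquiv.restrictNormal_commutes, e1]
  · rw [← AlgEquiv.restrictNormal_commutes, e2]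

theorem cmp_adjoin {m b : ℕ} {e : Fin b → Eis} {ε : Fin b → B} (hM : Kum m b e ε) (hC : Cmp A B F) :
    IntermediateField.adjoin A (Set.range fun i => algebraMap B F (ε i)) = ⊤ ∧ Module.finrank A F = m ^ b := by
  have hfdF := G1_fd F
  have hfdA := G1_fd A
  constructor
  · have h1 : (⊤ : IntermediateField KK F) ≤ (IntermediateField.adjoin A
        (Set.range fun i => algebraMap B F (ε i))).restrictScalars KK := by
      rw [← hC.top, IntermediateField.adjoin_le_iff]
      rintro x (⟨a, rfl⟩ | ⟨y, rfl⟩)
      · exact (IntermediateField.adjoin A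
          (Set.range fun i => algebraMap B F (ε i))).algebraMap_mem a
      · have h2 : (IntermediateField.adjoin KK (Set.range ε)).map (IsScalarTower.toAlgHom KK B F) ≤
            (IntermediateField.adjoin A
              (Set.range fun i => algebraMap B F (ε i))).restrictScalars KK := by
          rw [IntermediateField.adjoin_map, IntermediateField.adjoin_le_iff]
          rintro _ ⟨_, ⟨i, rfl⟩, rfl⟩
          exact IntermediateField.subset_adjoin A _ ⟨i, rfl⟩
        apply h2
        rw [hM.top]
        exact ⟨y, IntermediateField.mem_top, rfl⟩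
    rw [eq_top_iff]
    intro x _
    exact h1 (IntermediateField.mem_top : x ∈ (⊤ : IntermediateField KK F))
  · have h1 := Module.finrank_mul_finrank KK A F
    rw [hC.rank, hM.rank] at h1
    exact Nat.eq_of_mul_eq_mul_left (Module.finrank_pos (R := KK) (M := A)) h1

end CY
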