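import Pool.Agent.CY.G0
import Pool.Agent.CY.G1
import Pool.Agent.CX.L7c

/-!
# [CY-G2] the places of the compositum

PROOF. `CX.efg` for `A`, `B`, `F` (`cmp_galois`): numbers `e_A, f_A, g_A` etc. `e_A = e₁`, `f_A = f₁` (there is a place of `A` over `v` (`NAB.exists_above`), `nv v > 1`, and an `x` with `od v x ≠ 0`). `tower` (G0) for `A` and `B` and a place `w` of `F` over `v`: `f₁ ∣ f_F`, `e₁ ∣ e_F`, `f₂ ∣ f_F`, `e₂ ∣ e_F`
(`nv v ^ f_F = nv w = nv u ^ f' = nv v ^ (f₁ f')`). `e₁, f₁` divide `[A : K]`, `e₂, f₂` divide `[B : K]`, coprime: `e₁ e₂ ∣ e_F`, `f₁ f₂ ∣ f_F`. The map `w ↦ (und A w, und B w)` from the places of `F` over `v` to the pairs is onto: given `(u₁, u₂)`, take `w` over `u₁` (`NAB.exists_above` for `F / A`), `und B w` and `u₂` are conjugate over `KK`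
(transitivity of `B ≃ₐ[KK] B` on the primes over `v`: `Ideal.exists_smul_eq_of_isGaloisGroup`/`exists_map_eq_of_isGalois`, used in L7c), lift `(1, τ)` to `ρ` (`cmp_lift`) and take `ρ w`. So `g_F ≥ g₁ g₂` (finite sets), and `g_F e_F f_F = [F : K] = (g₁ e₁ f₁) (g₂ e₂ f₂)` gives equality everywhere.
-/

set_option autoImplicit false

open NumberField IsDedekindDomain
open scoped Classical ComplexConjugate

namespace CY

open CX CM27 CMT NAB CF JD
open CU (la om eE)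

variable {A B F : Type} [Field A] [NumberField A] [Field B] [NumberField B] [Field F] [NumberField F] [Algebra KK A] [Algebra KK B]
  [Algebra KK F] [Algebra A F] [Algebra B F] [IsScalarTower KK A F] [IsScalarTower KK B F]

theorem g2_unif (v : HeightOneSpectrum (𝓞 KK)) : ∃ x : KK, x ≠ 0 ∧ TWR.od v x ≠ 0 := by
  obtain ⟨π, hπ⟩ := v.valuation_exists_uniformizer KK
  refine ⟨π, ?_, ?_⟩
  · rintro rfl
    rw [map_zero] at hπ
    exact WithZero.exp_ne_zero hπ.symm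
  · unfold TWR.od
    rw [hπ]
    simp

theorem g2_nv (v : HeightOneSpectrum (𝓞 KK)) : 1 < TH.nv v := NAB.card_pos_quot v

/-- `{x | ρ x ∈ w}` -/
noncomputable def g2_sw {L : Type} [Field L] [NumberField L] [Algebra KK L] (ρ : L ≃ₐ[KK] L) (w : HeightOneSpectrum (𝓞 L)) :
    HeightOneSpectrum (𝓞 L) :=
  ⟨w.asIdeal.comap (MulSemiringAction.toRingHom (L ≃ₐ[KK] L) (𝓞 L) ρ), w.isPrime.comap _, by
    intro h
    obtain ⟨β, hβ, hβ0⟩ := Submodule.exists_mem_ne_zero_of_ne_bot w.ne_bot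
    have h1 : ρ⁻¹ • β ∈ w.asIdeal.comap (MulSemiringAction.toRingHom (L ≃ₐ[KK] L) (𝓞 L) ρ) := by
      rw [Ideal.mem_comap]
      change ρ • (ρ⁻¹ • β) ∈ w.asIdeal
      rw [smul_inv_smul]
      exact hβ
    rw [h, Ideal.mem_bot] at h1
    apply hβ0
    have h2 := congrArg (fun z => ρ • z) h1
    simpa using h2⟩

theorem g2_mem_sw {L : Type} [Field L] [NumberField L] [Algebra KK L] (ρ : L ≃ₐ[KK] L) (w : HeightOneSpectrum (𝓞 L)) (x : 𝓞 L) :
    x ∈ (g2_sw ρ w).asIdeal ↔ ρ • x ∈ w.asIdeal := Iff.rfl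

theorem g2_conj {L : Type} [Field L] [NumberField L] [Algebra KK L] [IsGalois KK L] (u u' : HeightOneSpectrum (𝓞 L)) (h : und KK u = und KK u') :
    ∃ τ : L ≃ₐ[KK] L, g2_sw τ u = u' := by
  have h1 : u.asIdeal.LiesOver (und KK u).asIdeal := ⟨rfl⟩
  have h2 : u'.asIdeal.LiesOver (und KK u).asIdeal := by rw [h]; exact ⟨rfl⟩
  have := u.isPrime
  have := u'.isPrime
  obtain ⟨σ, hσ⟩ := Ideal.exists_smul_eq_of_isGaloisGroup (und KK u).asIdeal u'.asIdeal u.asIdeal (L ≃ₐ[KK] L)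
  refine ⟨σ, ?_⟩
  apply HeightOneSpectrum.ext
  ext x
  rw [g2_mem_sw, ← hσ]
  exact Ideal.smul_mem_pointwise_smul_iff

theorem g2_coe {L : Type} [Field L] [NumberField L] [Algebra KK L] (σ : L ≃ₐ[KK] L) (a : 𝓞 L) : ((σ • a : 𝓞 L) : L) = σ (a : L) := rfl

theorem g2_surj (hA : IsGalois KK A) (hB : IsGalois KK B) (hC : Cmp A B F) (u₁ : HeightOneSpectrum (𝓞 A)) (u₂ : HeightOneSpectrum (𝓞 B))
    (h : und KK u₁ = und KK u₂) : ∃ w : HeightOneSpectrum (𝓞 F), und A w = u₁ ∧ und B w = u₂ := by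
  obtain ⟨w, hw⟩ := NAB.exists_above (F := F) u₁
  have h1 : und KK (und B w) = und KK u₂ := by
    rw [(tower (A := B) w).1, ← (tower (A := A) w).1, hw, h]
  obtain ⟨τ, hτ⟩ := g2_conj (und B w) u₂ h1
  obtain ⟨ρ, hρ1, hρ2⟩ := cmp_lift hA hB hC 1 τ
  refine ⟨g2_sw ρ w, ?_, ?_⟩
  · rw [← hw]
    apply HeightOneSpectrum.ext
    ext x
    rw [mem_und, mem_und, g2_mem_sw]
    have h2 : ρ • (algebraMap (𝓞 A) (𝓞 F) x) = algebraMap (𝓞 A) (𝓞 F) x := by
      apply RingOfIntegers.ext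
      rw [g2_coe]
      exact hρ1 (x : A)
    rw [h2]
  · rw [← hτ]
    apply HeightOneSpectrum.ext
    ext x
    rw [mem_und, g2_mem_sw, g2_mem_sw, mem_und]
    have h2 : ρ • (algebraMap (𝓞 B) (𝓞 F) x) = algebraMap (𝓞 B) (𝓞 F) (τ • x) := by
      apply RingOfIntegers.ext
      rw [g2_coe]
      exact hρ2 (x : B)
    rw [h2]

theorem g2_eq {a b c A B C : ℕ} (ha : 0 < a) (hb : 0 < b) (hc : 0 < c) (hA : a ≤ A) (hB : b ≤ B) (hC : c ≤ C) (h : A * (B * C) = a * (b * c)) :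
    A = a ∧ B = b ∧ C = c := by
  have h1 : b * c ≤ B * C := Nat.mul_le_mul hB hC
  have hbc : 0 < b * c := Nat.mul_pos hb hc
  have h2 : A = a := by
    rcases hA.lt_or_eq with h3 | h3
    · exfalso
      have := Nat.mul_lt_mul_of_lt_of_le h3 h1 (hbc.trans_le h1)
      omega
    · exact h3.symm
  subst h2
  have h4 : B * C = b * c := Nat.eq_of_mul_eq_mul_left ha h
  have h5 : B = b := by
    rcases hB.lt_or_eq with h3 | h3
    · exfalso
      have := Nat.mul_lt_mul_of_lt_of_le h3 hC (hc.trans_le hC)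
      omega
    · exact h3.symm
  subst h5
  exact ⟨rfl, rfl, Nat.eq_of_mul_eq_mul_left hb h4⟩

theorem cmp_count (hA : IsGalois KK A) (hB : IsGalois KK B) (hC : Cmp A B F) (hco : Nat.Coprime (Module.finrank KK A) (Module.finrank KK B))
    (v : HeightOneSpectrum (𝓞 KK)) {e₁ f₁ e₂ f₂ : ℕ}
    (h₁ : ∀ u : HeightOneSpectrum (𝓞 A), und KK u = v → TH.nv u = TH.nv v ^ f₁ ∧
      ∀ x : KK, x ≠ 0 → TWR.od u (algebraMap KK A x) = e₁ * TWR.od v x)
    (h₂ : ∀ u : HeightOneSpectrum (𝓞 B), und KK u = v → TH.nv u = TH.nv v ^ f₂ ∧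
      ∀ x : KK, x ≠ 0 → TWR.od u (algebraMap KK B x) = e₂ * TWR.od v x) :
    {w : HeightOneSpectrum (𝓞 F) | und KK w = v}.ncard =
      {u : HeightOneSpectrum (𝓞 A) | und KK u = v}.ncard * {u : HeightOneSpectrum (𝓞 B) | und KK u = v}.ncard ∧
    ∀ w : HeightOneSpectrum (𝓞 F), und KK w = v → TH.nv w = TH.nv v ^ (f₁ * f₂) ∧
      ∀ x : KK, x ≠ 0 → TWR.od w (algebraMap KK F x) = (e₁ * e₂ : ℕ) * TWR.od v x := by
  have hF := cmp_galois hA hB hC
  obtain ⟨eA, fA, gA, heA, hfA, hgA, hprA, hcA, -, hallA⟩ := CX.efg (F := A) v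
  obtain ⟨eB, fB, gB, heB, hfB, hgB, hprB, hcB, -, hallB⟩ := CX.efg (F := B) v
  obtain ⟨eF, fF, gF, heF, hfF, hgF, hprF, hcF, -, hallF⟩ := CX.efg (F := F) v
  obtain ⟨x₀, hx₀, hx₁⟩ := g2_unif v
  have hn := g2_nv v
  have hA' : eA = e₁ ∧ fA = f₁ := by
    obtain ⟨u, hu⟩ := NAB.exists_above (F := A) v
    obtain ⟨h3, h4⟩ := h₁ u hu
    obtain ⟨h5, h6, -, -⟩ := hallA u hu
    refine ⟨?_, Nat.pow_right_injective hn (h5.symm.trans h3)⟩
    have h7 := (h6 x₀ hx₀).symm.trans (h4 x₀ hx₀)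
    exact_mod_cast mul_right_cancel₀ hx₁ h7
  have hB' : eB = e₂ ∧ fB = f₂ := by
    obtain ⟨u, hu⟩ := NAB.exists_above (F := B) v
    obtain ⟨h3, h4⟩ := h₂ u hu
    obtain ⟨h5, h6, -, -⟩ := hallB u hu
    refine ⟨?_, Nat.pow_right_injective hn (h5.symm.trans h3)⟩
    have h7 := (h6 x₀ hx₀).symm.trans (h4 x₀ hx₀)
    exact_mod_cast mul_right_cancel₀ hx₁ h7
  obtain ⟨rfl, rfl⟩ := hA'
  obtain ⟨rfl, rfl⟩ := hB'
  have hdA : eA ∣ eF ∧ fA ∣ fF := by
    obtain ⟨w, hw⟩ := NAB.exists_above (F := F) v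
    obtain ⟨ht1, ⟨f', hf', ht2⟩, ⟨a, ha, ht3⟩⟩ := tower (A := A) w
    obtain ⟨h3, h4⟩ := h₁ (und A w) (ht1.trans hw)
    obtain ⟨h5, h6, -, -⟩ := hallF w hw
    constructor
    · refine ⟨a, ?_⟩
      have h7 := ht3 (algebraMap KK A x₀) (by simpa using hx₀)
      rw [← IsScalarTower.algebraMap_apply, h6 x₀ hx₀, h4 x₀ hx₀, ← mul_assoc] at h7
      have h8 := mul_right_cancel₀ hx₁ h7
      rw [mul_comm] at h8
      exact_mod_cast h8
    · refine ⟨f', ?_⟩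
      apply Nat.pow_right_injective hn
      show TH.nv v ^ fF = TH.nv v ^ (fA * f')
      rw [pow_mul, ← h3, ← ht2, h5]
  have hdB : eB ∣ eF ∧ fB ∣ fF := by
    obtain ⟨w, hw⟩ := NAB.exists_above (F := F) v
    obtain ⟨ht1, ⟨f', hf', ht2⟩, ⟨a, ha, ht3⟩⟩ := tower (A := B) w
    obtain ⟨h3, h4⟩ := h₂ (und B w) (ht1.trans hw)
    obtain ⟨h5, h6, -, -⟩ := hallF w hw
    constructor
    · refine ⟨a, ?_⟩
      have h7 := ht3 (algebraMap KK B x₀) (by simpa using hx₀)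
      rw [← IsScalarTower.algebraMap_apply, h6 x₀ hx₀, h4 x₀ hx₀, ← mul_assoc] at h7
      have h8 := mul_right_cancel₀ hx₁ h7
      rw [mul_comm] at h8
      exact_mod_cast h8
    · refine ⟨f', ?_⟩
      apply Nat.pow_right_injective hn
      show TH.nv v ^ fF = TH.nv v ^ (fB * f')
      rw [pow_mul, ← h3, ← ht2, h5]
  have hce : Nat.Coprime eA eB := by
    apply Nat.Coprime.of_dvd _ _ hco
    · rw [← hprA]; exact ⟨gA * fA, by ring⟩
    · rw [← hprB]; exact ⟨gB * fB, by ring⟩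
  have hcf : Nat.Coprime fA fB := by
    apply Nat.Coprime.of_dvd _ _ hco
    · rw [← hprA]; exact ⟨gA * eA, by ring⟩
    · rw [← hprB]; exact ⟨gB * eB, by ring⟩
  have he : eA * eB ≤ eF := Nat.le_of_dvd heF (hce.mul_dvd_of_dvd_of_dvd hdA.1 hdB.1)
  have hf : fA * fB ≤ fF := Nat.le_of_dvd hfF (hcf.mul_dvd_of_dvd_of_dvd hdA.2 hdB.2)
  have hg : gA * gB ≤ gF := by
    rw [← hcA, ← hcB, ← hcF, ← Set.ncard_prod]
    have hfin : {w : HeightOneSpectrum (𝓞 F) | und KK w = v}.Finite := by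
      apply Set.finite_of_ncard_pos
      rw [hcF]
      exact hgF
    have hsub : ({u : HeightOneSpectrum (𝓞 A) | und KK u = v} ×ˢ {u : HeightOneSpectrum (𝓞 B) | und KK u = v}) ⊆
        (fun w : HeightOneSpectrum (𝓞 F) => ((und A w, und B w) : HeightOneSpectrum (𝓞 A) × HeightOneSpectrum (𝓞 B))) ''
          {w : HeightOneSpectrum (𝓞 F) | und KK w = v} := by
      rintro ⟨u₁, u₂⟩ ⟨h3, h4⟩
      have h3' : und KK u₁ = v := h3
      have h4' : und KK u₂ = v := h4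
      obtain ⟨w, hw1, hw2⟩ := g2_surj hA hB hC u₁ u₂ (h3'.trans h4'.symm)
      refine ⟨w, ?_, ?_⟩
      · show und KK w = v
        rw [← (tower (A := A) w).1, hw1, h3']
      · show (und A w, und B w) = (u₁, u₂)
        rw [hw1, hw2]
    exact (Set.ncard_le_ncard hsub (hfin.image _)).trans (Set.ncard_image_le hfin)
  have hprod : gF * (eF * fF) = (gA * gB) * ((eA * eB) * (fA * fB)) := by
    rw [hprF, hC.rank, ← hprA, ← hprB]
    ring
  obtain ⟨h3, h4, h5⟩ := g2_eq (Nat.mul_pos hgA hgB) (Nat.mul_pos heA heB) (Nat.mul_pos hfA hfB) hg he hf hprod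
  refine ⟨?_, ?_⟩
  · rw [hcF, hcA, hcB, h3]
  · intro w hw
    obtain ⟨h6, h7, -, -⟩ := hallF w hw
    rw [← h4, ← h5]
    exact ⟨h6, h7⟩

end CY
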