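import Pool.Agent.CY.G1

/-!
# [CY-K1] the subfields of an abelian extension of exponent dividing 6

PROOF. `G = F ≃ₐ[KK] F` is commutative of exponent dividing `6 = l m`. `N_m = {σ | σ ^ m = 1}`, `N_l = {σ | σ ^ l = 1}` (subgroups, normal since `G` is commutative); `A` = fixed field of `N_m`, `B` = fixed field of `N_l` (`IntermediateField.fixedField`). `A / K` is Galois with group `G ⧸ N_m` (`IsGalois.of_fixedField_normal_subgroup`, `IsGalois.normalAutEquivQuotient`, restriction `AlgEquiv.restrictNormalHom` is onto): commutative, and `(σ^l)^m = 1` so `σ^l ∈ N_m`: exponent `l`. The same for `B`.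
`N_l ∩ N_m = 1` (`l`, `m` coprime), `N_l N_m = G` (`σ = (σ^l)^(±1) (σ^m)^(±1)`: `3 - 2 = 1`), so `A B = F` (the fixed field of `N_m ∩ N_l`; an automorphism fixing `A` and `B` is in both) and `[F : K] = |G| = |N_l| |N_m|`, `[A : K] = |G| / |N_m| = |N_l|`, `[B : K] = |N_m|`.
-/

set_option autoImplicit false

open NumberField IsDedekindDomain
open scoped Classical ComplexConjugate

namespace CY

open CX CM27 CMT NAB CF JD
open CU (la om eE)

/-- the subgroup of the automorphisms with `σ ^ k = 1` -/
def k1N {F : Type} [Field F] [NumberField F] [Algebra KK F] (hc : ∀ σ τ : F ≃ₐ[KK] F, σ * τ = τ * σ) (k : ℕ) :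
    Subgroup (F ≃ₐ[KK] F) where
  carrier := {σ | σ ^ k = 1}
  mul_mem' := by
    intro a b ha hb
    have h : Commute a b := hc a b
    show (a * b) ^ k = 1
    rw [h.mul_pow, show a ^ k = 1 from ha, show b ^ k = 1 from hb, one_mul]
  one_mem' := one_pow k
  inv_mem' := by
    intro a ha
    show (a⁻¹) ^ k = 1
    rw [inv_pow, show a ^ k = 1 from ha, inv_one]

theorem k1_sub {F : Type} [Field F] [NumberField F] [Algebra KK F] [FiniteDimensional KK F] (hG : IsGalois KK F)
    (hc : ∀ σ τ : F ≃ₐ[KK] F, σ * τ = τ * σ) (k j : ℕ) (hk : ∀ σ : F ≃ₐ[KK] F, (σ ^ j) ^ k = 1) :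
    IsGalois KK (IntermediateField.fixedField (k1N hc k)) ∧
      (∀ σ τ : (IntermediateField.fixedField (k1N hc k)) ≃ₐ[KK] (IntermediateField.fixedField (k1N hc k)), σ * τ = τ * σ) ∧
      (∀ σ : (IntermediateField.fixedField (k1N hc k)) ≃ₐ[KK] (IntermediateField.fixedField (k1N hc k)), σ ^ j = 1) := by
  have : (k1N hc k).Normal := ⟨fun a ha g => by
    have h : g * a * g⁻¹ = a := by
      rw [hc g a, mul_assoc, mul_inv_cancel, mul_one]
    rw [h]
    exact ha⟩
  have h1 : IsGalois KK (IntermediateField.fixedField (k1N hc k)) := IsGalois.of_fixedField_normal_subgroup _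
  have hs := AlgEquiv.restrictNormalHom_surjective (F := KK) (K₁ := (IntermediateField.fixedField (k1N hc k))) F
  refine ⟨h1, ?_, ?_⟩
  · intro σ τ
    obtain ⟨σ', rfl⟩ := hs σ
    obtain ⟨τ', rfl⟩ := hs τ
    rw [← map_mul, ← map_mul, hc]
  · intro σ
    obtain ⟨σ', rfl⟩ := hs σ
    rw [← map_pow]
    ext x
    have h2 := AlgEquiv.restrictNormal_commutes (σ' ^ j) (IntermediateField.fixedField (k1N hc k)) x
    have h3 : (σ' ^ j) (x : F) = (x : F) :=
      (IntermediateField.mem_fixedField_iff (k1N hc k) (x : F)).1 x.2 (σ' ^ j) (hk σ')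
    have h4 : algebraMap (IntermediateField.fixedField (k1N hc k)) F x = (x : F) := rfl
    rw [h4, h3] at h2
    exact h2

theorem exists_sub {F : Type} [Field F] [NumberField F] [Algebra KK F] {l m : ℕ} (hl : l = 2 ∨ l = 3) (hm : l * m = 6) (hG : IsGalois KK F)
    (hc : ∀ σ τ : F ≃ₐ[KK] F, σ * τ = τ * σ) (h6 : ∀ σ : F ≃ₐ[KK] F, σ ^ 6 = 1) :
    ∃ A B : IntermediateField KK F, Cmp A B F ∧ IsGalois KK A ∧ IsGalois KK B ∧
      (∀ σ τ : A ≃ₐ[KK] A, σ * τ = τ * σ) ∧ (∀ σ : A ≃ₐ[KK] A, σ ^ l = 1) ∧
      (∀ σ τ : B ≃ₐ[KK] B, σ * τ = τ * σ) ∧ (∀ σ : B ≃ₐ[KK] B, σ ^ m = 1) ∧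
      ∀ x : F, x ∈ B ↔ ∀ σ : F ≃ₐ[KK] F, σ ^ l = 1 → σ x = x := by
  have hfin : FiniteDimensional KK F := FiniteDimensional.right ℚ KK F
  have hml : m * l = 6 := by rw [mul_comm]; exact hm
  have hA := k1_sub hG hc m l (fun σ => by rw [← pow_mul, hm]; exact h6 σ)
  have hB := k1_sub hG hc l m (fun σ => by rw [← pow_mul, hml]; exact h6 σ)
  have hdis : ∀ σ : F ≃ₐ[KK] F, σ ^ l = 1 → σ ^ m = 1 → σ = 1 := by
    intro σ h1 h2
    have h23 : (σ ^ 2 = 1) ∧ (σ ^ 3 = 1) := by
      rcases hl with rfl | rfl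
      · have : m = 3 := by omega
        subst this
        exact ⟨h1, h2⟩
      · have : m = 2 := by omega
        subst this
        exact ⟨h2, h1⟩
    have h3 : σ ^ 3 = σ ^ 2 * σ := pow_succ σ 2
    rw [h23.1, h23.2, one_mul] at h3
    exact h3.symm
  have hprod : ∀ σ : F ≃ₐ[KK] F, ∃ a ∈ k1N hc l, ∃ b ∈ k1N hc m, a * b = σ := by
    intro σ
    have e2 : (σ ^ 3) ^ 2 = 1 := by rw [← pow_mul]; exact h6 σ
    have e3 : ((σ ^ 2)⁻¹) ^ 3 = 1 := by rw [inv_pow, ← pow_mul, h6 σ, inv_one]
    have e4 : σ ^ 3 * (σ ^ 2)⁻¹ = σ := by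
      rw [pow_succ' σ 2, mul_assoc, mul_inv_cancel, mul_one]
    rcases hl with rfl | rfl
    · have : m = 3 := by omega
      subst this
      exact ⟨σ ^ 3, e2, (σ ^ 2)⁻¹, e3, e4⟩
    · have : m = 2 := by omega
      subst this
      exact ⟨(σ ^ 2)⁻¹, e3, σ ^ 3, e2, by rw [hc]; exact e4⟩
  have hcompl : Subgroup.IsComplement' (k1N hc l) (k1N hc m) := by
    refine Subgroup.isComplement'_of_disjoint_and_mul_eq_univ ?_ ?_
    · rw [Subgroup.disjoint_def]
      intro x hx hx'
      exact hdis x hx hx'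
    · rw [Set.eq_univ_iff_forall]
      intro σ
      obtain ⟨a, ha, b, hb, h⟩ := hprod σ
      exact Set.mem_mul.2 ⟨a, ha, b, hb, h⟩
  have hcard := hcompl.card_mul_card
  have cG : Nat.card (F ≃ₐ[KK] F) = Module.finrank KK F := IsGalois.card_aut_eq_finrank KK F
  have cA : Module.finrank (IntermediateField.fixedField (k1N hc m)) F = Nat.card (k1N hc m) :=
    IntermediateField.finrank_fixedField_eq_card _
  have cB : Module.finrank (IntermediateField.fixedField (k1N hc l)) F = Nat.card (k1N hc l) :=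
    IntermediateField.finrank_fixedField_eq_card _
  have mA := Module.finrank_mul_finrank KK (IntermediateField.fixedField (k1N hc m)) F
  have mB := Module.finrank_mul_finrank KK (IntermediateField.fixedField (k1N hc l)) F
  refine ⟨IntermediateField.fixedField (k1N hc m), IntermediateField.fixedField (k1N hc l), ⟨?_, ?_⟩, hA.1, hB.1,
    hA.2.1, hA.2.2, hB.2.1, hB.2.2, ?_⟩
  · rw [cA] at mA
    rw [cB] at mB
    rw [cG] at hcard
    have hpos : 0 < Module.finrank KK F := Module.finrank_pos
    generalize Module.finrank KK F = g at *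
    generalize Nat.card (k1N hc m) = x at *
    generalize Nat.card (k1N hc l) = y at *
    generalize Module.finrank KK (IntermediateField.fixedField (k1N hc m)) = u at *
    generalize Module.finrank KK (IntermediateField.fixedField (k1N hc l)) = w at *
    have h1 : g * g = (u * w) * g := by
      calc g * g = (u * x) * (w * y) := by rw [mA, mB]
        _ = (u * w) * (y * x) := by ring
        _ = (u * w) * g := by rw [hcard]
    exact Nat.eq_of_mul_eq_mul_right hpos h1
  · have h1 : IntermediateField.fixingSubgroup (IntermediateField.adjoin KK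
        (Set.range (algebraMap (IntermediateField.fixedField (k1N hc m)) F) ∪
          Set.range (algebraMap (IntermediateField.fixedField (k1N hc l)) F))) = ⊥ := by
      rw [eq_bot_iff]
      intro σ hσ
      rw [IntermediateField.mem_fixingSubgroup_iff] at hσ
      have hfix : ∀ k, Set.range (algebraMap (IntermediateField.fixedField (k1N hc k)) F) ⊆
          (IntermediateField.adjoin KK
        (Set.range (algebraMap (IntermediateField.fixedField (k1N hc m)) F) ∪
          Set.range (algebraMap (IntermediateField.fixedField (k1N hc l)) F)) : Set F) →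
          σ ∈ k1N hc k := by
        intro k hk
        rw [← IntermediateField.fixingSubgroup_fixedField (k1N hc k), IntermediateField.mem_fixingSubgroup_iff]
        intro x hx
        exact hσ x (hk ⟨⟨x, hx⟩, rfl⟩)
      have h2 := hfix m ((Set.subset_union_left).trans (IntermediateField.subset_adjoin _ _))
      have h3 := hfix l ((Set.subset_union_right).trans (IntermediateField.subset_adjoin _ _))
      exact Subgroup.mem_bot.2 (hdis σ h3 h2)
    rw [← IsGalois.fixedField_fixingSubgroup (IntermediateField.adjoin KK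
        (Set.range (algebraMap (IntermediateField.fixedField (k1N hc m)) F) ∪
          Set.range (algebraMap (IntermediateField.fixedField (k1N hc l)) F))), h1]
    exact IntermediateField.fixedField_bot
  · intro x
    rw [IntermediateField.mem_fixedField_iff]
    rfl

end CY
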