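import Pool.Agent.CY.T1
import Pool.Agent.CX.T7
import Pool.Agent.CX.L10
import Pool.Agent.CX.C3a

/-!
# [CY-T2] the twists at the places above 6; the local identity

PROOF. `dat_tw`: `D * dx e ψ ^ l ≠ 0`, the other fields are those of `hD`. `six_twist2`: `CX.six_twist` for `dat_tw` (the data `D * dx e ψ ^ l`, `d`) and for `hE` (the data `m, l, D, e`): two steps. `kap6_tw`: `finprod_congr`, `six_twist` for `hE`. `loc_six2`: as `CX.loc_six` (CX/L10.lean): `f w = 1`, all factors are equal to the factor of `ED (jK D)`, there are `l ^ n * m ^ b` of them on both sides (`count_six2`, `Fintype.card_prod`).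
-/

set_option autoImplicit false

open NumberField IsDedekindDomain
open scoped Classical ComplexConjugate

namespace CY

open CX CM27 CMT NAB CF JD
open CU (la om eE)

variable {A B F : Type} [Field A] [NumberField A] [Field B] [NumberField B] [Field F] [NumberField F] [Algebra KK A] [Algebra KK B]
  [Algebra KK F] [Algebra A F] [Algebra B F] [IsScalarTower KK A F] [IsScalarTower KK B F]
  {l m n b : ℕ} [NeZero l] [NeZero m] {d : Fin n → Eis} {e : Fin b → Eis} {δ : Fin n → A} {ε : Fin b → B} {D : Eis}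

theorem dat_tw (hD : Dat0 l m D d) (he : ∀ i, e i ≠ 0) (ψ : Fin b → ZMod m) : Dat0 l m (D * dx e ψ ^ l) d := by
  refine ⟨hD.lm, ?_, hD.cop, hD.loc⟩
  have : IsDomain Eis := CM27.eis_isDomain
  exact mul_ne_zero hD.ne0 (pow_ne_zero _ (Finset.prod_ne_zero_iff.2 fun i _ => pow_ne_zero _ (he i)))

theorem six_twist2 (hD : Dat0 l m D d) (hE : Dat0 m l D e) (he : ∀ i, e i ≠ 0) (v : HeightOneSpectrum (𝓞 KK)) (h6 : (6 : 𝓞 KK) ∈ v.asIdeal)
    (ψ : Fin b → ZMod m) (χ : Fin n → ZMod l) :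
    SBSD.tam (ED (jK (D * dx e ψ ^ l * dx d χ ^ m))) v = SBSD.tam (ED (jK D)) v ∧
    SBSD.neron (ED (jK (D * dx e ψ ^ l * dx d χ ^ m))) v = SBSD.neron (ED (jK D)) v ∧
    ((ED (jK (D * dx e ψ ^ l * dx d χ ^ m))).baseChange (v.adicCompletion KK)).localPolynomial (v.adicCompletionIntegers KK) =
      ((ED (jK D)).baseChange (v.adicCompletion KK)).localPolynomial (v.adicCompletionIntegers KK) := by
  obtain ⟨h1, h2, h3⟩ := CX.six_twist (dat_tw hD he ψ) v h6 χ
  obtain ⟨h4, h5, h7⟩ := CX.six_twist hE v h6 ψ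
  exact ⟨h1.trans h4, h2.trans h5, h3.trans h7⟩

theorem kap6_tw (hE : Dat0 m l D e) (ψ : Fin b → ZMod m) : kap6 (D * dx e ψ ^ l) = kap6 D := by
  unfold kap6
  refine finprod_congr fun v => ?_
  by_cases h6 : (6 : 𝓞 KK) ∈ v.asIdeal
  · rw [if_pos h6, if_pos h6, (CX.six_twist hE v h6 ψ).2.1]
  · rw [if_neg h6, if_neg h6]

/-- [T2] helper -/
theorem T2_below (hD : Dat0 l m D d) (hE : Dat0 m l D e) (hK : Kum l n d δ) (hM : Kum m b e ε) (hC : Cmp A B F)
    (v : HeightOneSpectrum (𝓞 KK)) (h6 : (6 : 𝓞 KK) ∈ v.asIdeal) (w : HeightOneSpectrum (𝓞 F)) (hw : und KK w = v) :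
    ∃ φ : v.adicCompletion KK →+* w.adicCompletion F, Below v w φ ∧ Function.Surjective φ := by
  have h6w : (6 : 𝓞 F) ∈ w.asIdeal := by
    have h1 : (6 : 𝓞 KK) ∈ (und KK w).asIdeal := by
      rw [hw]
      exact h6
    rw [mem_und, map_ofNat] at h1
    exact h1
  obtain ⟨v', φ, h⟩ := JD.exists_Below w
  have hv : v' = v := (tr_und h).symm.trans hw
  subst hv
  exact ⟨φ, h, surj_six2 hD hE hK hM hC v' w h6w φ h⟩

theorem loc_six2 (hD : Dat0 l m D d) (hE : Dat0 m l D e) (hK : Kum l n d δ) (hM : Kum m b e ε) (hC : Cmp A B F)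
    (v : HeightOneSpectrum (𝓞 KK)) (h6 : (6 : 𝓞 KK) ∈ v.asIdeal)
    (S : Finset (HeightOneSpectrum (𝓞 F))) (hS : ∀ w, w ∈ S ↔ und KK w = v) :
    ∃ f : HeightOneSpectrum (𝓞 F) → ℕ, (∀ w ∈ S, 0 < f w ∧ TH.nv w = TH.nv v ^ f w) ∧
    ∏ w ∈ S, Polynomial.expand ℤ (f w)
      (((ED (jF F D)).baseChange (w.adicCompletion F)).localPolynomial (w.adicCompletionIntegers F)) =
    ∏ p : (Fin b → ZMod m) × (Fin n → ZMod l), ((ED (jK (D * dx e p.1 ^ l * dx d p.2 ^ m))).baseChange (v.adicCompletion KK)).localPolynomial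
      (v.adicCompletionIntegers KK) := by
  have hb : ∀ w ∈ S, ∃ φ : v.adicCompletion KK →+* w.adicCompletion F, Below v w φ ∧ Function.Surjective φ :=
    fun w hw => T2_below hD hE hK hM hC v h6 w ((hS w).1 hw)
  refine ⟨fun _ => 1, fun w hw => ?_, ?_⟩
  · obtain ⟨φ, h, hs⟩ := hb w hw
    exact ⟨one_pos, by rw [pow_one, tr_nv h hs]⟩
  · have h1 : ∀ w ∈ S, Polynomial.expand ℤ 1
        (((ED (jF F D)).baseChange (w.adicCompletion F)).localPolynomial (w.adicCompletionIntegers F)) =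
        ((ED (jK D)).baseChange (v.adicCompletion KK)).localPolynomial (v.adicCompletionIntegers KK) := by
      intro w hw
      obtain ⟨φ, h, hs⟩ := hb w hw
      rw [Polynomial.expand_one, tr_poly h hs hD.ne0]
    have h3 : ∀ p ∈ (Finset.univ : Finset ((Fin b → ZMod m) × (Fin n → ZMod l))),
        ((ED (jK (D * dx e p.1 ^ l * dx d p.2 ^ m))).baseChange (v.adicCompletion KK)).localPolynomial (v.adicCompletionIntegers KK) =
          ((ED (jK D)).baseChange (v.adicCompletion KK)).localPolynomial (v.adicCompletionIntegers KK) :=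
      fun p _ => (six_twist2 hD hE hM.ne v h6 p.1 p.2).2.2
    rw [Finset.prod_congr rfl h1, Finset.prod_congr rfl h3, Finset.prod_const, Finset.prod_const]
    congr 1
    have h2 : (S : Set (HeightOneSpectrum (𝓞 F))) = {w | und KK w = v} := by
      ext w
      exact hS w
    rw [← Set.ncard_coe_finset, h2, (count_six2 hD hE hK hM hC v h6).1, Finset.card_univ, Fintype.card_eq_nat_card, Nat.card_prod,
      Nat.card_fun, Nat.card_fun, Nat.card_zmod, Nat.card_zmod, Nat.card_fin, Nat.card_fin, mul_comm]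

end CY
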