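import Pool.Agent.CY.K1
import Pool.Agent.CY.K2
import Pool.Agent.CY.T2
import Pool.Agent.CX.K3

/-!
# [CY-K3] from the hypotheses on the field to the data

PROOF. `exists_sub`: `A`, `B`. `CX.exists_kum` for `A` (`l`) and `B` (`m`): `n, d, δ`, `b, e, ε`, `Kum`, the `d_i` free of `l`-th powers, the `e_j` free of `m`-th powers of primes. `split_sub`: the places over 6 split completely in `A` and `B`; `kum_split`, `kum_ramified` (CX/K3a.lean) as in the proof of `CX.dat_of_nice` give `cop` and `loc` for `d` (`l`) and for `e` (`m`): `Dat0 l m D d`, `Dat0 m l D e`; `dat_tw`.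
`prim`: if `x ^ m = D e_ψ^l` in `KK` then in `F`, with `t = (dl ε ψ : B)`, `t ^ m = e_ψ`: `D = (x / t ^ l) ^ m`, so `E` has a point of order `l` over `F` (`CX.noPt_iff` over `F`), against `hN.noPt` (`(ED (jK D)).baseChange F = ED (jF F D)`: `JD.ED_map`). `npt`: `eE (d_i) ∈ v`: `kum_ramified`: a place `u` of `A` with `v.map ≤ u²`; `6 ∉ v` (`cop`); take `w` of `F` over `v` (`NAB.exists_above`), `ram_up`: `Ram l v w`, so `hN.ramified`: no point of order `l` over `F_w`, i.e. (`noPt_iff`)
`D` is not an `m`-th power in `F_w`; if `x ^ m = D e_ψ^l` in `K_v` then with `φ` of `JD.exists_Below w` (`tr_und`): `D = (φ x / t ^ l) ^ m` in `F_w`, a contradiction.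
-/

set_option autoImplicit false

open NumberField IsDedekindDomain
open scoped Classical ComplexConjugate

namespace CY

open CX CM27 CMT NAB CF JD
open CU (la om eE)

theorem k3_dxF {B F : Type} [Field B] [NumberField B] [Field F] [NumberField F] [Algebra KK B] [Algebra KK F] [Algebra B F] [IsScalarTower KK B F]
    {m b : ℕ} {e : Fin b → Eis} {ε : Fin b → B} (hM : Kum m b e ε) (ψ : Fin b → ZMod m) :
    (algebraMap B F (dl ε ψ)) ^ m = algebraMap KK F (jK (dx e ψ)) := by
  rw [← map_pow, dl_pow hM, jF_apply, ← IsScalarTower.algebraMap_apply KK B F]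

theorem k3_om {L : Type} [Field L] [Algebra KK L] : ∃ o : L, o ^ 2 + o + 1 = 0 := by
  refine ⟨algebraMap KK L (jK om), ?_⟩
  have h2 : (om ^ 2 + om + 1 : Eis) = 0 := by
    decide
  rw [← map_pow, ← map_add, ← map_pow, ← map_add, ← map_one (algebraMap KK L),
    ← map_one jK, ← map_add, ← map_add, h2, map_zero, map_zero]

theorem k3_alg {L : Type} [Field L] {m l : ℕ} {x D t : L} (ht : t ≠ 0) (h : x ^ m = D * (t ^ m) ^ l) :
    (x / t ^ l) ^ m = D := by
  rw [div_pow, h, ← pow_mul, ← pow_mul, mul_comm m l, mul_div_assoc, div_self (pow_ne_zero _ ht), mul_one]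

theorem exists_data {F : Type} [Field F] [NumberField F] [Algebra KK F] {l m : ℕ} (hl : l = 2 ∨ l = 3) (hm : l * m = 6) {D : Eis} (hD : D ≠ 0)
    (hN : Nice6 l (ED (jK D)) F) :
    ∃ (A B : IntermediateField KK F) (n b : ℕ) (d : Fin n → Eis) (e : Fin b → Eis) (δ : Fin n → A) (ε : Fin b → B),
      Kum l n d δ ∧ Kum m b e ε ∧ Cmp A B F ∧ (∀ ψ : Fin b → ZMod m, Dat l m (D * dx e ψ ^ l) d) ∧ Dat0 l m D d ∧ Dat0 m l D e ∧
      ∀ x : F, x ∈ B ↔ ∀ σ : F ≃ₐ[KK] F, σ ^ l = 1 → σ x = x := by
  have hlz : NeZero l := ⟨by rcases hl with rfl | rfl <;> norm_num⟩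
  have hml : m = 2 ∨ m = 3 := by rcases hl with rfl | rfl <;> omega
  have hmz : NeZero m := ⟨by rcases hml with rfl | rfl <;> norm_num⟩
  have hm2 : m * l = 6 := by rw [mul_comm]; exact hm
  obtain ⟨A, B, hC, gA, gB, cA, eA, cB, eB, hx⟩ := exists_sub hl hm hN.galois hN.comm hN.exponent
  obtain ⟨n, d, δ, hK, hfd⟩ := CX.exists_kum hl gA cA eA
  obtain ⟨b, e, ε, hM, hfe⟩ := CX.exists_kum hml gB cB eB
  have hsA : ∀ v : HeightOneSpectrum (𝓞 KK), (6 : 𝓞 KK) ∈ v.asIdeal →
      (v.asIdeal.primesOver (𝓞 A)).ncard = Module.finrank KK A :=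
    fun v h6 => split_sub gA hN.galois v (hN.split v h6)
  have hsB : ∀ v : HeightOneSpectrum (𝓞 KK), (6 : 𝓞 KK) ∈ v.asIdeal →
      (v.asIdeal.primesOver (𝓞 B)).ncard = Module.finrank KK B :=
    fun v h6 => split_sub gB hN.galois v (hN.split v h6)
  have hD0 : Dat0 l m D d := by
    refine ⟨⟨hm, hl⟩, hD, ?_, ?_⟩
    · intro v h6 i hi
      exact (kum_split hl hK v (hsA v h6) i).1 (kum_ramified hl hK hfd v i hi)
    · intro v h6 i
      exact (kum_split hl hK v (hsA v h6) i).2
  have hE0 : Dat0 m l D e := by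
    refine ⟨⟨hm2, hml⟩, hD, ?_, ?_⟩
    · intro v h6 i hi
      exact (kum_split hml hM v (hsB v h6) i).1 (kum_ramified hml hM hfe v i hi)
    · intro v h6 i
      exact (kum_split hml hM v (hsB v h6) i).2
  refine ⟨A, B, n, b, d, e, δ, ε, hK, hM, hC, ?_, hD0, hE0, hx⟩
  intro ψ
  have hdt := dat_tw hD0 hM.ne ψ
  have ht0 : algebraMap B F (dl ε ψ) ≠ 0 := fun h => dl_ne hml hM ψ ((map_eq_zero_iff _ (algebraMap B F).injective).mp h)
  have htm := k3_dxF (F := F) hM ψ
  have hchF : CharZero F := charZero_of_injective_algebraMap (algebraMap ℚ F).injective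
  have hDF : algebraMap KK F (jK D) ≠ 0 := by
    intro h0
    rw [map_eq_zero_iff _ (algebraMap KK F).injective, map_eq_zero_iff _ jK_inj] at h0
    exact hD h0
  refine ⟨hdt, ?_, ?_⟩
  · have hD1 : jK (D * dx e ψ ^ l) ≠ 0 := by
      intro h0
      rw [map_eq_zero_iff _ jK_inj] at h0
      exact hdt.ne0 h0
    refine (noPt_iff (L := KK) hD1 k3_om hl hm).2 ?_
    intro x hxe
    have h1 : Np l (ED (algebraMap KK F (jK D))) := by
      have h1 := hN.noPt
      unfold WeierstrassCurve.baseChange at h1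
      rw [ED_map] at h1
      exact h1
    refine (noPt_iff hDF k3_om hl hm).1 h1 (algebraMap KK F x / (algebraMap B F (dl ε ψ)) ^ l) ?_
    refine k3_alg ht0 ?_
    rw [htm, ← map_pow, hxe, map_mul, map_pow, map_mul, map_pow]
  · intro v i hi x hxe
    have h6 : (6 : 𝓞 KK) ∉ v.asIdeal := fun h6 => hD0.cop v h6 i hi
    obtain ⟨u, hu⟩ := kum_ramified hl hK hfd v i hi
    obtain ⟨w, hw⟩ := NAB.exists_above (k := KK) (F := F) v
    have hram := ram_up hl hK hN.galois v h6 u hu w hw
    have h1 := hN.ramified v w hram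
    obtain ⟨v', φ, hB⟩ := exists_Below w
    have hv' : v' = v := (tr_und hB).symm.trans hw
    subst hv'
    have hinj : Function.Injective (algebraMap F (w.adicCompletion F)) :=
      (algebraMap F (w.adicCompletion F)).injective
    have hch : CharZero (w.adicCompletion F) := charZero_of_injective_algebraMap hinj
    have hDw : algebraMap F (w.adicCompletion F) (algebraMap KK F (jK D)) ≠ 0 := by
      intro h0
      rw [map_eq_zero_iff _ hinj] at h0
      exact hDF h0
    have ho : ∃ o : w.adicCompletion F, o ^ 2 + o + 1 = 0 := by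
      obtain ⟨o, ho⟩ := k3_om (L := F)
      refine ⟨algebraMap F (w.adicCompletion F) o, ?_⟩
      rw [← map_pow, ← map_add, ← map_one (algebraMap F (w.adicCompletion F)), ← map_add, ho, map_zero]
    have h2 : Np l (ED (algebraMap F (w.adicCompletion F) (algebraMap KK F (jK D)))) := by
      unfold NoPt at h1
      unfold WeierstrassCurve.baseChange at h1
      rw [ED_map, ED_map] at h1
      exact h1
    have htw : algebraMap F (w.adicCompletion F) (algebraMap B F (dl ε ψ)) ≠ 0 := by
      intro h0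
      rw [map_eq_zero_iff _ hinj] at h0
      exact ht0 h0
    refine (noPt_iff hDw ho hl hm).1 h2 (φ x / (algebraMap F (w.adicCompletion F) (algebraMap B F (dl ε ψ))) ^ l) ?_
    refine k3_alg htw ?_
    rw [← map_pow (algebraMap F (w.adicCompletion F)), htm, ← map_pow, hxe, hB.comm, map_mul, map_pow, map_mul, map_pow, map_mul,
      map_pow]

end CY
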