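import Pool.Agent.CX.L8

/-!
# [CY-L0] the algebraic identity of the local factors, mixed case

PROOF. `prod_roots2`: for fixed `z' ∈ S` `CX.prod_roots` with `x` replaced by `z'^l x`: the product over `z ∈ R` is `expand f₁ (Q ((z'^l x)^f₁)) = expand f₁ (Q (y_{z'}^l x^f₁))`, `y_{z'} = z'^f₁`; `z' ↦ z'^f₁` is a bijection of `S` (`S` is the group of the `f₂`-th roots of unity of `Eis`, `f₁` is prime to `f₂`: `f₁ ∈ {1, l}`, `f₂ ∈ {1, m}`, `l m = 6`);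
`CX.prod_roots` for `(m, l, f₂)` (`m = 2 ∨ m = 3`, `m l = 6`) and `x^f₁`: `expand f₂ (Q ((x^f₁)^f₂))`; `Polynomial.expand_mul`/`expand_expand`. `prod_fib2`: as `CX.prod_fib`: group the pairs `(i, j)` with `S i z`, `T j z'` by `(z, z')` (`g₁ g₂` pairs for each `(z, z')`), the other factors are `1`.
-/

set_option autoImplicit false

open NumberField IsDedekindDomain
open scoped Classical ComplexConjugate

namespace CY

open CX CM27 CMT NAB CF JD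
open CU (la om eE)

theorem L0_inv {l m f₁ f₂ : ℕ} (hl : l = 2 ∨ l = 3) (hm : l * m = 6) (h₁ : f₁ = 1 ∨ f₁ = l)
    (h₂ : f₂ = 1 ∨ f₂ = m) : ∃ u t : ℕ, f₁ * u = 1 + f₂ * t := by
  rcases h₁ with rfl | rfl
  · exact ⟨1, 0, by ring⟩
  · rcases h₂ with rfl | rfl
    · rcases hl with rfl | rfl
      · exact ⟨1, 1, rfl⟩
      · exact ⟨1, 2, rfl⟩
    · rcases hl with rfl | rfl
      · have : f₂ = 3 := by omega
        subst this
        exact ⟨2, 1, rfl⟩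
      · have : f₂ = 2 := by omega
        subst this
        exact ⟨1, 1, rfl⟩

theorem L0_m {l m : ℕ} (hl : l = 2 ∨ l = 3) (hm : l * m = 6) : m = 2 ∨ m = 3 := by
  rcases hl with rfl | rfl <;> omega

theorem prod_roots2 {l m f₁ f₂ : ℕ} (hl : l = 2 ∨ l = 3) (hm : l * m = 6) (h₁ : f₁ = 1 ∨ f₁ = l) (h₂ : f₂ = 1 ∨ f₂ = m) (x : Eis)
    (R S : Finset Eis) (hR : ∀ z, z ∈ R ↔ z ^ f₁ = 1) (hS : ∀ z, z ∈ S ↔ z ^ f₂ = 1) :
    ∏ z' ∈ S, ∏ z ∈ R, Q (z ^ m * (z' ^ l * x)) = Polynomial.expand ℂ (f₁ * f₂) (Q (x ^ (f₁ * f₂))) := by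
  have e1 : ∀ z' ∈ S, ∏ z ∈ R, Q (z ^ m * (z' ^ l * x)) =
      Polynomial.expand ℂ f₁ (Q ((z' ^ f₁) ^ l * x ^ f₁)) := by
    intro z' _
    rw [prod_roots hl hm h₁ (z' ^ l * x) R hR, mul_pow, ← pow_mul, ← pow_mul, mul_comm l f₁]
  rw [Finset.prod_congr rfl e1, ← map_prod]
  obtain ⟨u, t, hut⟩ := L0_inv hl hm h₁ h₂
  have hz : ∀ z ∈ S, z ^ (f₁ * u) = z := by
    intro z hz
    rw [hut, pow_add, pow_one, pow_mul, (hS z).1 hz, one_pow, mul_one]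
  have e2 : ∏ z' ∈ S, Q ((z' ^ f₁) ^ l * x ^ f₁) = ∏ z' ∈ S, Q (z' ^ l * x ^ f₁) := by
    refine Finset.prod_nbij' (fun z => z ^ f₁) (fun z => z ^ u) ?_ ?_ ?_ ?_ ?_
    · intro z hzS
      rw [hS, ← pow_mul, mul_comm, pow_mul, (hS z).1 hzS, one_pow]
    · intro z hzS
      rw [hS, ← pow_mul, mul_comm, pow_mul, (hS z).1 hzS, one_pow]
    · intro z hzS
      show (z ^ f₁) ^ u = z
      rw [← pow_mul]
      exact hz z hzS
    · intro z hzS
      show (z ^ u) ^ f₁ = z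
      rw [← pow_mul, mul_comm]
      exact hz z hzS
    · intro z _
      rfl
  rw [e2, prod_roots (L0_m hl hm) (by rw [mul_comm]; exact hm) h₂ (x ^ f₁) S hS,
    Polynomial.expand_expand, ← pow_mul]

theorem L0_fib {ι : Type} [Fintype ι] {f g : ℕ} (R : Finset Eis) (hR : ∀ z, z ∈ R ↔ z ^ f = 1)
    (P : ι → Polynomial ℂ) (H : Eis → Polynomial ℂ) (S : ι → Eis → Prop)
    (hu : ∀ i z z', S i z → S i z' → z = z') (h1 : ∀ i z, S i z → z ^ f = 1)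
    (h2 : ∀ i z, S i z → P i = H z) (h3 : ∀ i, (¬ ∃ z, S i z) → P i = 1)
    (h4 : ∀ z, z ^ f = 1 → {i | S i z}.ncard = g) :
    ∏ i, P i = (∏ z ∈ R, H z) ^ g := by
  rw [← Finset.prod_pow]
  have hc : ∏ i, P i = ∏ i ∈ Finset.univ.filter (fun i => ∃ z, S i z), P i := by
    symm
    apply Finset.prod_subset (Finset.filter_subset _ _)
    intro i _ hi
    apply h3
    intro hex
    exact hi (Finset.mem_filter.2 ⟨Finset.mem_univ i, hex⟩)
  rw [hc]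
  have hch : ∀ i, ∃ z, (∃ z, S i z) → S i z := by
    intro i
    by_cases hi : ∃ z, S i z
    · obtain ⟨z, hz⟩ := hi
      exact ⟨z, fun _ => hz⟩
    · exact ⟨0, fun h => absurd h hi⟩
  choose c hcS using hch
  rw [← Finset.prod_fiberwise_of_maps_to (s := Finset.univ.filter (fun i => ∃ z, S i z)) (t := R) (g := c)
    (fun i hi => (hR _).2 (h1 i _ (hcS i (Finset.mem_filter.1 hi).2)))]
  apply Finset.prod_congr rfl
  intro z hz
  have hz1 := (hR z).1 hz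
  have hset : {i | S i z} = ((Finset.univ.filter (fun i => ∃ z, S i z)).filter (fun i => c i = z) : Finset ι) := by
    ext i
    simp only [Set.mem_ofPred_eq, Finset.coe_filter, Finset.mem_filter, Finset.mem_univ, true_and]
    constructor
    · intro hi
      exact ⟨⟨z, hi⟩, hu i _ _ (hcS i ⟨z, hi⟩) hi⟩
    · rintro ⟨hi, rfl⟩
      exact hcS i hi
  have hcard := h4 z hz1
  rw [hset, Set.ncard_coe_finset] at hcard
  rw [← hcard]
  apply Finset.prod_eq_pow_card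
  intro i hi
  rw [Finset.mem_filter, Finset.mem_filter] at hi
  have := hcS i hi.1.2
  rw [hi.2] at this
  exact h2 i z this

theorem prod_fib2 {ι κ : Type} [Fintype ι] [Fintype κ] {l m f₁ f₂ g₁ g₂ : ℕ} (hl : l = 2 ∨ l = 3) (hm : l * m = 6) (h₁ : f₁ = 1 ∨ f₁ = l)
    (h₂ : f₂ = 1 ∨ f₂ = m) (x : Eis) (P : ι → κ → Polynomial ℂ) (S : ι → Eis → Prop) (T : κ → Eis → Prop)
    (hS : ∀ i z z', S i z → S i z' → z = z') (hT : ∀ j z z', T j z → T j z' → z = z')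
    (hS1 : ∀ i z, S i z → z ^ f₁ = 1) (hT1 : ∀ j z, T j z → z ^ f₂ = 1)
    (hP : ∀ i j z z', S i z → T j z' → P i j = Q (z ^ m * (z' ^ l * x)))
    (hP1 : ∀ i j, ((¬ ∃ z, S i z) ∨ ¬ ∃ z, T j z) → P i j = 1)
    (hS2 : ∀ z, z ^ f₁ = 1 → {i | S i z}.ncard = g₁) (hT2 : ∀ z, z ^ f₂ = 1 → {j | T j z}.ncard = g₂) :
    ∏ i, ∏ j, P i j = (Polynomial.expand ℂ (f₁ * f₂) (Q (x ^ (f₁ * f₂)))) ^ (g₁ * g₂) := by
  obtain ⟨R₁, hR₁⟩ := exists_roots hl h₁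
  obtain ⟨R₂, hR₂⟩ := exists_roots (L0_m hl hm) h₂
  rw [L0_fib R₁ hR₁ (fun i => ∏ j, P i j)
    (fun z => (∏ z' ∈ R₂, Q (z ^ m * (z' ^ l * x))) ^ g₂) S hS hS1 ?_ ?_ hS2,
    Finset.prod_pow, Finset.prod_comm, prod_roots2 hl hm h₁ h₂ x R₁ R₂ hR₁ hR₂, ← pow_mul,
    mul_comm g₁ g₂]
  · intro i z hz
    exact L0_fib R₂ hR₂ (P i) (fun z' => Q (z ^ m * (z' ^ l * x))) T hT hT1
      (fun j z' hz' => hP i j z z' hz hz') (fun j hj => hP1 i j (Or.inr hj)) hT2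
  · intro i hi
    exact Finset.prod_eq_one fun j _ => hP1 i j (Or.inl hi)

end CY
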