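import Pool.Agent.CY.G2
import Pool.Agent.CY.L0
import Pool.Agent.CX.L9

/-!
# [CY-L1] the local identity at the places not above 6

PROOF. Model: CX/L9.lean (`loc_ne6`, its lemmas `l9_Q`, `l9_res`, `l9_shift`, `l9_bad` may be used). `place_count` for `A` (`l, n, d, δ`) and for `B` (`m, b, e, ε`; `m = 2 ∨ m = 3`): `e₁, f₁, g₁`, `e₂, f₂, g₂`; `cmp_count` (`kum_galois` twice; the degrees `l ^ n`, `m ^ b` are coprime): `g₁ g₂` places `w`, `f w := f₁ f₂`, `od w = e₁ e₂ od v`. Write `D_{χψ} = D * dx e ψ ^ l * dx d χ ^ m`.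
CASE A: some `(χ₀, ψ₀)` with `6 ∣ od v D_{χ₀ψ₀}`. `D₀ = jK D_{χ₀ψ₀}`, `exists_fr`: `Fr eK v D₀ x`. Left: `fr_up`: `Fr (eO F) w (algebraMap D₀) (x ^ (f₁ f₂))`, `algebraMap D₀ = jF F D * y ^ 6` with `y = algebraMap A F (dl δ χ₀) * algebraMap B F (dl ε ψ₀)` (`dl_pow`), `fr_six`, `fr_poly` (`l9_Q`): the factor is `expand (f₁ f₂) (Q (x ^ (f₁ f₂)))`, `g₁ g₂` places.
Right: `D_{χψ} = D₀ s^l t^m`, `t = d_χ / d_χ₀`, `s = e_ψ / e_ψ₀` in `KK`. `S χ z := Sy l eK v t z`, `T ψ z' := Sy m eK v s z'`. If `S χ z`, `T ψ z'`: `fr_twist` twice (with `(m, l)` for `s`: `m l = 6`): `Fr eK v (D₀ s^l t^m) (z^m (z'^l x))`, factor `Q (z^m (z'^l x))`. If one of the two symbols does not exist (`exists_sy`: `l ∤ od v t` or `m ∤ od v s`) then `6 ∤ od v (D₀ s^l t^m) = od v D₀ + l od v s + m od v t`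
(modulo `l`: `m od v t`, modulo `m`: `l od v s`), the factor is `1` (`bad_poly`). The counts and `z ^ f = 1` by translation (`l9_shift` for `(l, d)` and for `(m, e)`). `prod_fib2`; the product over pairs: `Fintype.prod_prod_type`.
CASE B: `6 ∤ od v D_{χψ}` for all `(χ, ψ)`: the right side is `1`. Suppose `6 ∣ od w (jF F D) = e₁ e₂ a`, `a = od v (jK D)`. `l`-part: if `e₁ = 1` then `l ∣ a` (`l ∤ e₂`), take `χ = 0`; if `e₁ = l` some `i` with `l ∤ od v (d_i)` and `l9_res` gives `j` with `l ∣ a + j.val * (m * od v (d_i))`, `χ = single i j`. The same for `m`: `ψ`. Then `6 ∣ od v D_{χψ} = a + l od v (e_ψ) + m od v (d_χ)`, a contradiction. So the left factors are `1` (`bad_poly`).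
-/

set_option autoImplicit false

open NumberField IsDedekindDomain
open scoped Classical ComplexConjugate

namespace CY

open CX CM27 CMT NAB CF JD
open CU (la om eE)

theorem L1_part {l m n : ℕ} [NeZero l] {F : Type} [Field F] [NumberField F] [Algebra KK F] {d : Fin n → Eis} {δ : Fin n → F}
    (hl : l = 2 ∨ l = 3) (hm : l * m = 6) (hK : Kum l n d δ) (v : HeightOneSpectrum (𝓞 KK)) {e₁ : ℕ} (he : e₁ = 1 ∨ e₁ = l)
    (hr : e₁ = l ↔ ∃ i, ¬ (l : ℤ) ∣ TWR.od v (jK (d i))) (a : ℤ) (h : e₁ = 1 → (l : ℤ) ∣ a) :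
    ∃ χ : Fin n → ZMod l, (l : ℤ) ∣ a + m * TWR.od v (jK (dx d χ)) := by
  rcases he with h1 | h1
  · refine ⟨0, ?_⟩
    have h2 : TWR.od v (jK (dx d (0 : Fin n → ZMod l))) = 0 := by
      rw [dx_zero, map_one]
      have h3 := TWR.od_mul v (one_ne_zero (α := KK)) one_ne_zero
      rw [mul_one] at h3
      linarith
    rw [h2, mul_zero, add_zero]
    exact h h1
  · obtain ⟨i, hi⟩ := hr.1 h1
    have h3 : ¬ (l : ℤ) ∣ m * TWR.od v (jK (d i)) := by
      intro h4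
      apply hi
      rcases hl with rfl | rfl
      · have : m = 3 := by omega
        subst this
        push_cast at h4 ⊢
        omega
      · have : m = 2 := by omega
        subst this
        push_cast at h4 ⊢
        omega
    obtain ⟨j, hj⟩ := l9_res hl a _ h3
    refine ⟨Pi.single i j, ?_⟩
    rw [dx_single, map_pow, TWR.od_pow]
    have h5 : a + (m : ℤ) * ((j.val : ℤ) * TWR.od v (jK (d i))) = a + (j.val : ℤ) * (m * TWR.od v (jK (d i))) := by ring
    rw [h5]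
    exact hj

/-- divisibility by `6` from the two parts -/
theorem L1_six {l m : ℕ} (hl : l = 2 ∨ l = 3) (hm : l * m = 6) {a p q : ℤ} (h1 : (l : ℤ) ∣ a + m * p) (h2 : (m : ℤ) ∣ a + l * q) :
    (6 : ℤ) ∣ a + l * q + m * p := by
  rcases hl with rfl | rfl
  · have : m = 3 := by omega
    subst this
    push_cast at *
    omega
  · have : m = 2 := by omega
    subst this
    push_cast at *
    omega

theorem L1_six' {l m : ℕ} (hl : l = 2 ∨ l = 3) (hm : l * m = 6) {p q : ℤ} (h : (6 : ℤ) ∣ l * q + m * p) :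
    (l : ℤ) ∣ p ∧ (m : ℤ) ∣ q := by
  rcases hl with rfl | rfl
  · have : m = 3 := by omega
    subst this
    push_cast at *
    constructor <;> omega
  · have : m = 2 := by omega
    subst this
    push_cast at *
    constructor <;> omega

theorem L1_six'' {l m e₁ e₂ : ℕ} (hl : l = 2 ∨ l = 3) (hm : l * m = 6) (he : e₁ = 1 ∨ e₁ = l) (he' : e₂ = 1 ∨ e₂ = m) {a : ℤ}
    (h : (6 : ℤ) ∣ ((e₁ * e₂ : ℕ) : ℤ) * a) : (e₁ = 1 → (l : ℤ) ∣ a) ∧ (e₂ = 1 → (m : ℤ) ∣ a) := by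
  rcases hl with rfl | rfl
  · have : m = 3 := by omega
    subst this
    rcases he with rfl | rfl <;> rcases he' with rfl | rfl <;> refine ⟨fun h' => ?_, fun h' => ?_⟩ <;>
      (push_cast at h ⊢; omega)
  · have : m = 2 := by omega
    subst this
    rcases he with rfl | rfl <;> rcases he' with rfl | rfl <;> refine ⟨fun h' => ?_, fun h' => ?_⟩ <;>
      (push_cast at h ⊢; omega)

/-- the number of the characters with a given symbol, translated -/
theorem L1_count {l n : ℕ} [NeZero l] {F : Type} [Field F] [NumberField F] [Algebra KK F] {d : Fin n → Eis} {δ : Fin n → F}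
    (hl : l = 2 ∨ l = 3) (hK : Kum l n d δ) (v : HeightOneSpectrum (𝓞 KK)) (h6 : (6 : 𝓞 KK) ∉ v.asIdeal) (χ₀ : Fin n → ZMod l) (z : Eis) :
    {χ : Fin n → ZMod l | Sy l eK v (jK (dx d χ) / jK (dx d χ₀)) z}.ncard = {χ : Fin n → ZMod l | Sy l eK v (jK (dx d χ)) z}.ncard := by
  have h1 : {χ : Fin n → ZMod l | Sy l eK v (jK (dx d χ) / jK (dx d χ₀)) z} =
      (fun χ => χ + χ₀) '' {χ : Fin n → ZMod l | Sy l eK v (jK (dx d χ)) z} := by
    ext χ
    rw [Set.mem_ofPred_eq, l9_shift hl hK v h6 χ₀ χ z]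
    constructor
    · intro h
      exact ⟨χ - χ₀, h, sub_add_cancel _ _⟩
    · rintro ⟨χ', h, rfl⟩
      simp only [add_sub_cancel_right]
      exact h
  rw [h1]
  exact Set.ncard_image_of_injective _ (add_left_injective χ₀)

variable {A B F : Type} [Field A] [NumberField A] [Field B] [NumberField B] [Field F] [NumberField F] [Algebra KK A] [Algebra KK B]
  [Algebra KK F] [Algebra A F] [Algebra B F] [IsScalarTower KK A F] [IsScalarTower KK B F]
  {l m n b : ℕ} [NeZero l] [NeZero m] {d : Fin n → Eis} {e : Fin b → Eis} {δ : Fin n → A} {ε : Fin b → B} {D : Eis}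

theorem loc_ne6_2 (hl : l = 2 ∨ l = 3) (hm : l * m = 6) (hD : D ≠ 0) (hK : Kum l n d δ) (hM : Kum m b e ε) (hC : Cmp A B F)
    (v : HeightOneSpectrum (𝓞 KK)) (h6 : (6 : 𝓞 KK) ∉ v.asIdeal)
    (S : Finset (HeightOneSpectrum (𝓞 F))) (hS : ∀ w, w ∈ S ↔ und KK w = v) :
    ∃ f : HeightOneSpectrum (𝓞 F) → ℕ, (∀ w ∈ S, 0 < f w ∧ TH.nv w = TH.nv v ^ f w) ∧
    ∏ w ∈ S, Polynomial.expand ℤ (f w)
      (((ED (jF F D)).baseChange (w.adicCompletion F)).localPolynomial (w.adicCompletionIntegers F)) =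
    ∏ p : (Fin b → ZMod m) × (Fin n → ZMod l), ((ED (jK (D * dx e p.1 ^ l * dx d p.2 ^ m))).baseChange (v.adicCompletion KK)).localPolynomial
      (v.adicCompletionIntegers KK) := by
  have hm2 : m = 2 ∨ m = 3 := by rcases hl with rfl | rfl <;> omega
  have hml : m * l = 6 := by rw [mul_comm]; exact hm
  obtain ⟨e₁, f₁, g₁, he₁, hf₁, hg₁, -, hr₁, hcard₁, hw₁, hz₁, hz₁'⟩ := place_count hl hK v h6
  obtain ⟨e₂, f₂, g₂, he₂, hf₂, hg₂, -, hr₂, hcard₂, hw₂, hz₂, hz₂'⟩ := place_count hm2 hM v h6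
  have hco : Nat.Coprime (Module.finrank KK A) (Module.finrank KK B) := by
    rw [hK.rank, hM.rank]
    apply Nat.Coprime.pow
    rcases hl with rfl | rfl
    · have : m = 3 := by omega
      subst this
      norm_num
    · have : m = 2 := by omega
      subst this
      norm_num
  obtain ⟨hcard, hw⟩ := cmp_count (kum_galois hl hK) (kum_galois hm2 hM) hC hco v
    (fun u hu => ⟨(hw₁ u hu).1, (hw₁ u hu).2.1⟩) (fun u hu => ⟨(hw₂ u hu).1, (hw₂ u hu).2.1⟩)
  rw [hcard₁, hcard₂] at hcard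
  have hl0 : 0 < l := by rcases hl with rfl | rfl <;> norm_num
  have hm0 : 0 < m := by rcases hm2 with rfl | rfl <;> norm_num
  have hf10 : 0 < f₁ := by rcases hf₁ with rfl | rfl <;> omega
  have hf20 : 0 < f₂ := by rcases hf₂ with rfl | rfl <;> omega
  have hf0 : 0 < f₁ * f₂ := Nat.mul_pos hf10 hf20
  have hwS : ∀ w ∈ S, und KK w = v := fun w h => (hS w).1 h
  have h6w : ∀ w : HeightOneSpectrum (𝓞 F), w ∈ S → (6 : 𝓞 F) ∉ w.asIdeal := by
    intro w hw1 h
    apply h6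
    rw [← hwS w hw1, mem_und, map_ofNat]
    exact h
  have hdom := eis_isDomain
  have hdne : ∀ χ : Fin n → ZMod l, dx d χ ≠ 0 := fun χ => dx_ne hK χ
  have hene : ∀ ψ : Fin b → ZMod m, dx e ψ ≠ 0 := fun ψ => dx_ne hM ψ
  have hne : ∀ (ψ : Fin b → ZMod m) (χ : Fin n → ZMod l), jK (D * dx e ψ ^ l * dx d χ ^ m) ≠ 0 := fun ψ χ =>
    l9_jK (mul_ne_zero (mul_ne_zero hD (pow_ne_zero _ (hene ψ))) (pow_ne_zero _ (hdne χ)))
  refine ⟨fun _ => f₁ * f₂, fun w hw1 => ⟨hf0, (hw w (hwS w hw1)).1⟩, ?_⟩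
  by_cases hA : ∃ (ψ₀ : Fin b → ZMod m) (χ₀ : Fin n → ZMod l), (6 : ℤ) ∣ TWR.od v (jK (D * dx e ψ₀ ^ l * dx d χ₀ ^ m))
  · obtain ⟨ψ₀, χ₀, h₀⟩ := hA
    obtain ⟨x, hx⟩ := exists_fr eK v h6 (hne ψ₀ χ₀) h₀
    apply Polynomial.map_injective (Int.castRingHom ℂ) Int.cast_injective
    rw [Polynomial.map_prod, Polynomial.map_prod]
    -- the left side
    have hL : ∀ w ∈ S, Polynomial.map (Int.castRingHom ℂ) (Polynomial.expand ℤ (f₁ * f₂)
        (((ED (jF F D)).baseChange (w.adicCompletion F)).localPolynomial (w.adicCompletionIntegers F))) =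
        Polynomial.expand ℂ (f₁ * f₂) (Q (x ^ (f₁ * f₂))) := by
      intro w hw1
      have h1 : Fr (eO F) w (algebraMap KK F (jK (D * dx e ψ₀ ^ l * dx d χ₀ ^ m))) (x ^ (f₁ * f₂)) := by
        refine fr_up w (by rw [hwS w hw1]; exact h6) hf0 (by rw [hwS w hw1]; exact (hw w (hwS w hw1)).1) ?_
        rw [hwS w hw1]
        exact hx
      have hAF : ∀ c : Eis, algebraMap A F (jF A c) = jF F c := fun c =>
        (IsScalarTower.algebraMap_apply KK A F (jK c)).symm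
      have hBF : ∀ c : Eis, algebraMap B F (jF B c) = jF F c := fun c =>
        (IsScalarTower.algebraMap_apply KK B F (jK c)).symm
      have hy1 : algebraMap A F (dl δ χ₀) ^ l = jF F (dx d χ₀) := by
        rw [← map_pow, dl_pow hK χ₀, hAF]
      have hy2 : algebraMap B F (dl ε ψ₀) ^ m = jF F (dx e ψ₀) := by
        rw [← map_pow, dl_pow hM ψ₀, hBF]
      have hy0 : algebraMap A F (dl δ χ₀) * algebraMap B F (dl ε ψ₀) ≠ 0 := by
        apply mul_ne_zero
        · rw [Ne, map_eq_zero]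
          exact dl_ne hl hK χ₀
        · rw [Ne, map_eq_zero]
          exact dl_ne hm2 hM ψ₀
      have h2 : algebraMap KK F (jK (D * dx e ψ₀ ^ l * dx d χ₀ ^ m)) =
          jF F D * (algebraMap A F (dl δ χ₀) * algebraMap B F (dl ε ψ₀)) ^ 6 := by
        have h3 : algebraMap KK F (jK (D * dx e ψ₀ ^ l * dx d χ₀ ^ m)) = jF F (D * dx e ψ₀ ^ l * dx d χ₀ ^ m) := rfl
        rw [h3, map_mul, map_mul, map_pow, map_pow, ← hy1, ← hy2, ← pow_mul, ← pow_mul, hm, hml, mul_pow]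
        ring
      rw [h2, fr_six (eO F) w (h6w w hw1) hy0] at h1
      rw [Polynomial.map_expand, l9_Q (eO F) w (h6w w hw1) h1]
    rw [Finset.prod_congr rfl hL, Finset.prod_const]
    have hSg : S.card = g₁ * g₂ := by
      rw [← hcard, ← Set.ncard_coe_finset]
      congr 1
      ext w
      exact hS w
    rw [hSg]
    -- the right side
    symm
    rw [Fintype.prod_prod_type, Finset.prod_comm]
    have heq : ∀ (χ : Fin n → ZMod l) (ψ : Fin b → ZMod m), jK (D * dx e ψ ^ l * dx d χ ^ m) =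
        jK (D * dx e ψ₀ ^ l * dx d χ₀ ^ m) * (jK (dx e ψ) / jK (dx e ψ₀)) ^ l * (jK (dx d χ) / jK (dx d χ₀)) ^ m := by
      intro χ ψ
      have h01 := l9_jK (hdne χ₀)
      have h02 := l9_jK (hene ψ₀)
      rw [map_mul, map_mul, map_mul, map_mul, map_pow, map_pow, map_pow, map_pow, div_pow, div_pow]
      field_simp
    refine prod_fib2 hl hm hf₁ hf₂ x _ (fun χ z => Sy l eK v (jK (dx d χ) / jK (dx d χ₀)) z)
      (fun ψ z => Sy m eK v (jK (dx e ψ) / jK (dx e ψ₀)) z)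
      (fun χ z z' h h' => sy_unique eK v h6 hl h h')
      (fun ψ z z' h h' => sy_unique eK v h6 hm2 h h')
      (fun χ z h => hz₁' (χ - χ₀) z ((l9_shift hl hK v h6 χ₀ χ z).1 h))
      (fun ψ z h => hz₂' (ψ - ψ₀) z ((l9_shift hm2 hM v h6 ψ₀ ψ z).1 h)) ?_ ?_ ?_ ?_
    · intro χ ψ z z' h h'
      have h1 := fr_twist eK v h6 hl hm (fr_twist eK v h6 hm2 hml hx h') h
      rw [← heq χ ψ] at h1
      exact l9_Q eK v h6 h1
    · intro χ ψ h
      have h01 : jK (dx d χ) / jK (dx d χ₀) ≠ 0 := div_ne_zero (l9_jK (hdne χ)) (l9_jK (hdne χ₀))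
      have h02 : jK (dx e ψ) / jK (dx e ψ₀) ≠ 0 := div_ne_zero (l9_jK (hene ψ)) (l9_jK (hene ψ₀))
      have h3 : ¬ (6 : ℤ) ∣ TWR.od v (jK (D * dx e ψ ^ l * dx d χ ^ m)) := by
        rw [heq χ ψ, TWR.od_mul v (mul_ne_zero (hne ψ₀ χ₀) (pow_ne_zero _ h02)) (pow_ne_zero _ h01),
          TWR.od_mul v (hne ψ₀ χ₀) (pow_ne_zero _ h02), TWR.od_pow, TWR.od_pow, add_assoc]
        intro h4
        have h5 := (dvd_add_right h₀).1 h4
        obtain ⟨h7, h8⟩ := L1_six' hl hm h5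
        rcases h with h | h
        · exact h (exists_sy eK v h6 hl h01 h7)
        · exact h (exists_sy eK v h6 hm2 h02 h8)
      rw [bad_poly v h6 (hne ψ χ) h3, Polynomial.map_one]
    · intro z hz
      rw [L1_count hl hK v h6 χ₀ z]
      exact hz₁ z hz
    · intro z hz
      rw [L1_count hm2 hM v h6 ψ₀ z]
      exact hz₂ z hz
  · push Not at hA
    have hR : ∀ p : (Fin b → ZMod m) × (Fin n → ZMod l), ((ED (jK (D * dx e p.1 ^ l * dx d p.2 ^ m))).baseChange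
        (v.adicCompletion KK)).localPolynomial (v.adicCompletionIntegers KK) = 1 := fun p => bad_poly v h6 (hne p.1 p.2) (hA p.1 p.2)
    rw [Finset.prod_eq_one fun p _ => hR p]
    refine Finset.prod_eq_one fun w hw1 => ?_
    have hod : TWR.od w (jF F D) = (e₁ * e₂ : ℕ) * TWR.od v (jK D) := (hw w (hwS w hw1)).2 (jK D) (l9_jK hD)
    have hD' : jF F D ≠ 0 := fun h => hD (jF_inj F (h.trans (map_zero (jF F)).symm))
    rw [bad_poly w (h6w w hw1) hD' ?_, map_one]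
    rw [hod]
    intro h
    obtain ⟨ha, hb⟩ := L1_six'' hl hm he₁ he₂ h
    obtain ⟨χ, hχ⟩ := L1_part hl hm hK v he₁ hr₁ _ ha
    obtain ⟨ψ, hψ⟩ := L1_part hm2 hml hM v he₂ hr₂ _ hb
    apply hA ψ χ
    rw [map_mul, map_mul, map_pow, map_pow,
      TWR.od_mul v (mul_ne_zero (l9_jK hD) (pow_ne_zero _ (l9_jK (hene ψ)))) (pow_ne_zero _ (l9_jK (hdne χ))),
      TWR.od_mul v (l9_jK hD) (pow_ne_zero _ (l9_jK (hene ψ))), TWR.od_pow, TWR.od_pow]
    exact L1_six hl hm hχ hψ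

end CY
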