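import Pool.Agent.CY.G2
import Pool.Agent.CX.M3a
import Pool.Agent.CX.L9
import Pool.Agent.CX.T2

/-!
# [CY-M1] powers in the completions of the compositum

PROOF. `v = und KK w`, `6 ∉ v`. `←`: `y ^ m = D e_ψ ^ l` in `K_v`; with `φ` of `JD.exists_Below w` (`tr_und`, CX/T2.lean) and `t = algebraMap B F (dl ε ψ)`, `t ^ m = e_ψ`, `e_ψ ^ l = t ^ 6 = (t ^ l) ^ m`: `D = (φ y / t ^ l) ^ m` in `F_w`.
`→`: `place_count` for `A` and `B`, `cmp_count`: `od w = e₁ e₂ od v`, `nv w = nv v ^ (f₁ f₂)`. `x ^ m = D` in `F_w`: `m ∣ od w (jF D) = e₁ e₂ a`, `a = od v (jK D)`. Step 1: there is `ψ₁` with `m ∣ od v (D e_ψ₁ ^ l)`: if `e₂ = 1`, `m ∤ e₁`, so `m ∣ a`, `ψ₁ = 0`; if `e₂ = m` some `m ∤ od v (e_i)`, `l9_res` (for `m`) gives `j` with `m ∣ a + j.val * (l * od v (e_i))`, `ψ₁ = single i j` (`dx_single`).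
Put `D₁ = D e_ψ₁ ^ l`, again an `m`-th power in `F_w`. Step 2: `exists_sy`: `Sy m eK v (jK D₁) z`; `z ^ (f₁ f₂) = 1` as in the proof of `CX.pow_down` (CX/M3a.lean: `t'^((q^f-1)/m) ≡ 1`, `= (t'^((q-1)/m))^(1 + q + ..)`, exponent `≡ f mod m`); `f₁` is prime to `m`, so `z ^ f₂ = 1`. If `f₂ = 1`, `z = 1`, put `ψ₂ = 0`. If `f₂ = m`: `l` is invertible modulo `m`: there is `z'` with `z' ^ m = 1`, `z' ^ l * z = 1`,
and `ψ₂` with `Sy m eK v (jK (dx e ψ₂)) z'` (the set has `g₂ > 0` elements). `sy_mul`, `sy_pow`: `Sy m eK v (jK (D₁ * dx e ψ₂ ^ l)) 1`, so it is an `m`-th power in `K_v` (unit part: an `m`-th power modulo `v` and Hensel, `M3a_pow_mod`, `M3a_hensel`). `ψ = ψ₁ + ψ₂`: `dx_add`: `dx e ψ₁ * dx e ψ₂ = dx e ψ * c ^ m`.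
-/

set_option autoImplicit false

open NumberField IsDedekindDomain
open scoped Classical ComplexConjugate

namespace CY

open CX CM27 CMT NAB CF JD
open CU (la om eE)

theorem m1_mp {l m : ℕ} (hl : l = 2 ∨ l = 3) (hm : l * m = 6) : m = 2 ∨ m = 3 := by
  rcases M3a_lm hl hm with ⟨-, rfl⟩ | ⟨-, rfl⟩
  · exact Or.inr rfl
  · exact Or.inl rfl

theorem m1_mv {m : ℕ} (hm : m = 2 ∨ m = 3) {k : Type} [Field k] [NumberField k] (v : HeightOneSpectrum (𝓞 k)) (h6 : (6 : 𝓞 k) ∉ v.asIdeal) :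
    ((m : ℕ) : 𝓞 k) ∉ v.asIdeal := by
  rcases hm with rfl | rfl
  · exact_mod_cast l3s_two v h6
  · exact_mod_cast l3s_three v h6

/-- symbol `1`: a power in the completion -/
theorem m1_sup {m : ℕ} (hm : m = 2 ∨ m = 3) (v : HeightOneSpectrum (𝓞 KK)) (h6 : (6 : 𝓞 KK) ∉ v.asIdeal) {t : KK} (h : Sy m eK v t 1) :
    ∃ y : v.adicCompletion KK, y ^ m = algebraMap KK (v.adicCompletion KK) t := by
  have hm0 : 0 < m := by rcases hm with rfl | rfl <;> norm_num
  obtain ⟨-, t', u, hu, ht', htu, hs⟩ := h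
  rw [map_one] at hs
  obtain ⟨b', hb'⟩ := M3a_pow_mod v (m := m) hm0 ⟨_, (l3s_div eK v h6 hm).symm⟩ ht' hs
  obtain ⟨y, hy'⟩ := M3a_hensel v hm0 (m1_mv hm v h6) ht' hb'
  refine ⟨algebraMap KK (v.adicCompletion KK) u * (y : v.adicCompletion KK), ?_⟩
  have h8 : ((y : v.adicCompletion KK)) ^ m = algebraMap KK (v.adicCompletion KK) (t' : KK) := by
    exact congrArg (fun z : v.adicCompletionIntegers KK => (z : v.adicCompletion KK)) hy'
  rw [mul_pow, h8, ← map_pow, ← map_mul, ← htu]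

theorem m1_sypow {m : ℕ} (hm : m = 2 ∨ m = 3) (v : HeightOneSpectrum (𝓞 KK)) (h6 : (6 : 𝓞 KK) ∉ v.asIdeal) {t : KK} {z : Eis}
    (h : Sy m eK v t z) (k : ℕ) : Sy m eK v (t ^ k) (z ^ k) := by
  induction k with
  | zero =>
    have h1 := sy_pow eK v h6 hm (t := (1 : KK)) one_ne_zero
    rwa [one_pow] at h1
  | succ k ih =>
    rw [pow_succ, pow_succ]
    exact sy_mul eK v h6 hm ih h

theorem m1_geom (q N m : ℕ) (hq : q % m = 1 % m) : (∑ i ∈ Finset.range N, q ^ i) % m = N % m := by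
  have h : (∑ i ∈ Finset.range N, q ^ i) ≡ N [MOD m] := by
    induction N with
    | zero => exact Nat.ModEq.refl _
    | succ N ih =>
      rw [Finset.sum_range_succ]
      refine ih.add ?_
      have h1 : q ≡ 1 [MOD m] := hq
      have h2 := h1.pow N
      rwa [one_pow] at h2
  exact h

section
variable {F : Type} [Field F] [NumberField F] [Algebra KK F]

/-- the order of a power -/
theorem m1_dvd {m : ℕ} (w : HeightOneSpectrum (𝓞 F)) {D : Eis} (x : w.adicCompletion F)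
    (hx : x ^ m = algebraMap F (w.adicCompletion F) (jF F D)) : (m : ℤ) ∣ TWR.od w (algebraMap KK F (jK D)) := by
  have h3 := HeightOneSpectrum.valuedAdicCompletion_eq_valuation' w (jF F D)
  have h4 : Valued.v (x ^ m) = w.valuation F (jF F D) := by
    rw [hx]
    exact h3
  rw [map_pow] at h4
  refine ⟨WithZero.log (Valued.v x : WithZero (Multiplicative ℤ)), ?_⟩
  rw [← jF_apply, TWR.od, ← h4, WithZero.log_pow, nsmul_eq_mul]

/-- the symbol of an element which is a power in the completion of the extension -/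
theorem m1_sub {m : ℕ} (hm : m = 2 ∨ m = 3) (w : HeightOneSpectrum (𝓞 F)) (h6 : (6 : 𝓞 KK) ∉ (und KK w).asIdeal) {D : Eis} {N : ℕ}
    (hn : TH.nv w = TH.nv (und KK w) ^ N) {z : Eis} (hz : Sy m eK (und KK w) (jK D) z) (x : w.adicCompletion F)
    (hx : x ^ m = algebraMap F (w.adicCompletion F) (jF F D)) : z ^ N = 1 := by
  have hm0 : 0 < m := by rcases hm with rfl | rfl <;> norm_num
  obtain ⟨hzm, t', u, hu, ht', htu, hs⟩ := hz
  set T : 𝓞 F := algebraMap (𝓞 KK) (𝓞 F) t' with hT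
  have hTw : T ∉ w.asIdeal := fun h => ht' ((mem_und w t').2 h)
  have hTF : (T : F) = algebraMap KK F (t' : KK) := by
    rw [hT]
    exact (IsScalarTower.algebraMap_apply (𝓞 KK) (𝓞 F) F t').symm.trans (IsScalarTower.algebraMap_apply (𝓞 KK) KK F t')
  set U : w.adicCompletion F := algebraMap F (w.adicCompletion F) (algebraMap KK F u) with hU
  have hU0 : U ≠ 0 := by
    rw [hU, Ne, map_eq_zero, map_eq_zero]
    exact hu
  have hy : (x / U) ^ m = algebraMap F (w.adicCompletion F) (T : F) := by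
    rw [div_pow, hx, div_eq_iff (pow_ne_zero _ hU0), hU, ← map_pow, ← map_pow, ← map_mul, jF_apply, htu, map_mul, hTF,
      mul_comm]
  have hyv : Valued.v (x / U) = (1 : WithZero (Multiplicative ℤ)) := by
    have h3 := HeightOneSpectrum.valuedAdicCompletion_eq_valuation' w (T : F)
    have h4 : Valued.v ((x / U) ^ m) = w.valuation F (T : F) := by
      rw [hy]
      exact h3
    rw [val_unit T w hTw, map_pow] at h4
    exact (pow_eq_one_iff_of_nonneg zero_le hm0.ne').1 h4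
  let Y : w.adicCompletionIntegers F := ⟨x / U, hyv.le⟩
  obtain ⟨b, hb⟩ := (CMT.residue_completion F w).1 (IsLocalRing.residue (w.adicCompletionIntegers F) Y)
  have hYm : Y ^ m = algebraMap (𝓞 F) (w.adicCompletionIntegers F) T := by
    apply Subtype.ext
    exact hy
  have hbm : b ^ m - T ∈ w.asIdeal := by
    rw [← (CMT.residue_completion F w).2, RingHom.mem_ker, map_sub, map_pow, hb, ← map_pow, hYm, RingHom.comp_apply, sub_self]
  have hbw : b ∉ w.asIdeal := by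
    intro h
    apply hTw
    have h3 := w.asIdeal.sub_mem (Ideal.pow_mem_of_mem _ h m hm0) hbm
    rwa [sub_sub_cancel] at h3
  have hq6 := nv_mod6 eK (und KK w) h6
  obtain ⟨c, hc⟩ : ∃ c, c = (TH.nv (und KK w) - 1) / m := ⟨_, rfl⟩
  have hdiv := l3s_div eK (und KK w) h6 hm
  rw [← hc] at hdiv hs
  set q := TH.nv (und KK w) with hq
  have hq0 : 0 < q := by omega
  have hgeom : q ^ N - 1 = m * (c * ∑ i ∈ Finset.range N, q ^ i) := by
    rw [M3a_geom q N hq0, ← hdiv, mul_assoc]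
  -- `z ^ S = 1` modulo `w`
  have h1 : Ideal.Quotient.mk w.asIdeal (T ^ c) = Ideal.Quotient.mk w.asIdeal (algebraMap (𝓞 KK) (𝓞 F) (eK z)) := by
    rw [← sub_eq_zero, ← map_sub, Ideal.Quotient.eq_zero_iff_mem, hT, ← map_pow, ← map_sub, ← mem_und w]
    exact hs
  have h2 : Ideal.Quotient.mk w.asIdeal (T ^ c) ^ (∑ i ∈ Finset.range N, q ^ i) = 1 := by
    have h3 := TH.p1_pow w hbw
    rw [hn, hgeom, ← Ideal.Quotient.eq_zero_iff_mem, map_sub, map_one, sub_eq_zero, pow_mul, map_pow] at h3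
    have h4 : Ideal.Quotient.mk w.asIdeal (b ^ m) = Ideal.Quotient.mk w.asIdeal T := by
      rw [← sub_eq_zero, ← map_sub, Ideal.Quotient.eq_zero_iff_mem]
      exact hbm
    rw [h4, pow_mul] at h3
    rw [map_pow]
    exact h3
  rw [h1, ← map_pow, ← map_pow, ← map_pow] at h2
  have h5 : z ^ (∑ i ∈ Finset.range N, q ^ i) = z ^ N := by
    have h6' := m1_geom q N m (by rcases hm with rfl | rfl <;> omega)
    calc z ^ (∑ i ∈ Finset.range N, q ^ i) = z ^ ((∑ i ∈ Finset.range N, q ^ i) % m) := pow_eq_pow_mod _ hzm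
      _ = z ^ (N % m) := by rw [h6']
      _ = z ^ N := (pow_eq_pow_mod _ hzm).symm
  rw [h5] at h2
  have h7 : eK (z ^ N) - eK 1 ∈ (und KK w).asIdeal := by
    rw [mem_und w, map_sub, map_one, map_one, ← Ideal.Quotient.eq_zero_iff_mem, map_sub, h2, map_one, sub_self]
  exact l3s_inj eK (und KK w) h6 hm (by rw [← pow_mul, mul_comm, pow_mul, hzm, one_pow]) (one_pow m) h7

end

variable {A B F : Type} [Field A] [NumberField A] [Field B] [NumberField B] [Field F] [NumberField F] [Algebra KK A] [Algebra KK B]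
  [Algebra KK F] [Algebra A F] [Algebra B F] [IsScalarTower KK A F] [IsScalarTower KK B F]
  {l m n b : ℕ} [NeZero l] [NeZero m] {d : Fin n → Eis} {e : Fin b → Eis} {δ : Fin n → A} {ε : Fin b → B} {D : Eis}

theorem pow_iff (hl : l = 2 ∨ l = 3) (hm : l * m = 6) (hD : D ≠ 0) (hK : Kum l n d δ) (hM : Kum m b e ε) (hC : Cmp A B F)
    (w : HeightOneSpectrum (𝓞 F)) (h6 : (6 : 𝓞 KK) ∉ (und KK w).asIdeal) :
    (∃ x : w.adicCompletion F, x ^ m = algebraMap F (w.adicCompletion F) (jF F D)) ↔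
      ∃ (ψ : Fin b → ZMod m) (y : (und KK w).adicCompletion KK), y ^ m = algebraMap KK ((und KK w).adicCompletion KK) (jK (D * dx e ψ ^ l)) := by
  have hm' := m1_mp hl hm
  have hdom := CM27.eis_isDomain
  have hlm := M3a_lm hl hm
  have hjD : jK D ≠ 0 := l9_jK hD
  -- the power in `F`
  have ht : ∀ ψ : Fin b → ZMod m, (algebraMap B F (dl ε ψ)) ^ m = jF F (dx e ψ) := by
    intro ψ
    rw [← map_pow, dl_pow hM ψ, jF_apply, jF_apply]
    exact (IsScalarTower.algebraMap_apply KK B F _).symm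
  have htw : ∀ ψ : Fin b → ZMod m, (algebraMap B F (dl ε ψ) ^ l) ^ m = jF F (dx e ψ) ^ l := by
    intro ψ
    rw [← ht ψ, ← pow_mul, ← pow_mul, mul_comm]
  constructor
  · rintro ⟨x, hx⟩
    obtain ⟨e₁, f₁, g₁, he₁, hf₁, hg₁, -, -, -, hw₁, -, -⟩ := place_count hl hK (und KK w) h6
    obtain ⟨e₂, f₂, g₂, he₂, hf₂, hg₂, -, hr₂, -, hw₂, hz₂, -⟩ := place_count hm' hM (und KK w) h6
    have hco : Nat.Coprime (Module.finrank KK A) (Module.finrank KK B) := by
      rw [hK.rank, hM.rank]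
      refine Nat.Coprime.pow _ _ ?_
      rcases hlm with ⟨rfl, rfl⟩ | ⟨rfl, rfl⟩ <;> decide
    obtain ⟨hnv, hod⟩ := (cmp_count (kum_galois hl hK) (kum_galois hm' hM) hC hco (und KK w)
      (fun u hu => ⟨(hw₁ u hu).1, (hw₁ u hu).2.1⟩) (fun u hu => ⟨(hw₂ u hu).1, (hw₂ u hu).2.1⟩)).2 w rfl
    have hce : IsCoprime (m : ℤ) (e₁ : ℤ) := by
      rw [Nat.isCoprime_iff_coprime]
      rcases hlm with ⟨rfl, rfl⟩ | ⟨rfl, rfl⟩ <;> rcases he₁ with rfl | rfl <;> decide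
    have hcl : IsCoprime (m : ℤ) (l : ℤ) := by
      rw [Nat.isCoprime_iff_coprime]
      rcases hlm with ⟨rfl, rfl⟩ | ⟨rfl, rfl⟩ <;> decide
    have hcf : Nat.gcd f₁ m = 1 := by
      rcases hlm with ⟨rfl, rfl⟩ | ⟨rfl, rfl⟩ <;> rcases hf₁ with rfl | rfl <;> decide
    have ha := m1_dvd w x hx
    rw [hod _ hjD] at ha
    -- step 1
    obtain ⟨ψ₁, hψ₁⟩ : ∃ ψ₁ : Fin b → ZMod m, (m : ℤ) ∣ TWR.od (und KK w) (jK (D * dx e ψ₁ ^ l)) := by
      rcases he₂ with rfl | rfl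
      · refine ⟨0, ?_⟩
        rw [dx_zero, one_pow, mul_one]
        rw [mul_one] at ha
        exact hce.dvd_of_dvd_mul_left ha
      · obtain ⟨i, hi⟩ := hr₂.1 rfl
        have hi' : ¬ (e₂ : ℤ) ∣ l * TWR.od (und KK w) (jK (e i)) := fun h => hi (hcl.dvd_of_dvd_mul_left h)
        obtain ⟨j, hj⟩ := l9_res hm' (TWR.od (und KK w) (jK D)) _ hi'
        refine ⟨Pi.single i j, ?_⟩
        have hei : e i ≠ 0 := hM.ne i
        rw [dx_single, map_mul, map_pow, map_pow, TWR.od_mul (und KK w) hjD (pow_ne_zero _ (pow_ne_zero _ (l9_jK hei))),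
          TWR.od_pow, TWR.od_pow]
        have h1 : (l : ℤ) * ((j.val : ℤ) * TWR.od (und KK w) (jK (e i))) = (j.val : ℤ) * ((l : ℤ) * TWR.od (und KK w) (jK (e i))) := by
          ring
        rw [h1]
        exact hj
    -- step 2
    have hD₁ : D * dx e ψ₁ ^ l ≠ 0 := mul_ne_zero hD (pow_ne_zero _ (dx_ne hM ψ₁))
    obtain ⟨z, hz⟩ := exists_sy eK (und KK w) h6 hm' (l9_jK hD₁) hψ₁
    have hx₁ : (x * algebraMap F (w.adicCompletion F) (algebraMap B F (dl ε ψ₁) ^ l)) ^ m =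
        algebraMap F (w.adicCompletion F) (jF F (D * dx e ψ₁ ^ l)) := by
      rw [mul_pow, hx, ← map_pow, htw, ← map_mul, map_mul (jF F), map_pow (jF F)]
    have hzN := m1_sub hm' w h6 hnv hz _ hx₁
    have hzm : z ^ m = 1 := hz.1
    have hzf : z ^ f₂ = 1 := by
      have h1 : (z ^ f₂) ^ f₁ = 1 := by rw [← pow_mul, mul_comm, hzN]
      have h2 : (z ^ f₂) ^ m = 1 := by rw [← pow_mul, mul_comm, pow_mul, hzm, one_pow]
      have h3 := (pow_gcd_eq_one (a := z ^ f₂) (m := f₁) (n := m)).2 ⟨h1, h2⟩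
      rwa [hcf, pow_one] at h3
    obtain ⟨ψ₂, hψ₂⟩ : {ψ : Fin b → ZMod m | Sy m eK (und KK w) (jK (dx e ψ)) z}.Nonempty := by
      apply Set.nonempty_of_ncard_ne_zero
      rw [hz₂ z hzf]
      exact hg₂.ne'
    have hsy := sy_mul eK (und KK w) h6 hm' hz (m1_sypow hm' (und KK w) h6 hψ₂ l)
    have hz1 : z * z ^ l = 1 := by
      rcases hlm with ⟨rfl, rfl⟩ | ⟨rfl, rfl⟩
      · rw [← hzm]
        ring
      · have : z * z ^ 3 = (z ^ 2) ^ 2 := by ring
        rw [this, hzm, one_pow]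
    rw [hz1] at hsy
    obtain ⟨y, hy⟩ := m1_sup hm' (und KK w) h6 hsy
    obtain ⟨c, hc0, hc, -⟩ := dx_add hM ψ₁ ψ₂
    have hjc : jK c ≠ 0 := l9_jK hc0
    refine ⟨ψ₁ + ψ₂, y / algebraMap KK ((und KK w).adicCompletion KK) (jK c ^ l), ?_⟩
    have hcc : algebraMap KK ((und KK w).adicCompletion KK) (jK c ^ l) ≠ 0 := by
      rw [Ne, map_eq_zero]
      exact pow_ne_zero _ hjc
    have h3 : D * dx e ψ₁ ^ l * dx e ψ₂ ^ l = D * dx e (ψ₁ + ψ₂) ^ l * (c ^ l) ^ m := by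
      rw [mul_assoc, ← mul_pow, hc, mul_pow, mul_assoc, ← pow_mul, ← pow_mul, mul_comm m l]
    have h4 := congrArg jK h3
    rw [map_mul, map_mul jK (D * dx e (ψ₁ + ψ₂) ^ l), map_pow jK (dx e ψ₂), map_pow jK (c ^ l), map_pow jK c] at h4
    rw [div_pow, hy, div_eq_iff (pow_ne_zero _ hcc), h4, map_mul (algebraMap KK ((und KK w).adicCompletion KK)),
      map_pow (algebraMap KK ((und KK w).adicCompletion KK)) (jK c ^ l)]
  · rintro ⟨ψ, y, hy⟩
    obtain ⟨v', φ, hB⟩ := exists_Below w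
    have hv := tr_und hB
    subst hv
    have hdl : algebraMap B F (dl ε ψ) ≠ 0 := by
      rw [Ne, map_eq_zero]
      exact dl_ne hm' hM ψ
    have htt : algebraMap F (w.adicCompletion F) (algebraMap B F (dl ε ψ) ^ l) ≠ 0 := by
      rw [Ne, map_eq_zero]
      exact pow_ne_zero _ hdl
    refine ⟨φ y / algebraMap F (w.adicCompletion F) (algebraMap B F (dl ε ψ) ^ l), ?_⟩
    rw [div_pow, ← map_pow, hy, hB.comm, div_eq_iff (pow_ne_zero _ htt), ← map_pow, htw, ← map_mul, ← jF_apply, map_mul, map_pow]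

end CY
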