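import Pool.Agent.CY.M1
import Pool.Agent.CY.T2
import Pool.Agent.CX.M1
import Pool.Agent.CX.T3

/-!
# [CY-M2] the Tamagawa numbers over the compositum

PROOF. `tam_up2` for `w ∋ 6`: `tr_tam` (`JD.exists_Below`, `surj_six2`, `tr_und`): `tam (ED (jF F D)) w = tam (ED (jK D)) v`, and `six_twist` for `hE` (`m, l, D, e`): `tam (ED (jK (D e_ψ^l))) v = tam (ED (jK D)) v`. For `w ∌ 6`: `tam_ne6` for `F`, `w` and for `KK`, `v = und KK w` and the `D e_ψ^l`.
`→`: `6 ∤ od w (jF D)` and `D` an `m`-th power in `F_w`; `pow_iff`: `ψ`, `y ^ m = D e_ψ^l`. If `6 ∣ od v (D e_ψ^l)` then `6` divides `od w (D e_ψ^l) = e₁ e₂ od v (D e_ψ^l)` and `od w (jF D) = od w (jF (D e_ψ^l)) - 6 od w (t)`, `t = algebraMap B F (dl ε ψ)`, a contradiction. `←`: `y ^ m = D e_ψ^l` in `K_v`, `6 ∤ od v (D e_ψ^l)`; `pow_iff`: `D` is an `m`-th power in `F_w`;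
`m ∣ od v (D e_ψ^l)` (`Valued.v y`), so `l ∤ od v (D e_ψ^l)`. If `6 ∣ od w (jF D)` then `6 ∣ od w (jF (D e_ψ^l)) = e₁ e₂ od v (D e_ψ^l)`, so `l ∣ e₁` (`l ∤ e₂`), `e₁ = l`, some `i` with `l ∤ od v (d_i)`, so `eE (d_i) ∈ v`, against `hnpt`. `tp_up2`: every `v` has a `w` above it (`NAB.exists_above`); `∀ w, ¬ ∃ ψ` is `∀ ψ v, ¬`.
-/

set_option autoImplicit false

open NumberField IsDedekindDomain
open scoped Classical ComplexConjugate

namespace CY

open CX CM27 CMT NAB CF JD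
open CU (la om eE)

variable {A B F : Type} [Field A] [NumberField A] [Field B] [NumberField B] [Field F] [NumberField F] [Algebra KK A] [Algebra KK B]
  [Algebra KK F] [Algebra A F] [Algebra B F] [IsScalarTower KK A F] [IsScalarTower KK B F]
  {l m n b : ℕ} [NeZero l] [NeZero m] {d : Fin n → Eis} {e : Fin b → Eis} {δ : Fin n → A} {ε : Fin b → B} {D : Eis}

private theorem M2_jK {a : Eis} (h : a ≠ 0) : jK a ≠ 0 := fun h0 => h ((map_eq_zero_iff _ jK_inj).1 h0)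

private theorem M2_od {v : HeightOneSpectrum (𝓞 KK)} {a : Eis} (h : eE a ∉ v.asIdeal) : TWR.od v (jK a) = 0 := by
  rw [jK_apply, TWR.od, val_unit _ v h, WithZero.log_one]

/-- the order of an `m`-th power -/
private theorem M2_dvd {k : Type} [Field k] [NumberField k] (v : HeightOneSpectrum (𝓞 k)) {m : ℕ} {a : k} {x : v.adicCompletion k}
    (hx : x ^ m = algebraMap k (v.adicCompletion k) a) : (m : ℤ) ∣ TWR.od v a := by
  have h3 := HeightOneSpectrum.valuedAdicCompletion_eq_valuation' v a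
  have h4 : Valued.v (x ^ m) = v.valuation k a := by
    rw [hx]
    exact h3
  rw [map_pow] at h4
  rw [TWR.od, ← h4, WithZero.log_pow, nsmul_eq_mul]
  exact dvd_mul_right _ _

theorem tam_up2 (hD : Dat0 l m D d) (hE : Dat0 m l D e) (hK : Kum l n d δ) (hM : Kum m b e ε) (hC : Cmp A B F)
    (hnpt : ∀ (ψ : Fin b → ZMod m) (v : HeightOneSpectrum (𝓞 KK)) (i : Fin n), eE (d i) ∈ v.asIdeal → ∀ x : v.adicCompletion KK,
      x ^ m ≠ algebraMap KK (v.adicCompletion KK) (jK (D * dx e ψ ^ l))) (w : HeightOneSpectrum (𝓞 F)) :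
    l ∣ SBSD.tam (ED (jF F D)) w ↔ ∃ ψ : Fin b → ZMod m, l ∣ SBSD.tam (ED (jK (D * dx e ψ ^ l))) (und KK w) := by
  have hD0 := hD.ne0
  have hl := hD.lm.2
  have hlm := hD.lm.1
  have hm := hE.lm.2
  by_cases h6 : (6 : 𝓞 F) ∈ w.asIdeal
  · obtain ⟨v, φ, hB⟩ := JD.exists_Below w
    have hs := surj_six2 hD hE hK hM hC v w h6 φ hB
    have hv := tr_und hB
    have h6' : (6 : 𝓞 KK) ∈ v.asIdeal := by
      rw [← hv, mem_und, map_ofNat]
      exact h6
    rw [tr_tam hB hs hD0, hv]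
    constructor
    · intro h
      exact ⟨0, by rw [(six_twist hE v h6' 0).1]; exact h⟩
    · rintro ⟨ψ, h⟩
      rw [(six_twist hE v h6' ψ).1] at h
      exact h
  · have h6' : (6 : 𝓞 KK) ∉ (und KK w).asIdeal := by
      rw [mem_und, map_ofNat]
      exact h6
    have hjF : jF F D ≠ 0 := fun h0 => hD0 ((map_eq_zero_iff _ (jF_inj F)).1 h0)
    have he0 : ∀ ψ : Fin b → ZMod m, dx e ψ ≠ 0 := fun ψ => dx_ne hM ψ
    have hne : ∀ ψ : Fin b → ZMod m, D * dx e ψ ^ l ≠ 0 := by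
      intro ψ h0
      have h1 : jK (D * dx e ψ ^ l) = 0 := by rw [h0, map_zero]
      rw [map_mul, map_pow] at h1
      exact mul_ne_zero (M2_jK hD0) (pow_ne_zero _ (M2_jK (he0 ψ))) h1
    obtain ⟨e₁, f₁, g₁, he₁, hf₁, _, _, hel₁, _, hw₁, _, _⟩ := place_count hl hK (und KK w) h6'
    obtain ⟨e₂, f₂, g₂, he₂, hf₂, _, _, hel₂, _, hw₂, _, _⟩ := place_count hm hM (und KK w) h6'
    have hco : Nat.Coprime (Module.finrank KK A) (Module.finrank KK B) := by
      rw [hK.rank, hM.rank]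
      apply Nat.Coprime.pow
      rcases M3a_lm hl hlm with ⟨rfl, rfl⟩ | ⟨rfl, rfl⟩ <;> decide
    have hGA : IsGalois KK A := kum_galois hl hK
    have hGB : IsGalois KK B := kum_galois hm hM
    have hcount := (cmp_count hGA hGB hC hco (und KK w) (fun u hu => ⟨(hw₁ u hu).1, (hw₁ u hu).2.1⟩)
      (fun u hu => ⟨(hw₂ u hu).1, (hw₂ u hu).2.1⟩)).2 w rfl
    have hord := hcount.2
    -- the orders of the twists
    have hF : ∀ a : Eis, algebraMap KK F (jK a) = jF F a := fun a => (jF_apply F a).symm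
    have hB : ∀ x : KK, algebraMap B F (algebraMap KK B x) = algebraMap KK F x := fun x =>
      (IsScalarTower.algebraMap_apply KK B F x).symm
    have key : ∀ ψ : Fin b → ZMod m, ∃ c : ℤ, ((e₁ * e₂ : ℕ) : ℤ) * TWR.od (und KK w) (jK (D * dx e ψ ^ l)) =
        TWR.od w (jF F D) + 6 * c := by
      intro ψ
      have hjψ : jF F (dx e ψ) ≠ 0 := fun h0 => he0 ψ ((map_eq_zero_iff _ (jF_inj F)).1 h0)
      refine ⟨TWR.od w (algebraMap B F (dl ε ψ)), ?_⟩
      rw [← hord _ (M2_jK (hne ψ)), hF, map_mul, map_pow, TWR.od_mul w hjF (pow_ne_zero _ hjψ), TWR.od_pow]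
      have h1 : jF F (dx e ψ) = (algebraMap B F (dl ε ψ)) ^ m := by
        rw [← map_pow, dl_pow hM ψ, jF_apply, jF_apply, hB]
      rw [h1, TWR.od_pow, ← mul_assoc]
      have h2 : ((l : ℤ) * (m : ℤ)) = 6 := by exact_mod_cast hlm
      rw [h2]
    rw [tam_ne6 w h6 hjF hl hlm]
    simp only [tam_ne6 (und KK w) h6' (M2_jK (hne _)) hl hlm]
    rw [pow_iff hl hlm hD0 hK hM hC w h6']
    constructor
    · rintro ⟨h1, ψ, y, hy⟩
      refine ⟨ψ, ?_, y, hy⟩
      intro h2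
      obtain ⟨c, hc⟩ := key ψ
      apply h1
      have h3 : (6 : ℤ) ∣ ((e₁ * e₂ : ℕ) : ℤ) * TWR.od (und KK w) (jK (D * dx e ψ ^ l)) := h2.mul_left _
      rw [hc] at h3
      exact (dvd_add_left (dvd_mul_right _ _)).1 h3
    · rintro ⟨ψ, h1, y, hy⟩
      refine ⟨?_, ψ, y, hy⟩
      intro h2
      obtain ⟨c, hc⟩ := key ψ
      have h3 : (6 : ℤ) ∣ ((e₁ * e₂ : ℕ) : ℤ) * TWR.od (und KK w) (jK (D * dx e ψ ^ l)) := by
        rw [hc]
        exact dvd_add h2 (dvd_mul_right _ _)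
      have h4 := M2_dvd (und KK w) hy
      obtain ⟨i, hi⟩ : ∃ i, ¬ (l : ℤ) ∣ TWR.od (und KK w) (jK (d i)) := by
        rw [← hel₁]
        set a := TWR.od (und KK w) (jK (D * dx e ψ ^ l)) with ha
        rcases he₁ with h | h
        · exfalso
          rcases M3a_lm hl hlm with ⟨rfl, rfl⟩ | ⟨rfl, rfl⟩
          · rcases he₂ with h' | h' <;> subst h <;> subst h' <;> push_cast at h3 h4 <;> omega
          · rcases he₂ with h' | h' <;> subst h <;> subst h' <;> push_cast at h3 h4 <;> omega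
        · exact h
      by_cases h5 : eE (d i) ∈ (und KK w).asIdeal
      · exact hnpt ψ (und KK w) i h5 y hy
      · rw [M2_od h5] at hi
        exact hi (dvd_zero _)

theorem tp_up2 (hD : Dat0 l m D d) (hE : Dat0 m l D e) (hK : Kum l n d δ) (hM : Kum m b e ε) (hC : Cmp A B F)
    (hnpt : ∀ (ψ : Fin b → ZMod m) (v : HeightOneSpectrum (𝓞 KK)) (i : Fin n), eE (d i) ∈ v.asIdeal → ∀ x : v.adicCompletion KK,
      x ^ m ≠ algebraMap KK (v.adicCompletion KK) (jK (D * dx e ψ ^ l))) :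
    Tp l (ED (jF F D)) ↔ ∀ ψ : Fin b → ZMod m, Tp l (ED (jK (D * dx e ψ ^ l))) := by
  constructor
  · intro h ψ v hv
    obtain ⟨w, rfl⟩ := exists_above (F := F) v
    exact h w ((tam_up2 hD hE hK hM hC hnpt w).2 ⟨ψ, hv⟩)
  · intro h w hw
    obtain ⟨ψ, hψ⟩ := (tam_up2 hD hE hK hM hC hnpt w).1 hw
    exact h ψ (und KK w) hψ

end CY
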