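import Pool.Agent.CYS.Z

/-!
# [CY-S] the Selmer groups: extensions of degree prime to `l`
-/

set_option autoImplicit false

open NumberField IsDedekindDomain
open scoped Classical ComplexConjugate

namespace CY

open CX CM27 CMT NAB CF JD

theorem sel_desc {k F : Type} [Field k] [NumberField k] [Field F] [NumberField F] [Algebra KK k] [Algebra KK F] [Algebra k F]
    [IsScalarTower KK k F] {l m b : ℕ} [NeZero m] (hl : l = 2 ∨ l = 3) (hm : l * m = 6) {D : Eis} (hD : D ≠ 0) {e : Fin b → Eis}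
    {ε : Fin b → F} (hp : ∀ i, ε i ^ m = jF F (e i)) (hn : ∀ i, e i ≠ 0) (ht : IntermediateField.adjoin k (Set.range ε) = ⊤)
    (hr : Module.finrank k F = m ^ b) (hN : Np l (ED (jF F D))) :
    Fs l (ED (jF F D)) ↔ ∀ ψ : Fin b → ZMod m, Fs l (ED (jF k (D * dx e ψ ^ l))) :=
  CYS.descent hl hm hD hp hn ht hr hN

end CY
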