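import Pool.Agent.CY.L1
import Pool.Agent.CY.T2
import Pool.Agent.CY.D3
import Pool.Agent.CY.M2
import Pool.Agent.CY.S
import Pool.Agent.CX.Z5

/-!
# [CY-Z1] the values over the compositum
-/

set_option autoImplicit false

open NumberField IsDedekindDomain
open scoped Classical ComplexConjugate

namespace CY

open CX CM27 CMT NAB CF JD
open CU (la om eE)

variable {A B F : Type} [Field A] [NumberField A] [Field B] [NumberField B] [Field F] [NumberField F] [Algebra KK A] [Algebra KK B]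
  [Algebra KK F] [Algebra A F] [Algebra B F] [IsScalarTower KK A F] [IsScalarTower KK B F]
  {l m n b : ℕ} [NeZero l] [NeZero m] {d : Fin n → Eis} {e : Fin b → Eis} {δ : Fin n → A} {ε : Fin b → B} {D : Eis}

theorem lcw_eq2 (hD : Dat0 l m D d) (hE : Dat0 m l D e) (hK : Kum l n d δ) (hM : Kum m b e ε) (hC : Cmp A B F) :
    LCW F (ED (jF F D)) = ∏ p : (Fin b → ZMod m) × (Fin n → ZMod l), LCW KK (ED (jK (D * dx e p.1 ^ l * dx d p.2 ^ m))) := by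
  refine lcw_of_loc _ _ fun v S hS => ?_
  by_cases h6 : (6 : 𝓞 KK) ∈ v.asIdeal
  · exact loc_six2 hD hE hK hM hC v h6 S hS
  · exact loc_ne6_2 hD.lm.2 hD.lm.1 hD.ne0 hK hM hC v h6 S hS

theorem la_F2 (hD : Dat0 l m D d) (hE : Dat0 m l D e) (hK : Kum l n d δ) (hM : Kum m b e ε) (hC : Cmp A B F)
    {P : (Fin b → ZMod m) × (Fin n → ZMod l) → Prop} {R : Prop}
    (hlv : ∀ p : (Fin b → ZMod m) × (Fin n → ZMod l), LA l (ED (jK (D * dx e p.1 ^ l * dx d p.2 ^ m))) (P p))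
    (hsel : (∀ p, P p) ↔ R) : LA l (ED (jF F D)) R := by
  have hp : Fact l.Prime := by
    rcases hD.lm.2 with h | h
    · exact ⟨h ▸ Nat.prime_two⟩
    · exact ⟨h ▸ Nat.prime_three⟩
  choose Λ hΛ q hq hq0 hiff using hlv
  obtain ⟨ρ, hρ, hρ2, hρ3, hper⟩ := period_all2 hD hE hK hM hC
  have hρ0 : padicValRat l ρ = 0 := by
    rcases hD.lm.2 with h | h
    · rw [h]; exact hρ2
    · rw [h]; exact hρ3
  have hcard : Fintype.card ((Fin b → ZMod m) × (Fin n → ZMod l)) = l ^ n * m ^ b := by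
    rw [Fintype.card_prod, Fintype.card_fun, Fintype.card_fun, ZMod.card, ZMod.card, Fintype.card_fin, Fintype.card_fin, mul_comm]
  have hdK : (√|(discr KK : ℝ)| : ℝ) ≠ 0 := by
    have h1 : (discr KK : ℝ) ≠ 0 := by exact_mod_cast NumberField.discr_ne_zero KK
    exact Real.sqrt_ne_zero'.2 (abs_pos.2 h1)
  have hdC : ((√|(discr KK : ℝ)| : ℝ) : ℂ) ^ (l ^ n * m ^ b) ≠ 0 := pow_ne_zero _ (by exact_mod_cast hdK)
  refine ⟨fun s => ∏ p, Λ p s, entire_of_lcw _ _ (lcw_eq2 hD hE hK hM hC) Λ hΛ, ρ * ∏ p, q p, ?_, ?_, ?_⟩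
  · have h1 : (∏ p, Λ p 1) * ((√|(discr KK : ℝ)| : ℝ) : ℂ) ^ (l ^ n * m ^ b) =
        (∏ p, (q p : ℂ)) * ∏ p : (Fin b → ZMod m) × (Fin n → ZMod l),
          (SBSD.period (ED (jK (D * dx e p.1 ^ l * dx d p.2 ^ m))) : ℂ) := by
      rw [← Finset.prod_mul_distrib, ← Finset.prod_congr rfl fun p _ => hq p, Finset.prod_mul_distrib, Finset.prod_const,
        Finset.card_univ, hcard]
    have h2 : ((√|(discr F : ℝ)| : ℝ) : ℂ) * ∏ p : (Fin b → ZMod m) × (Fin n → ZMod l),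
        (SBSD.period (ED (jK (D * dx e p.1 ^ l * dx d p.2 ^ m))) : ℂ) =
        (ρ : ℂ) * ((√|(discr KK : ℝ)| : ℝ) : ℂ) ^ (l ^ n * m ^ b) * (SBSD.period (ED (jF F D)) : ℂ) := by
      have h3 := congrArg (fun x : ℝ => (x : ℂ)) hper
      push_cast at h3
      exact h3
    apply mul_right_cancel₀ hdC
    push_cast
    linear_combination ((√|(discr F : ℝ)| : ℝ) : ℂ) * h1 + (∏ p, (q p : ℂ)) * h2
  · by_cases h0 : ∀ p, q p ≠ 0
    · rw [padicValRat.mul hρ.ne' (Finset.prod_ne_zero_iff.2 fun i _ => h0 i), hρ0, zero_add, z2_prod q h0]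
      exact Finset.sum_nonneg fun i _ => hq0 i
    · push Not at h0
      obtain ⟨p, h0⟩ := h0
      rw [Finset.prod_eq_zero (Finset.mem_univ p) h0, mul_zero]
      simp
  · rw [← hsel]
    constructor
    · rintro ⟨h1, h2⟩
      have h0 : ∀ p, q p ≠ 0 := fun p h => h1 (by rw [Finset.prod_eq_zero (Finset.mem_univ p) h, mul_zero])
      rw [padicValRat.mul hρ.ne' (Finset.prod_ne_zero_iff.2 fun i _ => h0 i), hρ0, zero_add, z2_prod q h0] at h2
      have h3 := (Finset.sum_eq_zero_iff_of_nonneg fun i _ => hq0 i).1 h2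
      exact fun p => (hiff p).1 ⟨h0 p, h3 p (Finset.mem_univ p)⟩
    · intro h
      have h1 : ∀ p, q p ≠ 0 ∧ padicValRat l (q p) = 0 := fun p => (hiff p).2 (h p)
      refine ⟨mul_ne_zero hρ.ne' (Finset.prod_ne_zero_iff.2 fun i _ => (h1 i).1), ?_⟩
      rw [padicValRat.mul hρ.ne' (Finset.prod_ne_zero_iff.2 fun i _ => (h1 i).1), hρ0, zero_add, z2_prod q fun i => (h1 i).1]
      exact Finset.sum_eq_zero fun i _ => (h1 i).2

theorem period_ne2 (hD : Dat0 l m D d) (hE : Dat0 m l D e) (hK : Kum l n d δ) (hM : Kum m b e ε) (hC : Cmp A B F) :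
    SBSD.period (ED (jF F D)) ≠ 0 := by
  have hdom := eis_isDomain
  obtain ⟨r, hr, h1⟩ := per_F2 hD hE hK hM hC
  rw [h1]
  have h4 : (0 : ℝ) < ‖emb (4 * D)‖ :=
    norm_pos_iff.2 ((map_ne_zero_iff emb emb_injective).2 (mul_ne_zero (by decide) hD.ne0))
  have h5 : (0 : ℝ) < ‖emb (4 * D)‖ ^ ((1 : ℝ) / 3) := Real.rpow_pos_of_pos h4 _
  have h6 := Om_pos
  have h7 := kap6_pos hD.ne0
  have h8 : (r : ℝ) ≠ 0 := by exact_mod_cast hr.1.ne'
  refine mul_ne_zero (pow_ne_zero _ ?_) h8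
  positivity

theorem ft_F2 (hdat : ∀ ψ : Fin b → ZMod m, Dat l m (D * dx e ψ ^ l) d) (hD : Dat0 l m D d) (hE : Dat0 m l D e)
    (hK : Kum l n d δ) (hM : Kum m b e ε) (hC : Cmp A B F) (hN : Np l (ED (jF F D))) :
    (∀ p : (Fin b → ZMod m) × (Fin n → ZMod l), FT l (ED (jK (D * dx e p.1 ^ l * dx d p.2 ^ m)))) ↔ FT l (ED (jF F D)) := by
  have htp : Tp l (ED (jF F D)) ↔ ∀ ψ : Fin b → ZMod m, Tp l (ED (jK (D * dx e ψ ^ l))) :=
    tp_up2 hD hE hK hM hC fun ψ v i hi => (hdat ψ).npt v i hi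
  have hfs : Fs l (ED (jF F D)) ↔ ∀ ψ : Fin b → ZMod m, Fs l (ED (jF A (D * dx e ψ ^ l))) := by
    obtain ⟨h1, h2⟩ := cmp_adjoin hM hC
    refine sel_desc hD.lm.2 hD.lm.1 hD.ne0 (fun i => ?_) hM.ne h1 h2 hN
    rw [← map_pow, hM.pow i, jF_apply, jF_apply]
    exact (IsScalarTower.algebraMap_apply KK B F _).symm
  constructor
  · intro h
    refine ⟨hfs.2 fun ψ => ?_, htp.2 fun ψ => ?_⟩
    · have h1 := h (ψ, 0)
      have h2 := (tp_twist (hdat ψ) hK 0).1 h1.2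
      exact (sel_iff (hdat ψ) h2 hK 0).1 h1.1
    · exact (tp_twist (hdat ψ) hK 0).1 (h (ψ, 0)).2
  · rintro ⟨h1, h2⟩ ⟨ψ, χ⟩
    have h3 := htp.1 h2 ψ
    exact ⟨(sel_iff (hdat ψ) h3 hK χ).2 (hfs.1 h1 ψ), (tp_twist (hdat ψ) hK χ).2 h3⟩

omit [NeZero m] in
theorem ft_K (hdat : ∀ ψ : Fin b → ZMod m, Dat l m (D * dx e ψ ^ l) d) (hK : Kum l n d δ) :
    (∀ p : (Fin b → ZMod m) × (Fin n → ZMod l), FT l (ED (jK (D * dx e p.1 ^ l * dx d p.2 ^ m)))) ↔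
      ∀ ψ : Fin b → ZMod m, FT l (ED (jK (D * dx e ψ ^ l))) := by
  have e0 : ∀ ψ : Fin b → ZMod m, D * dx e ψ ^ l * dx d (0 : Fin n → ZMod l) ^ m = D * dx e ψ ^ l := by
    intro ψ
    rw [dx_zero, one_pow, mul_one]
  constructor
  · intro h ψ
    have h1 := h (ψ, 0)
    rwa [e0] at h1
  · rintro h ⟨ψ, χ⟩
    have h3 := (h ψ).2
    have h4 := sel_iff (hdat ψ) h3 hK 0
    rw [e0] at h4
    exact ⟨(sel_iff (hdat ψ) h3 hK χ).2 (h4.1 (h ψ).1), (tp_twist (hdat ψ) hK χ).2 h3⟩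

theorem la_main (hV : AllT l) (hdat : ∀ ψ : Fin b → ZMod m, Dat l m (D * dx e ψ ^ l) d) (hD : Dat0 l m D d) (hE : Dat0 m l D e)
    (hK : Kum l n d δ) (hM : Kum m b e ε) (hC : Cmp A B F) (hN : Np l (ED (jF F D))) :
    LA l (ED (jF F D)) (FT l (ED (jF F D))) := by
  have hdom := eis_isDomain
  refine la_F2 hD hE hK hM hC (P := fun p => FT l (ED (jK (D * dx e p.1 ^ l * dx d p.2 ^ m)))) (fun p => ?_)
    (ft_F2 hdat hD hE hK hM hC hN)
  exact lt_any hV (mul_ne_zero (hdat p.1).ne0 (pow_ne_zero _ (dx_ne hK p.2))) (np_twist (hdat p.1) hK p.2)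

end CY
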