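import Pool.Agent.CY.Z1
import Pool.Agent.CY.K3
import Pool.Agent.CX.P3

/-!
# [CY-Z2] the conjecture modulo `l` over the abelian extensions of exponent dividing `6`, given the values over `ℚ(ω)`
-/

set_option autoImplicit false

open NumberField IsDedekindDomain
open scoped Classical ComplexConjugate

namespace CY

open CX CM27 CMT NAB CF JD
open CU (la om eE)

theorem nice6_smul {l : ℕ} {E : WeierstrassCurve KK} (C : WeierstrassCurve.VariableChange KK) {F : Type} [Field F] [NumberField F]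
    [Algebra KK F] : Nice6 l (C • E) F ↔ Nice6 l E F := by
  have e1 : (C • E).baseChange F = C.map (algebraMap KK F) • E.baseChange F := ISO.bc_smul E C
  constructor
  · intro h
    have h1 := h.noPt
    have h2 := h.ramified
    rw [e1] at h1 h2
    exact ⟨h.galois, h.comm, h.exponent, h.split, (np_smul _ _ l).1 h1, fun v P hP => (noPt_smul _ _ l P).1 (h2 v P hP)⟩
  · intro h
    refine ⟨h.galois, h.comm, h.exponent, h.split, ?_, fun v P hP => ?_⟩
    · rw [e1]
      exact (np_smul _ _ l).2 h.noPt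
    · rw [e1]
      exact (noPt_smul _ _ l P).2 (h.ramified v P hP)

theorem z2_top : IntermediateField.adjoin KK (Set.range (Fin.elim0 : Fin 0 → KK)) = ⊤ := by
  rw [eq_top_iff]
  intro x _
  exact IntermediateField.algebraMap_mem _ x

theorem z2_kum {l : ℕ} : Kum l 0 (F := KK) (Fin.elim0 : Fin 0 → Eis) (Fin.elim0 : Fin 0 → KK) :=
  ⟨fun i => i.elim0, fun i => i.elim0, z2_top, by rw [Module.finrank_self, pow_zero]⟩

theorem z2_cmp (B : Type) [Field B] [NumberField B] [Algebra KK B] : Cmp KK B B := by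
  refine ⟨by rw [Module.finrank_self, one_mul], ?_⟩
  rw [eq_top_iff]
  intro x _
  exact IntermediateField.subset_adjoin KK _ (Or.inr ⟨x, rfl⟩)

theorem z2_om {L : Type} [Field L] (f : Eis →+* L) : ∃ o : L, o ^ 2 + o + 1 = 0 := by
  refine ⟨f om, ?_⟩
  have h2 : (om ^ 2 + om + 1 : Eis) = 0 := by decide
  rw [← map_pow, ← map_add, ← map_one f, ← map_add, h2, map_zero]

/-- no point of order `l` over a subfield -/
theorem z2_np {B F : Type} [Field B] [NumberField B] [Field F] [NumberField F] [Algebra KK B] [Algebra KK F] [Algebra B F]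
    [IsScalarTower KK B F] {l m : ℕ} (hl : l = 2 ∨ l = 3) (hm : l * m = 6) {D : Eis} (hD : D ≠ 0) (h : Np l (ED (jF F D))) :
    Np l (ED (jF B D)) := by
  have hB : jF B D ≠ 0 := fun h0 => hD ((map_eq_zero_iff _ (jF_inj B)).1 h0)
  have hF : jF F D ≠ 0 := fun h0 => hD ((map_eq_zero_iff _ (jF_inj F)).1 h0)
  have h1 := (noPt_iff hF (z2_om (jF F)) hl hm).1 h
  refine (noPt_iff hB (z2_om (jF B)) hl hm).2 fun x hx => h1 (algebraMap B F x) ?_
  rw [← map_pow, hx, jF_apply, jF_apply]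
  exact (IsScalarTower.algebraMap_apply KK B F _).symm

section
variable {A B F : Type} [Field A] [NumberField A] [Field B] [NumberField B] [Field F] [NumberField F] [Algebra KK A] [Algebra KK B]
  [Algebra KK F] [Algebra A F] [Algebra B F] [IsScalarTower KK A F] [IsScalarTower KK B F]
  {l m n b : ℕ} [NeZero l] [NeZero m] {d : Fin n → Eis} {e : Fin b → Eis} {δ : Fin n → A} {ε : Fin b → B} {D : Eis}

theorem ft_B (hdat : ∀ ψ : Fin b → ZMod m, Dat l m (D * dx e ψ ^ l) d) (hD : Dat0 l m D d) (hE : Dat0 m l D e)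
    (hK : Kum l n d δ) (hM : Kum m b e ε) (hC : Cmp A B F) (hN : Np l (ED (jF F D))) :
    FT l (ED (jF F D)) ↔ FT l (ED (jF B D)) := by
  have h1 := (ft_F2 hdat hD hE hK hM hC hN).symm.trans (ft_K hdat hK)
  have hdat0 : ∀ ψ : Fin b → ZMod m, Dat l m (D * dx e ψ ^ l) (Fin.elim0 : Fin 0 → Eis) := fun ψ =>
    ⟨⟨hD.lm, (hdat ψ).ne0, fun _ _ i => i.elim0, fun _ _ i => i.elim0⟩, (hdat ψ).prim, fun _ i => i.elim0⟩
  have hD0 : Dat0 l m D (Fin.elim0 : Fin 0 → Eis) := ⟨hD.lm, hD.ne0, fun _ _ i => i.elim0, fun _ _ i => i.elim0⟩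
  have h2 := (ft_F2 hdat0 hD0 hE z2_kum hM (z2_cmp B) (z2_np hD.lm.2 hD.lm.1 hD.ne0 hN)).symm.trans (ft_K hdat0 (z2_kum (l := l)))
  exact h1.trans h2.symm
end

/-- from the value to the quotient form -/
theorem ml_of_la {l : ℕ} [Fact l.Prime] {L : Type} [Field L] [NumberField L] {W : WeierstrassCurve L} (hE : W.IsElliptic)
    (hΩ : SBSD.period W ≠ 0) (hP : Np l W) (hT : Tp l W) (h : LA l W (FT l W)) : ML l W := by
  refine ml_of_lv hE hΩ ⟨hP, hT⟩ ?_
  obtain ⟨Λ, hΛ, q, hq, h0, hiff⟩ := h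
  exact ⟨Λ, hΛ, q, hq, h0, hiff.trans ⟨fun h => h.1, fun h => ⟨h, hT⟩⟩⟩

theorem ml_smul' {K : Type} [Field K] [NumberField K] (W : WeierstrassCurve K) (C : WeierstrassCurve.VariableChange K)
    (hΔ : W.Δ ≠ 0) (l : ℕ) : ML l (C • W) ↔ ML l W := ml_smul W C hΔ l

/-- **The conjecture modulo `l` over the abelian extensions of exponent dividing `6`.** -/
theorem main6 {l : ℕ} (hl : l = 2 ∨ l = 3) (hV : AllT l) (E : WeierstrassCurve KK) [E.IsElliptic] (hj : E.j = 0)
    (F : Type) [Field F] [NumberField F] [Algebra KK F] (hN : Nice6 l E F) (B : IntermediateField KK F)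
    (hB : ∀ x : F, x ∈ B ↔ ∀ σ : F ≃ₐ[KK] F, σ ^ l = 1 → σ x = x) :
    MT l (E.baseChange F) ∧ (Tp l (E.baseChange F) → ML l (E.baseChange F)) ∧
      (FT l (E.baseChange F) ↔ FT l (E.baseChange B)) := by
  obtain ⟨D, ⟨h1, C, hC⟩, -⟩ := JZR.model E hj
  have hΔ : E.Δ ≠ 0 := E.isUnit_Δ.ne_zero
  have hΔF : (E.baseChange F).Δ ≠ 0 := ISO.isoc_delta E hΔ
  have hΔB : (E.baseChange B).Δ ≠ 0 := ISO.isoc_delta E hΔ
  obtain ⟨m, hm⟩ : ∃ m, l * m = 6 := by
    rcases hl with rfl | rfl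
    · exact ⟨3, rfl⟩
    · exact ⟨2, rfl⟩
  have : NeZero l := ⟨by rcases hl with rfl | rfl <;> norm_num⟩
  have : NeZero m := ⟨by rintro rfl; simp at hm⟩
  have hp : Fact l.Prime := by
    rcases hl with h | h
    · exact ⟨h ▸ Nat.prime_two⟩
    · exact ⟨h ▸ Nat.prime_three⟩
  have hN' : Nice6 l (ED (jK D)) F := by
    rw [← hC]
    exact (nice6_smul C).2 hN
  obtain ⟨A, B', n, b, d, e, δ, ε, hK, hM, hCm, hdat, hD, hE, hB'⟩ := exists_data hl hm h1.1 hN'
  obtain rfl : B = B' := by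
    ext x
    rw [hB, hB']
  have e1 : ED (jF F D) = C.map (algebraMap KK F) • E.baseChange F := by
    rw [← ISO.bc_smul, hC]
    exact (ED_map (algebraMap KK F) (jK D)).symm
  have e2 : ED (jF B D) = C.map (algebraMap KK B) • E.baseChange B := by
    rw [← ISO.bc_smul, hC]
    exact (ED_map (algebraMap KK B) (jK D)).symm
  have hNp : Np l (ED (jF F D)) := by
    rw [e1]
    exact (np_smul _ _ l).2 hN.noPt
  have hla := la_main hV hdat hD hE hK hM hCm hNp
  have hell : (ED (jF F D)).IsElliptic := ⟨isUnit_iff_ne_zero.2 (z4_ne h1.1)⟩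
  have hΩ := period_ne2 hD hE hK hM hCm
  refine ⟨?_, fun hT => ?_, ?_⟩
  · have h2 := mt_of_la hell hΩ hNp hla
    rwa [e1, mt_smul _ _ hΔF] at h2
  · have hT' : Tp l (ED (jF F D)) := by
      rw [e1]
      exact (tp_smul _ hΔF _ l).2 hT
    have h2 := ml_of_la hell hΩ hNp hT' hla
    rwa [e1, ml_smul _ _ hΔF] at h2
  · have h3 := ft_B hdat hD hE hK hM hCm hNp
    rwa [e1, ft_smul _ hΔF, e2, ft_smul _ hΔB] at h3

end CY
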