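import Pool.Agent.CY.Z2
import Pool.Agent.CY.E3
import Pool.Agent.CX.Z7

/-!
# [CY-Z3] the conjecture modulo `l` over the abelian extensions of exponent dividing `6`
-/

set_option autoImplicit false

open NumberField IsDedekindDomain
open scoped Classical ComplexConjugate

namespace CY

open CX CM27 CMT NAB CF JD

/-- **The conjecture modulo `l` over the abelian extensions of exponent dividing `6`.** -/
theorem modL6 {l : ℕ} (hl : l = 2 ∨ l = 3) (E : WeierstrassCurve KK) [E.IsElliptic] (hj : E.j = 0)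
    (F : Type) [Field F] [NumberField F] [Algebra KK F] (hN : Nice6 l E F) (B : IntermediateField KK F)
    (hB : ∀ x : F, x ∈ B ↔ ∀ σ : F ≃ₐ[KK] F, σ ^ l = 1 → σ x = x) :
    MT l (E.baseChange F) ∧ (Tp l (E.baseChange F) → ML l (E.baseChange F)) ∧
      (FT l (E.baseChange F) ↔ FT l (E.baseChange B)) :=
  main6 hl (allT hl) E hj F hN B hB

/-- **Existence.** -/
theorem nice6_exists {l m : ℕ} (hl : l = 2 ∨ l = 3) (hm : l * m = 6) (E : WeierstrassCurve KK) [E.IsElliptic] (hj : E.j = 0) (hP : Np l E)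
    (n b : ℕ) (hn : 0 < n + b) (Bd : ℕ) : ∃ (F : Type) (_ : Field F) (_ : NumberField F) (_ : Algebra KK F), Nice6 l E F ∧
      Module.finrank KK F = l ^ n * m ^ b ∧ Bd < (discr F).natAbs := by
  obtain ⟨D, ⟨h1, C, hC⟩, -⟩ := JZR.model E hj
  have hP' : Np l (ED (jK D)) := by
    rw [← hC]
    exact (np_smul E C l).2 hP
  obtain ⟨F, i1, i2, i3, h2, h3, h4⟩ := exists_nice6 hl hm h1.1 hP' n b hn Bd
  refine ⟨F, i1, i2, i3, ?_, h3, h4⟩
  rw [← hC] at h2
  exact (nice6_smul C).1 h2

end CY
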